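import Mathlib

/-!
# MP_07f90a_co: local structures on sets of leaves of a binary tree (definitions)

To every finite set `P` of leaves we attach a type `t` (a Boolean), a record `r` and a weight `w`
in a field `F` of characteristic two.  `IsLoc` lists the properties of this structure which are
proved by induction on the height of the tree, and `Loc` the ones which are used later.
-/

set_option autoImplicit false

namespace Pool.Agent.H62.ZN

open Finset

/-- The records. -/
inductive Rec : Type
  | zero : Rec
  | psi : Rec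
  | l12 : ℕ → Rec
  | l21 : ℕ → Rec
  | A : ℕ → Rec → Rec → Rec
  | B : ℕ → Rec → Rec → Rec
  deriving DecidableEq

/-- The level of a record is larger than the level of its outermost node. -/
def Rec.lev : Rec → ℕ
  | Rec.zero => 0
  | Rec.psi => 0
  | Rec.l12 l => l + 1
  | Rec.l21 l => l + 1
  | Rec.A l _ _ => l + 1
  | Rec.B l _ _ => l + 1

/-- The size of a record. -/
def Rec.size : Rec → ℕ
  | Rec.zero => 0
  | Rec.psi => 2
  | Rec.l12 _ => 3
  | Rec.l21 _ => 3
  | Rec.A _ a b => a.size + b.size
  | Rec.B _ a b => a.size + b.size + 2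

/-- A structure on the finite subsets of `D`: type and record, and weight. -/
structure Str (D F : Type) where
  dat : Finset D → Bool × Rec
  w : Finset D → F

/-- Adding one element in a different half. -/
def h1 (g : Rec → Rec) (v : Bool × Rec) : Bool × Rec :=
  if v.1 = true then (false, g v.2) else (true, v.2)

/-- The generic combination rule. -/
def gen (l : ℕ) (a b : Bool × Rec) : Bool × Rec :=
  if a.1 = true ∧ b.1 = true then (false, Rec.B l a.2 b.2) else (a.1 || b.1, Rec.A l a.2 b.2)

/-- The combination rule for sets with `m` elements in the left half and `n` in the right half. -/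
def comb (l m n : ℕ) (a b : Bool × Rec) : Bool × Rec :=
  if m = 0 then b
  else if n = 0 then a
  else if m = 1 then
    (if n = 1 then (false, Rec.psi) else if n = 2 then (false, Rec.l12 l)
      else h1 (Rec.B l Rec.zero) b)
  else if n = 1 then
    (if m = 2 then (false, Rec.l21 l) else h1 (fun r => Rec.B l r Rec.zero) a)
  else gen l a b

/-- The structure on the disjoint union of two halves. -/
def Str.join {D0 D1 F : Type} [Field F] (l : ℕ) (s0 : Str D0 F) (s1 : Str D1 F)
    (x : D0 ⊕ D1 → F) : Str (D0 ⊕ D1) F where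
  dat P := comb l P.toLeft.card P.toRight.card (s0.dat P.toLeft) (s1.dat P.toRight)
  w P := if P.toLeft.card = 1 ∧ P.toRight.card = 1 then ∑ d ∈ P, x d
    else s0.w P.toLeft * s1.w P.toRight

/-- The properties proved by induction on the height. -/
structure IsLoc {D F : Type} [DecidableEq D] [Field F] (l : ℕ) (x : D → F) (s : Str D F) :
    Prop where
  f0 : ∀ P : Finset D, P.card = 0 → s.dat P = (false, Rec.zero) ∧ s.w P = 1
  f1 : ∀ P : Finset D, P.card = 1 → s.dat P = (true, Rec.zero) ∧ s.w P = 1
  f2 : ∀ P : Finset D, P.card = 2 → s.dat P = (false, Rec.psi) ∧ s.w P = ∑ d ∈ P, x d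
  f3 : ∀ P : Finset D, P.card = 3 → (s.dat P).1 = false
  lev : ∀ P : Finset D, (s.dat P).2.lev ≤ l
  size : ∀ P : Finset D, (s.dat P).2.size + (if (s.dat P).1 = true then 1 else 0) = P.card
  wne : ∀ P : Finset D, s.w P ≠ 0
  sum : ∀ (S : Finset D) (f : Bool × Rec → F),
    ∑ v ∈ S, f (s.dat (S.erase v)) * s.w (S.erase v) =
      if (s.dat S).1 = true then f (false, (s.dat S).2) * s.w S else 0
  cnt : ∀ (S : Finset D) (u : Bool × Rec),
    (S.filter (fun v => s.dat (S.erase v) = u)).card ≤ 3
  cnt0 : ∀ S : Finset D,
    (S.filter (fun v => s.dat (S.erase v) = (false, (s.dat S).2))).card ≤ 1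

/-- The properties used later. -/
structure Loc {D F : Type} [DecidableEq D] [Field F] (s : Str D F) : Prop where
  wne : ∀ P : Finset D, s.w P ≠ 0
  empty : s.dat ∅ = (false, Rec.zero)
  single : ∀ d : D, s.dat {d} = (true, Rec.zero)
  ex : ∀ S : Finset D, (s.dat S).1 = true → ∃ m ∈ S, s.dat (S.erase m) = (false, (s.dat S).2) ∧
    s.w (S.erase m) = s.w S ∧ ∀ v ∈ S, (s.dat (S.erase v)).2 = (s.dat S).2 → v = m
  non : ∀ S : Finset D, (s.dat S).1 = false → ∀ v ∈ S, (s.dat (S.erase v)).2 ≠ (s.dat S).2
  grp : ∀ (S : Finset D) (u : Bool × Rec), u.2 ≠ (s.dat S).2 →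
    (S.filter (fun v => s.dat (S.erase v) = u)).card ≤ 3 ∧
    ∑ v ∈ S.filter (fun v => s.dat (S.erase v) = u), s.w (S.erase v) = 0

/-- The leaves of the binary tree of height `l`. -/
def Tree : ℕ → Type
  | 0 => Unit
  | l + 1 => Tree l ⊕ Tree l

instance instDecTree : (l : ℕ) → DecidableEq (Tree l)
  | 0 => inferInstanceAs (DecidableEq Unit)
  | l + 1 => by
    letI := instDecTree l
    exact inferInstanceAs (DecidableEq (Tree l ⊕ Tree l))

instance instFinTree : (l : ℕ) → Fintype (Tree l)
  | 0 => inferInstanceAs (Fintype Unit)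
  | l + 1 => by
    letI := instFinTree l
    exact inferInstanceAs (Fintype (Tree l ⊕ Tree l))

lemma card_tree (l : ℕ) : Fintype.card (Tree l) = 2 ^ l := by
  induction l with
  | zero => rfl
  | succ l ih =>
    have : Fintype.card (Tree (l + 1)) = Fintype.card (Tree l ⊕ Tree l) := rfl
    rw [this, Fintype.card_sum, ih]
    ring

/-- The structure on the leaves of the binary tree. -/
def str {F : Type} [Field F] : (l : ℕ) → (Tree l → F) → Str (Tree l) F
  | 0, _ => { dat := fun P => (decide (P.card = 1), Rec.zero), w := fun _ => 1 }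
  | l + 1, x => (str l (fun d => x (Sum.inl d))).join l (str l (fun d => x (Sum.inr d))) x

/-- The set of records of sets with few elements. -/
def RR (L : ℕ) : ℕ → Finset Rec
  | 0 => insert Rec.zero (insert Rec.psi ((range L).image Rec.l12 ∪ (range L).image Rec.l21))
  | j + 1 => RR L j ∪
      ((range L ×ˢ (RR L j ×ˢ RR L j)).image (fun p => Rec.A p.1 p.2.1 p.2.2) ∪
        (range L ×ˢ (RR L j ×ˢ RR L j)).image (fun p => Rec.B p.1 p.2.1 p.2.2))

end Pool.Agent.H62.ZN
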