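import Mathlib
import Pool.Agent.H62.ZN.Defs

/-!
# MP_07f90a_co: sets in `N` cells (definitions)

Points are pairs (cell, leaf).  `cont E c` is the content of the cell `c` in `E`, `expo s E` the set
of the exposed cells (those whose content has type `true`), `gg` the counting function of the
exposed cells, `TT` and `KK` the two sums which form the colour `col`, and `WW` the weight.
-/

set_option autoImplicit false

namespace Pool.Agent.H62.ZN

open Finset

variable {N : ℕ} {D F : Type} [Fintype D] [DecidableEq D] [Field F]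

/-- The content of the cell `c`. -/
def cont (E : Finset (Fin N × D)) (c : Fin N) : Finset D := univ.filter (fun d => (c, d) ∈ E)

lemma mem_cont {E : Finset (Fin N × D)} {c : Fin N} {d : D} : d ∈ cont E c ↔ (c, d) ∈ E := by
  simp [cont]

lemma cont_erase_same (E : Finset (Fin N × D)) (c : Fin N) (d : D) :
    cont (E.erase (c, d)) c = (cont E c).erase d := by
  ext e
  simp [mem_cont]

lemma cont_erase_ne (E : Finset (Fin N × D)) {c c' : Fin N} (h : c' ≠ c) (d : D) :
    cont (E.erase (c, d)) c' = cont E c' := by
  ext e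
  simp [mem_cont, h]

/-- The exposed cells. -/
def expo (s : Str D F) (E : Finset (Fin N × D)) : Finset (Fin N) :=
  univ.filter (fun c => (s.dat (cont E c)).1 = true)

/-- The counting function of a set of cells. -/
def gg (V : Finset (Fin N)) : ℤ := ∑ j : Fin N, (((V.filter (fun v => v ≤ j)).card / 2 : ℕ) : ℤ)

/-- The sum of the labels of the records. -/
def TT (lam : Rec → ℕ) (s : Str D F) (E : Finset (Fin N × D)) : ℤ :=
  ∑ c : Fin N, (lam (s.dat (cont E c)).2 : ℤ)

/-- The weighted sum of the labels of the records, plus the counting function. -/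
def KK (lam : Rec → ℕ) (s : Str D F) (E : Finset (Fin N × D)) : ℤ :=
  gg (expo s E) + 2 * ∑ c : Fin N, ((c : ℕ) : ℤ) * (lam (s.dat (cont E c)).2 : ℤ)

/-- The weight. -/
def WW (s : Str D F) (E : Finset (Fin N × D)) : F := ∏ c : Fin N, s.w (cont E c)

/-- The sets which receive a colour. -/
def OK (R : Finset Rec) (s : Str D F) (E : Finset (Fin N × D)) : Prop :=
  (∀ c : Fin N, (s.dat (cont E c)).2 ∈ R) ∧ (expo s E).card % 2 = 1

instance (R : Finset Rec) (s : Str D F) (E : Finset (Fin N × D)) : Decidable (OK R s E) := by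
  unfold OK; infer_instance

/-- The colour. -/
def col (Q1 Q2 : ℕ) (lam : Rec → ℕ) (s : Str D F) (E : Finset (Fin N × D)) :
    ZMod Q1 × ZMod Q2 × ZMod 4 :=
  ((TT lam s E : ZMod Q1), (KK lam s E : ZMod Q2), ((expo s E).card : ZMod 4))

/-- The set `s` of the elements of `S` whose removal gives a set of a given colour. -/
def grp (Q1 Q2 : ℕ) (R : Finset Rec) (lam : Rec → ℕ) (s : Str D F) (S : Finset (Fin N × D))
    (u : ZMod Q1 × ZMod Q2 × ZMod 4) : Finset (Fin N × D) :=
  S.filter (fun p => OK R s (S.erase p) ∧ col Q1 Q2 lam s (S.erase p) = u)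

end Pool.Agent.H62.ZN
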