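import Mathlib
import Pool.Agent.H62.ZN.Cells0
import Pool.Agent.H62.ZS.Base

/-!
# JOB ZN-1 (MP_07f90a_co): the counting function of a set of cells

`gg V = sum over j of floor (card (V ∩ [0, j]) / 2)`.

Proof of `gg_pairs`: let `V = {s_0 < ... < s_{2M-1}}`.  For `c < c'` in `V`
`gg (V.erase c') - gg (V.erase c)` is the number of `j` with `c ≤ j < c'` for which
`card (V ∩ [0, j])` is even (the two erased sets have the counts `F j - [c' ≤ j]` and
`F j - [c ≤ j]`, where `F j = card (V ∩ [0, j])`).  So for `c = s_i`, `c' = s_{i+1}`, where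
`F j = i + 1` for `c ≤ j < c'`, it is `0` for even `i` and `c' - c > 0` for odd `i`; and in total
`gg (V.erase s_{2M-1}) - gg (V.erase s_0) < N`.  Apply `Pool.Agent.H62.ZS.chain_lemma` (file
`Pool/Agent/H62/ZS/Base.lean`) to `F i = - gg (V.erase s_i)`; see `good_count` in the same file for
the enumeration of a finite set by `orderEmbOfFin`.

Proof of `gg_insert_dist`, `gg_erase_dist`: the counts differ by at most one, and only for `j`
between `c` and `c'` (one end included), so the halves differ by at most one there.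
-/

set_option autoImplicit false

namespace Pool.Agent.H62.ZN

open Finset

lemma GG_card_erase {N : ℕ} (V : Finset (Fin N)) {c : Fin N} (hc : c ∈ V) (j : Fin N) :
    (((V.erase c).filter (fun v => v ≤ j)).card) + (if c ≤ j then 1 else 0) =
      (V.filter (fun v => v ≤ j)).card := by
  rw [Finset.filter_erase]
  by_cases h : c ≤ j
  · rw [if_pos h, Finset.card_erase_add_one (by simp [hc, h])]
  · rw [if_neg h, Finset.erase_eq_of_notMem (by simp [h]), add_zero]

lemma GG_card_insert {N : ℕ} (V : Finset (Fin N)) {c : Fin N} (hc : c ∉ V) (j : Fin N) :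
    (((insert c V).filter (fun v => v ≤ j)).card) =
      (V.filter (fun v => v ≤ j)).card + (if c ≤ j then 1 else 0) := by
  rw [Finset.filter_insert]
  by_cases h : c ≤ j
  · rw [if_pos h, if_pos h, Finset.card_insert_of_notMem (by simp [hc])]
  · rw [if_neg h, if_neg h, add_zero]

lemma GG_diff {N : ℕ} (V : Finset (Fin N)) {c c' : Fin N} (hc : c ∈ V) (hc' : c' ∈ V)
    (h : c < c') : gg (V.erase c') - gg (V.erase c) =
      ((univ.filter (fun j : Fin N => c ≤ j ∧ j < c' ∧
        (V.filter (fun v => v ≤ j)).card % 2 = 0)).card : ℤ) := by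
  unfold gg
  rw [← Finset.sum_sub_distrib, Finset.card_filter, Nat.cast_sum]
  apply Finset.sum_congr rfl
  intro j _
  have h1 := GG_card_erase V hc j
  have h2 := GG_card_erase V hc' j
  by_cases a : c ≤ j
  · by_cases b : c' ≤ j
    · rw [if_pos a] at h1
      rw [if_pos b] at h2
      rw [if_neg (by intro h3; exact absurd h3.2.1 (not_lt.2 b))]
      have : ((V.erase c').filter (fun v => v ≤ j)).card =
          ((V.erase c).filter (fun v => v ≤ j)).card := by omega
      rw [this]; simp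
    · rw [if_pos a] at h1
      rw [if_neg b] at h2
      by_cases e : (V.filter (fun v => v ≤ j)).card % 2 = 0
      · rw [if_pos ⟨a, not_le.1 b, e⟩]
        push_cast
        omega
      · rw [if_neg (by intro h3; exact e h3.2.2)]
        push_cast
        omega
  · have b : ¬ c' ≤ j := fun b => a (h.le.trans b)
    rw [if_neg a] at h1
    rw [if_neg b] at h2
    rw [if_neg (by intro h3; exact a h3.1)]
    have : ((V.erase c').filter (fun v => v ≤ j)).card =
        ((V.erase c).filter (fun v => v ≤ j)).card := by omega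
    rw [this]; simp

lemma GG_count {N k : ℕ} (V : Finset (Fin N)) (h : V.card = k) (i : Fin k) (j : Fin N)
    (h1 : V.orderEmbOfFin h i ≤ j) (h2 : ∀ i' : Fin k, i < i' → j < V.orderEmbOfFin h i') :
    (V.filter (fun v => v ≤ j)).card = i + 1 := by
  have : V.filter (fun v => v ≤ j)
      = (univ.filter (fun t : Fin k => t ≤ i)).map (V.orderEmbOfFin h).toEmbedding := by
    ext y
    simp only [mem_filter, mem_map, mem_univ, true_and]
    constructor
    · rintro ⟨hy, hle⟩
      have : y ∈ Set.range (V.orderEmbOfFin h) := by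
        rw [Finset.range_orderEmbOfFin]; exact hy
      obtain ⟨t, ht⟩ := this
      refine ⟨t, ?_, ht⟩
      by_contra hcon
      have h3 := h2 t (not_le.1 hcon)
      rw [ht] at h3
      exact absurd hle (not_le.2 h3)
    · rintro ⟨t, ht, rfl⟩
      exact ⟨Finset.orderEmbOfFin_mem V h t, le_trans ((V.orderEmbOfFin h).le_iff_le.mpr ht) h1⟩
  rw [this, Finset.card_map]
  have : (univ.filter (fun t : Fin k => t ≤ i)) = Finset.Iic i := by ext t; simp
  rw [this, Fin.card_Iic]

theorem gg_pairs {N Q : ℕ} (hQ : N ≤ Q) (V : Finset (Fin N)) (hV : V.card % 2 = 0) (t : ZMod Q) :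
    (V.filter (fun c => ((gg (V.erase c) : ℤ) : ZMod Q) = t)).card = 0 ∨
      (V.filter (fun c => ((gg (V.erase c) : ℤ) : ZMod Q) = t)).card = 2 := by
  obtain ⟨M, hM⟩ : ∃ M, V.card = 2 * M := ⟨V.card / 2, by omega⟩
  rcases Nat.eq_zero_or_pos M with rfl | hMpos
  · left
    have : V = ∅ := Finset.card_eq_zero.1 (by omega)
    rw [this]; simp
  let s : Fin (2 * M) → Fin N := fun i => V.orderEmbOfFin hM i
  have hs : ∀ i, s i ∈ V := fun i => Finset.orderEmbOfFin_mem V hM i
  have hmono : ∀ {i j : Fin (2 * M)}, i < j → s i < s j :=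
    fun hij => (V.orderEmbOfFin hM).lt_iff_lt.mpr hij
  have hinj : ∀ {i j : Fin (2 * M)}, s i = s j → i = j :=
    fun hij => (V.orderEmbOfFin hM).injective hij
  have hsurj : ∀ c ∈ V, ∃ i, s i = c := by
    intro c hc
    have : c ∈ Set.range (V.orderEmbOfFin hM) := by
      rw [Finset.range_orderEmbOfFin]; exact hc
    exact this
  let F : ℕ → ℤ := fun p => if hp : p < 2 * M then - gg (V.erase (s ⟨p, hp⟩)) else 0
  have hF : ∀ p (hp : p < 2 * M), F p = - gg (V.erase (s ⟨p, hp⟩)) := fun p hp => dif_pos hp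
  have hcount : ∀ (p : ℕ) (hp : p + 1 < 2 * M) (j : Fin N), s ⟨p, by omega⟩ ≤ j →
      j < s ⟨p + 1, hp⟩ → (V.filter (fun v => v ≤ j)).card = p + 1 := by
    intro p hp j h1 h2
    have h3 := GG_count V hM ⟨p, by omega⟩ j h1 (by
      intro i' hi'
      have h4 : (⟨p + 1, hp⟩ : Fin (2 * M)) ≤ i' := by
        rw [Fin.le_def]
        have : p < i'.val := hi'
        exact this
      exact lt_of_lt_of_le h2 ((V.orderEmbOfFin hM).le_iff_le.mpr h4))
    exact h3
  have key := Pool.Agent.H62.ZS.chain_lemma F M Q (-t)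
    (by
      intro i hi
      rw [hF _ (show 2 * i + 1 < 2 * M by omega), hF _ (show 2 * i < 2 * M by omega)]
      have h1 := GG_diff V (hs ⟨2 * i, by omega⟩) (hs ⟨2 * i + 1, by omega⟩)
        (hmono (by rw [Fin.lt_def]; simp))
      have h2 : (univ.filter (fun j : Fin N => s ⟨2 * i, by omega⟩ ≤ j ∧
          j < s ⟨2 * i + 1, by omega⟩ ∧ (V.filter (fun v => v ≤ j)).card % 2 = 0)) = ∅ := by
        rw [Finset.filter_eq_empty_iff]
        rintro j _ ⟨h3, h4, h5⟩
        rw [hcount (2 * i) (by omega) j h3 h4] at h5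
        omega
      rw [h2, Finset.card_empty] at h1
      push_cast at h1
      linarith)
    (by
      intro i hi
      rw [hF _ (show 2 * i + 2 < 2 * M by omega), hF _ (show 2 * i + 1 < 2 * M by omega)]
      have hlt : s ⟨2 * i + 1, by omega⟩ < s ⟨2 * i + 2, by omega⟩ :=
        hmono (by rw [Fin.lt_def]; simp)
      have h1 := GG_diff V (hs ⟨2 * i + 1, by omega⟩) (hs ⟨2 * i + 2, by omega⟩) hlt
      have h2 : 0 < (univ.filter (fun j : Fin N => s ⟨2 * i + 1, by omega⟩ ≤ j ∧
          j < s ⟨2 * i + 2, by omega⟩ ∧ (V.filter (fun v => v ≤ j)).card % 2 = 0)).card := by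
        apply Finset.card_pos.2
        refine ⟨s ⟨2 * i + 1, by omega⟩, ?_⟩
        simp only [mem_filter, mem_univ, true_and]
        refine ⟨le_refl _, hlt, ?_⟩
        rw [hcount (2 * i + 1) (by omega) _ le_rfl hlt]
        omega
      have h3 : (0 : ℤ) < ((univ.filter (fun j : Fin N => s ⟨2 * i + 1, by omega⟩ ≤ j ∧
          j < s ⟨2 * i + 2, by omega⟩ ∧ (V.filter (fun v => v ≤ j)).card % 2 = 0)).card : ℤ) := by
        exact_mod_cast h2
      linarith)
    (by
      rw [hF _ (show 0 < 2 * M by omega), hF _ (show 2 * M - 1 < 2 * M by omega)]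
      have hlt : s ⟨0, by omega⟩ < s ⟨2 * M - 1, by omega⟩ :=
        hmono (by rw [Fin.lt_def]; simp; omega)
      have h1 := GG_diff V (hs ⟨0, by omega⟩) (hs ⟨2 * M - 1, by omega⟩) hlt
      have h2 : (univ.filter (fun j : Fin N => s ⟨0, by omega⟩ ≤ j ∧
          j < s ⟨2 * M - 1, by omega⟩ ∧ (V.filter (fun v => v ≤ j)).card % 2 = 0)).card ≤
          (Finset.Iio (s ⟨2 * M - 1, by omega⟩)).card := by
        apply Finset.card_le_card
        intro j hj
        simp only [mem_filter, mem_univ, true_and] at hj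
        exact Finset.mem_Iio.2 hj.2.1
      rw [Fin.card_Iio] at h2
      have h3 := (s ⟨2 * M - 1, by omega⟩).isLt
      have h4 : ((univ.filter (fun j : Fin N => s ⟨0, by omega⟩ ≤ j ∧
          j < s ⟨2 * M - 1, by omega⟩ ∧ (V.filter (fun v => v ≤ j)).card % 2 = 0)).card : ℤ) <
          Q := by
        exact_mod_cast lt_of_le_of_lt h2 (lt_of_lt_of_le h3 hQ)
      linarith)
  have hval : ∀ p (hp : p < 2 * M), ((F p : ℤ) : ZMod Q) = -t ↔
      ((gg (V.erase (s ⟨p, hp⟩)) : ℤ) : ZMod Q) = t := by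
    intro p hp
    rw [hF p hp]
    push_cast
    exact neg_inj
  rcases key with h | ⟨i, hi, h⟩
  · left
    rw [Finset.card_eq_zero, Finset.filter_eq_empty_iff]
    intro c hc h1
    obtain ⟨i, rfl⟩ := hsurj c hc
    exact h i.1 i.2 ((hval i.1 i.2).2 h1)
  · right
    have : V.filter (fun c => ((gg (V.erase c) : ℤ) : ZMod Q) = t) =
        {s ⟨2 * i, by omega⟩, s ⟨2 * i + 1, by omega⟩} := by
      ext c
      simp only [mem_filter, mem_insert, mem_singleton]
      constructor
      · rintro ⟨hc, h1⟩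
        obtain ⟨p, rfl⟩ := hsurj c hc
        have h2 := (h p.1 p.2).1 ((hval p.1 p.2).2 h1)
        rcases h2 with h2 | h2
        · left; congr 1; exact Fin.ext h2
        · right; congr 1; exact Fin.ext h2
      · rintro (rfl | rfl)
        · exact ⟨hs _, (hval _ _).1 ((h _ (by omega)).2 (Or.inl rfl))⟩
        · exact ⟨hs _, (hval _ _).1 ((h _ (by omega)).2 (Or.inr rfl))⟩
    rw [this, Finset.card_pair]
    intro h1
    have := hinj h1
    rw [Fin.mk.injEq] at this
    omega

lemma GG_sum_dist {N : ℕ} (a b : Fin N → ℕ) {c c' : Fin N} (h : c ≤ c')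
    (hab : ∀ j, a j = b j ∨ (c ≤ j ∧ j < c' ∧ (a j = b j + 1 ∨ b j = a j + 1))) :
    |∑ j : Fin N, (a j : ℤ) - ∑ j : Fin N, (b j : ℤ)| ≤ ((c' : ℕ) : ℤ) - ((c : ℕ) : ℤ) := by
  rw [← Finset.sum_sub_distrib]
  refine (Finset.abs_sum_le_sum_abs _ _).trans ?_
  have h1 : ∀ j : Fin N, |(a j : ℤ) - (b j : ℤ)| ≤ if c ≤ j ∧ j < c' then 1 else 0 := by
    intro j
    rcases hab j with h2 | ⟨h2, h3, h4⟩
    · rw [h2, sub_self, abs_zero]; split_ifs <;> norm_num
    · rw [if_pos ⟨h2, h3⟩, abs_le]
      rcases h4 with h4 | h4 <;> rw [h4] <;> push_cast <;> constructor <;> linarith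
  refine (Finset.sum_le_sum fun j _ => h1 j).trans ?_
  rw [Finset.sum_ite, Finset.sum_const_zero, add_zero, Finset.sum_const, nsmul_eq_mul, mul_one]
  have h2 : (univ.filter (fun j : Fin N => c ≤ j ∧ j < c')) = Finset.Ico c c' := by
    ext j; simp
  rw [h2, Fin.card_Ico]
  have : (c : ℕ) ≤ (c' : ℕ) := h
  push_cast [Nat.cast_sub this]
  exact le_refl _

theorem gg_insert_dist {N : ℕ} (V : Finset (Fin N)) {c c' : Fin N} (hc : c ∉ V) (hc' : c' ∉ V) :
    |gg (insert c V) - gg (insert c' V)| ≤ |((c : ℕ) : ℤ) - ((c' : ℕ) : ℤ)| := by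
  have main : ∀ {c c' : Fin N}, c ∉ V → c' ∉ V → c ≤ c' →
      |gg (insert c V) - gg (insert c' V)| ≤ ((c' : ℕ) : ℤ) - ((c : ℕ) : ℤ) := by
    intro c c' hc hc' h
    unfold gg
    apply GG_sum_dist _ _ h
    intro j
    rw [GG_card_insert V hc j, GG_card_insert V hc' j]
    by_cases a : c ≤ j
    · by_cases b : c' ≤ j
      · left; rw [if_pos a, if_pos b]
      · rw [if_pos a, if_neg b]
        rcases Nat.mod_two_eq_zero_or_one (V.filter (fun v => v ≤ j)).card with e | e
        · left; omega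
        · right; exact ⟨a, not_le.1 b, by left; omega⟩
    · have b : ¬ c' ≤ j := fun b => a (h.trans b)
      left; rw [if_neg a, if_neg b]
  rcases le_total c c' with h | h
  · have h1 := main hc hc' h
    have h2 : ((c : ℕ) : ℤ) ≤ ((c' : ℕ) : ℤ) := by exact_mod_cast h
    rw [abs_of_nonpos (by linarith : ((c : ℕ) : ℤ) - ((c' : ℕ) : ℤ) ≤ 0)]
    linarith
  · have h1 := main hc' hc h
    have h2 : ((c' : ℕ) : ℤ) ≤ ((c : ℕ) : ℤ) := by exact_mod_cast h
    rw [abs_sub_comm, abs_of_nonneg (by linarith : (0 : ℤ) ≤ ((c : ℕ) : ℤ) - ((c' : ℕ) : ℤ))]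
    exact h1

theorem gg_erase_dist {N : ℕ} (V : Finset (Fin N)) {c c' : Fin N} (hc : c ∈ V) (hc' : c' ∈ V) :
    |gg (V.erase c) - gg (V.erase c')| ≤ |((c : ℕ) : ℤ) - ((c' : ℕ) : ℤ)| := by
  have main : ∀ {c c' : Fin N}, c ∈ V → c' ∈ V → c ≤ c' →
      |gg (V.erase c) - gg (V.erase c')| ≤ ((c' : ℕ) : ℤ) - ((c : ℕ) : ℤ) := by
    intro c c' hc hc' h
    unfold gg
    apply GG_sum_dist _ _ h
    intro j
    have h1 := GG_card_erase V hc j
    have h2 := GG_card_erase V hc' j
    by_cases a : c ≤ j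
    · rw [if_pos a] at h1
      by_cases b : c' ≤ j
      · rw [if_pos b] at h2
        left; omega
      · rw [if_neg b] at h2
        rcases Nat.mod_two_eq_zero_or_one (V.filter (fun v => v ≤ j)).card with e | e
        · right; exact ⟨a, not_le.1 b, by right; omega⟩
        · left; omega
    · have b : ¬ c' ≤ j := fun b => a (h.trans b)
      rw [if_neg a] at h1
      rw [if_neg b] at h2
      left; omega
  rcases le_total c c' with h | h
  · have h1 := main hc hc' h
    have h2 : ((c : ℕ) : ℤ) ≤ ((c' : ℕ) : ℤ) := by exact_mod_cast h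
    rw [abs_of_nonpos (by linarith : ((c : ℕ) : ℤ) - ((c' : ℕ) : ℤ) ≤ 0)]
    linarith
  · have h1 := main hc' hc h
    have h2 : ((c' : ℕ) : ℤ) ≤ ((c : ℕ) : ℤ) := by exact_mod_cast h
    rw [abs_sub_comm, abs_of_nonneg (by linarith : (0 : ℤ) ≤ ((c : ℕ) : ℤ) - ((c' : ℕ) : ℤ))]
    exact h1

end Pool.Agent.H62.ZN
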