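import Mathlib
import Pool.Agent.H62.ZN.GG

/-!
# JOB ZN-2a (MP_07f90a_co): the effect of the removal of one point

Everything follows from `cont_erase_same` and `cont_erase_ne` (only the content of the cell `c`
changes).

`gg_expo_dist`: `V = expo s S`.  The exposed set of `S.erase (c, d)` is `insert c V` or `V.erase c`
(`expo_erase`), so its cardinality is `V.card - 1`, `V.card` or `V.card + 1`, and in the second case the
exposed set is `V`.  If two such cardinalities are both odd and equal modulo `4` they are equal.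
So the two exposed sets are both `V` (difference of `gg` is `0`), or `insert c V`, `insert c' V` with
`c, c'` not in `V` (`gg_insert_dist`), or `V.erase c`, `V.erase c'` with `c, c'` in `V`
(`gg_erase_dist`).
-/

set_option autoImplicit false

namespace Pool.Agent.H62.ZN

open Finset

variable {N : ℕ} {D F : Type} [Fintype D] [DecidableEq D] [Field F]

theorem expo_erase (s : Str D F) (S : Finset (Fin N × D)) (c : Fin N) (d : D) :
    expo s (S.erase (c, d)) = if (s.dat ((cont S c).erase d)).1 = true then insert c (expo s S)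
      else (expo s S).erase c := by
  ext c'
  by_cases h : c' = c
  · subst h
    split_ifs with h1
    · simp [expo, cont_erase_same, h1]
    · simp [expo, cont_erase_same, h1]
  · split_ifs with h1
    · simp [expo, cont_erase_ne _ h, h]
    · simp [expo, cont_erase_ne _ h, h]

lemma Cells1_sum (f g : Fin N → ℤ) (c : Fin N) (h : ∀ c', c' ≠ c → f c' = g c') :
    ∑ c', f c' = ∑ c', g c' + (f c - g c) := by
  rw [← Finset.add_sum_erase _ f (mem_univ c), ← Finset.add_sum_erase _ g (mem_univ c),
    Finset.sum_congr rfl (fun c' hc' => h c' (ne_of_mem_erase hc'))]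
  ring

theorem TT_erase (lam : Rec → ℕ) (s : Str D F) (S : Finset (Fin N × D)) (c : Fin N) (d : D) :
    TT lam s (S.erase (c, d)) = TT lam s S +
      ((lam (s.dat ((cont S c).erase d)).2 : ℤ) - (lam (s.dat (cont S c)).2 : ℤ)) := by
  unfold TT
  rw [Cells1_sum (fun c' => (lam (s.dat (cont (S.erase (c, d)) c')).2 : ℤ))
    (fun c' => (lam (s.dat (cont S c')).2 : ℤ)) c
    (fun c' h => by rw [cont_erase_ne _ h]), cont_erase_same]

theorem KK_erase (lam : Rec → ℕ) (s : Str D F) (S : Finset (Fin N × D)) (c : Fin N) (d : D) :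
    KK lam s (S.erase (c, d)) = gg (expo s (S.erase (c, d))) +
      2 * (∑ c' : Fin N, ((c' : ℕ) : ℤ) * (lam (s.dat (cont S c')).2 : ℤ)) +
      2 * ((c : ℕ) : ℤ) *
        ((lam (s.dat ((cont S c).erase d)).2 : ℤ) - (lam (s.dat (cont S c)).2 : ℤ)) := by
  unfold KK
  rw [Cells1_sum (fun c' => ((c' : ℕ) : ℤ) * (lam (s.dat (cont (S.erase (c, d)) c')).2 : ℤ))
    (fun c' => ((c' : ℕ) : ℤ) * (lam (s.dat (cont S c')).2 : ℤ)) c
    (fun c' h => by rw [cont_erase_ne _ h]), cont_erase_same]
  ring

theorem WW_erase (s : Str D F) (S : Finset (Fin N × D)) (c : Fin N) (d : D) :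
    WW s (S.erase (c, d)) =
      s.w ((cont S c).erase d) * ∏ c' ∈ (univ : Finset (Fin N)).erase c, s.w (cont S c') := by
  unfold WW
  rw [← Finset.mul_prod_erase univ _ (mem_univ c), cont_erase_same]
  congr 1
  exact Finset.prod_congr rfl fun c' hc' => by rw [cont_erase_ne _ (ne_of_mem_erase hc')]

lemma Cells1_cases (s : Str D F) (S : Finset (Fin N × D)) (c : Fin N) (d : D) :
    (c ∉ expo s S ∧ expo s (S.erase (c, d)) = insert c (expo s S)) ∨
      (c ∈ expo s S ∧ expo s (S.erase (c, d)) = (expo s S).erase c) ∨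
      expo s (S.erase (c, d)) = expo s S := by
  have h := expo_erase s S c d
  by_cases hc : c ∈ expo s S
  · split_ifs at h with h1
    · exact Or.inr (Or.inr (h.trans (insert_eq_of_mem hc)))
    · exact Or.inr (Or.inl ⟨hc, h⟩)
  · split_ifs at h with h1
    · exact Or.inl ⟨hc, h⟩
    · exact Or.inr (Or.inr (h.trans (erase_eq_of_notMem hc)))

theorem gg_expo_dist (s : Str D F) (S : Finset (Fin N × D)) {c c' : Fin N} (d d' : D)
    (hodd : (expo s (S.erase (c, d))).card % 2 = 1)
    (h4 : ((expo s (S.erase (c, d))).card : ZMod 4) = ((expo s (S.erase (c', d'))).card : ZMod 4)) :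
    |gg (expo s (S.erase (c, d))) - gg (expo s (S.erase (c', d')))| ≤
      |((c : ℕ) : ℤ) - ((c' : ℕ) : ℤ)| := by
  have h4' := (ZMod.natCast_eq_natCast_iff' _ _ 4).1 h4
  rcases Cells1_cases s S c d with ⟨hc, h⟩ | ⟨hc, h⟩ | h <;>
    rcases Cells1_cases s S c' d' with ⟨hc', h'⟩ | ⟨hc', h'⟩ | h' <;>
    rw [h] at hodd h4' ⊢ <;> rw [h'] at h4' ⊢
  · exact gg_insert_dist _ hc hc'
  · exfalso
    rw [card_insert_of_notMem hc] at hodd h4'
    rw [card_erase_of_mem hc'] at h4'
    have := card_pos.2 ⟨_, hc'⟩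
    omega
  · exfalso
    rw [card_insert_of_notMem hc] at hodd h4'
    omega
  · exfalso
    rw [card_erase_of_mem hc] at hodd h4'
    rw [card_insert_of_notMem hc'] at h4'
    have := card_pos.2 ⟨_, hc⟩
    omega
  · exact gg_erase_dist _ hc hc'
  · exfalso
    rw [card_erase_of_mem hc] at hodd h4'
    have := card_pos.2 ⟨_, hc⟩
    omega
  · exfalso
    rw [card_insert_of_notMem hc'] at h4'
    omega
  · exfalso
    rw [card_erase_of_mem hc'] at h4'
    have := card_pos.2 ⟨_, hc'⟩
    omega
  · rw [sub_self, abs_zero]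
    exact abs_nonneg _

end Pool.Agent.H62.ZN
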