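import Mathlib
import Pool.Agent.H62.ZN.Cells1

/-!
# JOB ZN-2b (MP_07f90a_co): the colour classes on a set have at most three elements and weight zero

The file `Cells1` contains `expo_erase`, `TT_erase`, `KK_erase`, `WW_erase` and `gg_expo_dist`.

Setting: `s` satisfies `Loc s`, `R` is a finite set of records, `lam` is injective on `R` with
values less than `B`; `Q1 = 2 B`, `Q2 = (2 B + 1) N + 1`.  For a finite set `S` of points
`grp S u` is the set of the `p ∈ S` such that `E = S.erase p` is `OK` (all records of its contents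
are in `R` and the number of exposed cells is odd) and has the colour `u`.

CLAIM: `grp S u` has at most three elements and the sum of the weights `WW s (S.erase p)` over it
is `0`.

PROOF.  Let `p = (c, d) ∈ S`, `S_c = cont S c`.  In `S.erase p` the content of the cell `c` is
`S_c.erase d` and the other contents are unchanged (`cont_erase_same`, `cont_erase_ne`).

Case 1: some `p0 = (c0, d0)` in the group has `(s.dat (S_c0.erase d0)).2 ≠ (s.dat S_c0).2`.  Then
every `p = (c, d)` in the group has `c = c0` and `s.dat (S_c0.erase d) = s.dat (S_c0.erase d0)`: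
* Suppose `c ≠ c0`.  The cell `c0` is unchanged in `S.erase p`, so `(s.dat S_c0).2 ∈ R`, and in the
  same way `(s.dat S_c).2 ∈ R`.  Let `D0 = lam (record of S_c0.erase d0) - lam (record of S_c0)`,
  nonzero since `lam` is injective on `R`, and `D = lam (record of S_c.erase d) - lam (record of
  S_c)`.  `TT (S.erase p0) = TT S + D0`, `TT (S.erase p) = TT S + D`, and `|D0|, |D| < B`, so
  equality modulo `2 B` gives `D = D0`.  `KK (S.erase p0) = g0 + 2 (Σ c'' lam(..)) + 2 c0 D0` and
  `KK (S.erase p) = g + 2 (Σ ..) + 2 c D0` (the sums are those of `S`), where `g0 = gg (expo ..)`.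
  The numbers of exposed cells of `S.erase p0` and of `S.erase p` are both odd and equal modulo
  `4`; each of the two sets is `V`, `insert c V` or `V.erase c` with `V = expo s S` (and `c` or `c0`),
  so they are both `V`, or both an insertion, or both a removal, and `|g - g0| ≤ |c - c0|` by
  `gg_insert_dist`, `gg_erase_dist`.  Hence `KK (S.erase p) - KK (S.erase p0)` is nonzero
  (`|2 D0 (c - c0)| ≥ 2 |c - c0| > |g - g0|`) and its absolute value is at most
  `(N - 1) + 2 (B - 1) (N - 1) < Q2`: contradiction with equality modulo `Q2`.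
* Suppose `c = c0`.  Both new records are in `R`, and `TT` gives equality of their labels modulo
  `2 B`, hence equality of the labels and of the records.  The exposed sets differ at most at `c0`,
  so their cardinalities differ by at most one; equality modulo `4` gives equality of the types.
So the group is the image of `S_c0.filter (fun v => s.dat (S_c0.erase v) = u0)`, where
`u0 = s.dat (S_c0.erase d0)`, under `d ↦ (c0, d)` (conversely all these `d` give the same records,
the same exposed set, the same colour).  `Loc.grp` gives the claim: the weight is the product of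
the weights of the other cells (unchanged) and of the weight in the cell `c0`.

Case 2: all `p = (c, d)` in the group have `(s.dat (S_c.erase d)).2 = (s.dat S_c).2`.  Then by
`Loc.non` `(s.dat S_c).1 = true`, and by `Loc.ex` `d = m_c` is the distinguished element; the
exposed set of `S.erase p` is `V.erase c`, all records are those of `S`, the weight is that of `S`.
If the group is nonempty: all records of `S` are in `R`, `V.card` is even (as `V.card - 1` is odd),
and for every `c ∈ V` the set `S.erase (c, m_c)` is `OK` and has the colour `(TT S, gg (V.erase c)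
+ 2 Σ .., V.card - 1)`.  So the group is the image of `V.filter (fun c => (gg (V.erase c) : ZMod Q2) =
t)` for some `t` under the injective map `c ↦ (c, m_c)`: by `gg_pairs` it has `0` or `2` elements,
and the sum of the weights is `0` or `2 WW s S = 0`.
-/

set_option autoImplicit false

namespace Pool.Agent.H62.ZN

open Finset

variable {N : ℕ} {D F : Type} [Fintype D] [DecidableEq D] [Field F]

lemma cells_mem_grp {Q1 Q2 : ℕ} {R : Finset Rec} {lam : Rec → ℕ} {s : Str D F}
    {S : Finset (Fin N × D)} {u : ZMod Q1 × ZMod Q2 × ZMod 4} {p : Fin N × D} :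
    p ∈ grp Q1 Q2 R lam s S u ↔ p ∈ S ∧ OK R s (S.erase p) ∧ col Q1 Q2 lam s (S.erase p) = u := by
  simp [grp]

/-- Two integers of small absolute value which are equal modulo `Q` are equal. -/
lemma cells_eq_of_cast {Q : ℕ} {a b : ℤ} (h : (a : ZMod Q) = (b : ZMod Q)) (hlt : |a - b| < Q) :
    a = b := by
  have h1 : ((a - b : ℤ) : ZMod Q) = 0 := by
    push_cast
    rw [h, sub_self]
  have h2 : (Q : ℤ) ∣ a - b := (ZMod.intCast_zmod_eq_zero_iff_dvd _ _).1 h1
  have h3 := Int.eq_zero_of_abs_lt_dvd h2 hlt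
  linarith

lemma cells_rec_same {R : Finset Rec} {s : Str D F} {S : Finset (Fin N × D)} {c : Fin N} {d : D}
    (h : OK R s (S.erase (c, d))) : (s.dat ((cont S c).erase d)).2 ∈ R := by
  have := h.1 c
  rwa [cont_erase_same] at this

lemma cells_rec_ne {R : Finset Rec} {s : Str D F} {S : Finset (Fin N × D)} {c c' : Fin N} {d : D}
    (h : OK R s (S.erase (c, d))) (hne : c' ≠ c) : (s.dat (cont S c')).2 ∈ R := by
  have := h.1 c'
  rwa [cont_erase_ne S hne] at this

/-- The case of two removals in different cells. -/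
lemma cells_ne {B : ℕ} {R : Finset Rec} {lam : Rec → ℕ} {s : Str D F}
    (hinj : ∀ a ∈ R, ∀ b ∈ R, lam a = lam b → a = b) (hB : ∀ a ∈ R, lam a < B)
    (S : Finset (Fin N × D)) {c0 c : Fin N} {d0 d : D} (hc : c ≠ c0)
    (h0 : (s.dat ((cont S c0).erase d0)).2 ≠ (s.dat (cont S c0)).2)
    (ok0 : OK R s (S.erase (c0, d0))) (ok : OK R s (S.erase (c, d)))
    (hcol : col (2 * B) ((2 * B + 1) * N + 1) lam s (S.erase (c0, d0)) =
      col (2 * B) ((2 * B + 1) * N + 1) lam s (S.erase (c, d))) : False := by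
  have ha0 := cells_rec_same ok0
  have hb0 := cells_rec_ne ok (Ne.symm hc)
  have ha := cells_rec_same ok
  have hb := cells_rec_ne ok0 hc
  unfold col at hcol
  rw [Prod.mk.injEq, Prod.mk.injEq] at hcol
  obtain ⟨hT, hK, h4⟩ := hcol
  have hg := gg_expo_dist s S d0 d ok0.2 h4
  rw [TT_erase, TT_erase] at hT
  rw [KK_erase, KK_erase] at hK
  have hD0 : lam (s.dat ((cont S c0).erase d0)).2 ≠ lam (s.dat (cont S c0)).2 :=
    fun h => h0 (hinj _ ha0 _ hb0 h)
  have l1 := hB _ ha0
  have l2 := hB _ hb0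
  have l3 := hB _ ha
  have l4 := hB _ hb
  set A0 : ℤ := (lam (s.dat ((cont S c0).erase d0)).2 : ℤ) with hA0
  set B0 : ℤ := (lam (s.dat (cont S c0)).2 : ℤ) with hB0
  set A1 : ℤ := (lam (s.dat ((cont S c).erase d)).2 : ℤ) with hA1
  set B1 : ℤ := (lam (s.dat (cont S c)).2 : ℤ) with hB1
  set Sg : ℤ := ∑ c' : Fin N, ((c' : ℕ) : ℤ) * (lam (s.dat (cont S c')).2 : ℤ) with hSg
  set g0 : ℤ := gg (expo s (S.erase (c0, d0))) with hg0
  set g1 : ℤ := gg (expo s (S.erase (c, d))) with hg1
  have k1 : 0 ≤ A0 ∧ A0 < B := ⟨by positivity, Nat.cast_lt.2 l1⟩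
  have k2 : 0 ≤ B0 ∧ B0 < B := ⟨by positivity, Nat.cast_lt.2 l2⟩
  have k3 : 0 ≤ A1 ∧ A1 < B := ⟨by positivity, Nat.cast_lt.2 l3⟩
  have k4 : 0 ≤ B1 ∧ B1 < B := ⟨by positivity, Nat.cast_lt.2 l4⟩
  have hne : A0 - B0 ≠ 0 := by
    intro h
    apply hD0
    have : A0 = B0 := by linarith
    exact Nat.cast_injective (R := ℤ) this
  have hDD : A0 - B0 = A1 - B1 := by
    have := cells_eq_of_cast hT (by
      have : TT lam s S + (A0 - B0) - (TT lam s S + (A1 - B1)) = (A0 - B0) - (A1 - B1) := by ring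
      rw [this, abs_lt]
      push_cast
      constructor <;> linarith [k1.1, k1.2, k2.1, k2.2, k3.1, k3.2, k4.1, k4.2])
    linarith
  have hcN : |((c0 : ℕ) : ℤ) - ((c : ℕ) : ℤ)| ≤ N := by
    have e1 : ((c0 : ℕ) : ℤ) < N := by exact_mod_cast c0.2
    have e2 : ((c : ℕ) : ℤ) < N := by exact_mod_cast c.2
    have e3 : (0 : ℤ) ≤ ((c0 : ℕ) : ℤ) := by positivity
    have e4 : (0 : ℤ) ≤ ((c : ℕ) : ℤ) := by positivity
    rw [abs_le]
    constructor <;> linarith
  have hcne : 0 < |((c0 : ℕ) : ℤ) - ((c : ℕ) : ℤ)| := by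
    rw [abs_pos]
    intro h
    apply hc
    apply Fin.ext
    have : ((c0 : ℕ) : ℤ) = ((c : ℕ) : ℤ) := by linarith
    exact_mod_cast this.symm
  have hDabs : |A0 - B0| ≤ B := by
    rw [abs_le]
    constructor <;> linarith [k1.1, k1.2, k2.1, k2.2]
  have hD1 : 1 ≤ |A0 - B0| := Int.one_le_abs hne
  have hprod : |2 * (((c0 : ℕ) : ℤ) - ((c : ℕ) : ℤ)) * (A0 - B0)|
      = 2 * (|((c0 : ℕ) : ℤ) - ((c : ℕ) : ℤ)| * |A0 - B0|) := by
    rw [abs_mul, abs_mul]
    norm_num
    ring
  have hE : g0 + 2 * Sg + 2 * ((c0 : ℕ) : ℤ) * (A0 - B0) =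
      g1 + 2 * Sg + 2 * ((c : ℕ) : ℤ) * (A1 - B1) := by
    apply cells_eq_of_cast hK
    have e : g0 + 2 * Sg + 2 * ((c0 : ℕ) : ℤ) * (A0 - B0) -
        (g1 + 2 * Sg + 2 * ((c : ℕ) : ℤ) * (A1 - B1)) =
        (g0 - g1) + 2 * (((c0 : ℕ) : ℤ) - ((c : ℕ) : ℤ)) * (A0 - B0) := by
      rw [← hDD]; ring
    rw [e]
    calc |(g0 - g1) + 2 * (((c0 : ℕ) : ℤ) - ((c : ℕ) : ℤ)) * (A0 - B0)|
        ≤ |g0 - g1| + |2 * (((c0 : ℕ) : ℤ) - ((c : ℕ) : ℤ)) * (A0 - B0)| := abs_add_le _ _
      _ ≤ N + 2 * (N * B) := by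
          rw [hprod]
          have : |((c0 : ℕ) : ℤ) - ((c : ℕ) : ℤ)| * |A0 - B0| ≤ N * B :=
            mul_le_mul hcN hDabs (abs_nonneg _) (by positivity)
          linarith
      _ < (((2 * B + 1) * N + 1 : ℕ) : ℤ) := by
          push_cast
          nlinarith
  have hE2 : g0 - g1 = - (2 * (((c0 : ℕ) : ℤ) - ((c : ℕ) : ℤ)) * (A0 - B0)) := by
    rw [← hDD] at hE
    linarith
  have hE3 : |g0 - g1| = 2 * (|((c0 : ℕ) : ℤ) - ((c : ℕ) : ℤ)| * |A0 - B0|) := by
    rw [hE2, abs_neg, hprod]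
  have hE4 : |((c0 : ℕ) : ℤ) - ((c : ℕ) : ℤ)| ≤ |((c0 : ℕ) : ℤ) - ((c : ℕ) : ℤ)| * |A0 - B0| :=
    le_mul_of_one_le_right (abs_nonneg _) hD1
  linarith

/-- The case of two removals in the same cell. -/
lemma cells_same {B : ℕ} {R : Finset Rec} {lam : Rec → ℕ} {s : Str D F}
    (hinj : ∀ a ∈ R, ∀ b ∈ R, lam a = lam b → a = b) (hB : ∀ a ∈ R, lam a < B)
    (S : Finset (Fin N × D)) {c0 : Fin N} {d0 d : D}
    (ok0 : OK R s (S.erase (c0, d0))) (ok : OK R s (S.erase (c0, d)))
    (hcol : col (2 * B) ((2 * B + 1) * N + 1) lam s (S.erase (c0, d0)) =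
      col (2 * B) ((2 * B + 1) * N + 1) lam s (S.erase (c0, d))) :
    s.dat ((cont S c0).erase d) = s.dat ((cont S c0).erase d0) := by
  have ha0 := cells_rec_same ok0
  have ha := cells_rec_same ok
  unfold col at hcol
  rw [Prod.mk.injEq, Prod.mk.injEq] at hcol
  obtain ⟨hT, -, h4⟩ := hcol
  rw [TT_erase, TT_erase] at hT
  have l1 := hB _ ha0
  have l3 := hB _ ha
  have hrec : (s.dat ((cont S c0).erase d)).2 = (s.dat ((cont S c0).erase d0)).2 := by
    apply hinj _ ha _ ha0
    have := cells_eq_of_cast hT (by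
      have e : TT lam s S + ((lam (s.dat ((cont S c0).erase d0)).2 : ℤ) -
          (lam (s.dat (cont S c0)).2 : ℤ)) - (TT lam s S +
          ((lam (s.dat ((cont S c0).erase d)).2 : ℤ) - (lam (s.dat (cont S c0)).2 : ℤ)))
          = (lam (s.dat ((cont S c0).erase d0)).2 : ℤ) - (lam (s.dat ((cont S c0).erase d)).2 : ℤ) := by
        ring
      rw [e, abs_lt]
      push_cast
      have m1 : (lam (s.dat ((cont S c0).erase d0)).2 : ℤ) < B := by exact_mod_cast l1
      have m3 : (lam (s.dat ((cont S c0).erase d)).2 : ℤ) < B := by exact_mod_cast l3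
      have m5 : (0 : ℤ) ≤ (lam (s.dat ((cont S c0).erase d0)).2 : ℤ) := by positivity
      have m6 : (0 : ℤ) ≤ (lam (s.dat ((cont S c0).erase d)).2 : ℤ) := by positivity
      constructor <;> linarith)
    have e2 : (lam (s.dat ((cont S c0).erase d)).2 : ℤ) =
        (lam (s.dat ((cont S c0).erase d0)).2 : ℤ) := by linarith
    exact_mod_cast e2
  have hcard : (insert c0 (expo s S)).card = ((expo s S).erase c0).card + 1 := by
    by_cases hmem : c0 ∈ expo s S
    · rw [insert_eq_of_mem hmem, card_erase_add_one hmem]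
    · rw [card_insert_of_notMem hmem, erase_eq_of_notMem hmem]
  have hone : ∀ n : ℕ, ((n + 1 : ℕ) : ZMod 4) ≠ (n : ZMod 4) := by
    intro n h
    have h1 : (1 : ZMod 4) = 0 := by
      have : ((n : ZMod 4) + 1) = (n : ZMod 4) + 0 := by rw [add_zero]; exact_mod_cast h
      exact add_left_cancel this
    exact absurd h1 (by decide)
  rw [expo_erase, expo_erase] at h4
  refine Prod.ext ?_ hrec
  by_cases t0 : (s.dat ((cont S c0).erase d0)).1 = true
  · by_cases t1 : (s.dat ((cont S c0).erase d)).1 = true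
    · rw [t0, t1]
    · rw [if_pos t0, if_neg t1, hcard] at h4
      exact absurd h4 (hone _)
  · by_cases t1 : (s.dat ((cont S c0).erase d)).1 = true
    · rw [if_neg t0, if_pos t1, hcard] at h4
      exact absurd h4.symm (hone _)
    · rw [Bool.not_eq_true] at t0 t1
      rw [t0, t1]

/-- Case 1. -/
lemma cells_case1 {B : ℕ} {R : Finset Rec} {lam : Rec → ℕ} {s : Str D F} (hs : Loc s)
    (hinj : ∀ a ∈ R, ∀ b ∈ R, lam a = lam b → a = b) (hB : ∀ a ∈ R, lam a < B)
    (S : Finset (Fin N × D)) (u : ZMod (2 * B) × ZMod ((2 * B + 1) * N + 1) × ZMod 4)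
    {c0 : Fin N} {d0 : D} (hp0 : (c0, d0) ∈ grp (2 * B) ((2 * B + 1) * N + 1) R lam s S u)
    (h0 : (s.dat ((cont S c0).erase d0)).2 ≠ (s.dat (cont S c0)).2) :
    (grp (2 * B) ((2 * B + 1) * N + 1) R lam s S u).card ≤ 3 ∧
      ∑ p ∈ grp (2 * B) ((2 * B + 1) * N + 1) R lam s S u, WW s (S.erase p) = 0 := by
  obtain ⟨hS0, ok0, col0⟩ := cells_mem_grp.1 hp0
  have hG : grp (2 * B) ((2 * B + 1) * N + 1) R lam s S u =
      ((cont S c0).filter (fun v => s.dat ((cont S c0).erase v) =
        s.dat ((cont S c0).erase d0))).image (fun v => (c0, v)) := by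
    ext ⟨c, d⟩
    rw [cells_mem_grp, mem_image]
    constructor
    · rintro ⟨hS, ok, hcol⟩
      have hc : c = c0 := by
        by_contra hne
        exact cells_ne hinj hB S hne h0 ok0 ok (col0.trans hcol.symm)
      subst hc
      exact ⟨d, by
        rw [mem_filter, mem_cont]
        exact ⟨hS, cells_same hinj hB S ok0 ok (col0.trans hcol.symm)⟩, rfl⟩
    · rintro ⟨v, hv, hvd⟩
      rw [mem_filter, mem_cont] at hv
      rw [Prod.mk.injEq] at hvd
      obtain ⟨rfl, rfl⟩ := hvd
      obtain ⟨hvS, hvd⟩ := hv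
      have hexpo : expo s (S.erase (c0, v)) = expo s (S.erase (c0, d0)) := by
        rw [expo_erase, expo_erase, hvd]
      refine ⟨hvS, ⟨?_, ?_⟩, ?_⟩
      · intro c'
        by_cases hc' : c' = c0
        · subst hc'
          rw [cont_erase_same, hvd]
          exact cells_rec_same ok0
        · rw [cont_erase_ne S hc']
          exact cells_rec_ne ok0 hc'
      · rw [hexpo]
        exact ok0.2
      · rw [← col0]
        unfold col
        rw [TT_erase, TT_erase, KK_erase, KK_erase, hexpo, hvd]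
  obtain ⟨g1, g2⟩ := hs.grp (cont S c0) (s.dat ((cont S c0).erase d0)) h0
  have hinjm : Function.Injective (fun v : D => (c0, v)) := fun a b h => by
    simpa using h
  rw [hG, card_image_of_injective _ hinjm, sum_image (fun a _ b _ h => hinjm h)]
  refine ⟨g1, ?_⟩
  simp only [WW_erase]
  rw [← sum_mul, g2, zero_mul]

/-- Case 2. -/
lemma cells_case2 [CharP F 2] {Q1 Q2 : ℕ} (hQ : N ≤ Q2) {R : Finset Rec} {lam : Rec → ℕ}
    {s : Str D F} (hs : Loc s) (S : Finset (Fin N × D)) (u : ZMod Q1 × ZMod Q2 × ZMod 4)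
    (h : ∀ p ∈ grp Q1 Q2 R lam s S u, (s.dat ((cont S p.1).erase p.2)).2 = (s.dat (cont S p.1)).2) :
    (grp Q1 Q2 R lam s S u).card ≤ 3 ∧
      ∑ p ∈ grp Q1 Q2 R lam s S u, WW s (S.erase p) = 0 := by
  rcases (grp Q1 Q2 R lam s S u).eq_empty_or_nonempty with hE | ⟨⟨c1, d1⟩, hp1⟩
  · rw [hE]
    simp
  have : Nonempty D := ⟨d1⟩
  set V := expo s S with hV
  have hmem : ∀ c : Fin N, c ∈ V ↔ (s.dat (cont S c)).1 = true := by
    intro c
    simp [hV, expo]
  have hex : ∀ c : Fin N, c ∈ V → ∃ m ∈ cont S c,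
      s.dat ((cont S c).erase m) = (false, (s.dat (cont S c)).2) ∧
      s.w ((cont S c).erase m) = s.w (cont S c) ∧
      ∀ v ∈ cont S c, (s.dat ((cont S c).erase v)).2 = (s.dat (cont S c)).2 → v = m :=
    fun c hc => hs.ex _ ((hmem c).1 hc)
  choose! m hm1 hm2 hm3 hm4 using hex
  -- elements of the group
  have hel : ∀ c d, (c, d) ∈ grp Q1 Q2 R lam s S u → c ∈ V ∧ d = m c := by
    intro c d hcd
    have hd : d ∈ cont S c := mem_cont.2 (cells_mem_grp.1 hcd).1
    have hr := h _ hcd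
    have hc : c ∈ V := by
      rw [hmem]
      by_contra hf
      rw [Bool.not_eq_true] at hf
      exact hs.non _ hf d hd hr
    exact ⟨hc, hm4 c hc d hd hr⟩
  have hexpo : ∀ c ∈ V, expo s (S.erase (c, m c)) = V.erase c := by
    intro c hc
    rw [expo_erase, hm2 c hc]
    simp [hV]
  obtain ⟨hS1, ok1, col1⟩ := cells_mem_grp.1 hp1
  obtain ⟨hc1, rfl⟩ := hel c1 d1 hp1
  have hrec : ∀ c : Fin N, (s.dat (cont S c)).2 ∈ R := by
    intro c
    by_cases hc : c = c1
    · subst hc
      have := cells_rec_same ok1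
      rwa [hm2 c hc1] at this
    · exact cells_rec_ne ok1 hc
  have hVpos : 0 < V.card := card_pos.2 ⟨c1, hc1⟩
  have hVodd : (V.card - 1) % 2 = 1 := by
    have := ok1.2
    rwa [hexpo c1 hc1, card_erase_of_mem hc1] at this
  have hVeven : V.card % 2 = 0 := by omega
  set Sg : ℤ := ∑ c' : Fin N, ((c' : ℕ) : ℤ) * (lam (s.dat (cont S c')).2 : ℤ) with hSg
  have hcolc : ∀ c ∈ V, col Q1 Q2 lam s (S.erase (c, m c)) =
      ((TT lam s S : ZMod Q1), ((gg (V.erase c) + 2 * Sg : ℤ) : ZMod Q2),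
        ((V.card - 1 : ℕ) : ZMod 4)) := by
    intro c hc
    unfold col
    rw [TT_erase, KK_erase, hexpo c hc, hm2 c hc, card_erase_of_mem hc]
    simp [hSg]
  have hG : grp Q1 Q2 R lam s S u =
      (V.filter (fun c => ((gg (V.erase c) : ℤ) : ZMod Q2) = u.2.1 - ((2 * Sg : ℤ) : ZMod Q2))).image
        (fun c => (c, m c)) := by
    ext ⟨c, d⟩
    rw [mem_image]
    constructor
    · intro hcd
      obtain ⟨hc, rfl⟩ := hel c d hcd
      refine ⟨c, ?_, rfl⟩
      rw [mem_filter]
      refine ⟨hc, ?_⟩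
      have := (cells_mem_grp.1 hcd).2.2
      rw [hcolc c hc] at this
      rw [← this]
      push_cast
      ring
    · rintro ⟨c', hc', hcd⟩
      rw [Prod.mk.injEq] at hcd
      obtain ⟨rfl, rfl⟩ := hcd
      rw [mem_filter] at hc'
      obtain ⟨hc, ht⟩ := hc'
      rw [cells_mem_grp]
      refine ⟨mem_cont.1 (hm1 c' hc), ⟨?_, ?_⟩, ?_⟩
      · intro c''
        by_cases hcc : c'' = c'
        · subst hcc
          rw [cont_erase_same, hm2 c'' hc]
          exact hrec c''
        · rw [cont_erase_ne S hcc]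
          exact hrec c''
      · rw [hexpo c' hc, card_erase_of_mem hc]
        exact hVodd
      · rw [hcolc c' hc, ← col1, hcolc c1 hc1]
        rw [Prod.mk.injEq, Prod.mk.injEq]
        refine ⟨rfl, ?_, rfl⟩
        have e1 : u.2.1 = ((gg (V.erase c1) + 2 * Sg : ℤ) : ZMod Q2) := by
          rw [← col1, hcolc c1 hc1]
        rw [← e1]
        push_cast at ht ⊢
        rw [ht]
        ring
  have hinjm : Function.Injective (fun c : Fin N => (c, m c)) := fun a b hab => by
    rw [Prod.mk.injEq] at hab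
    exact hab.1
  have hW : ∀ c ∈ V, WW s (S.erase (c, m c)) = WW s S := by
    intro c hc
    rw [WW_erase, hm3 c hc]
    unfold WW
    exact mul_prod_erase _ (fun c' => s.w (cont S c')) (mem_univ c)
  rw [hG, card_image_of_injective _ hinjm, sum_image (fun a _ b _ hab => hinjm hab)]
  have hsum : ∑ c ∈ V.filter (fun c => ((gg (V.erase c) : ℤ) : ZMod Q2) =
      u.2.1 - ((2 * Sg : ℤ) : ZMod Q2)), WW s (S.erase (c, m c)) =
      ((V.filter (fun c => ((gg (V.erase c) : ℤ) : ZMod Q2) =
      u.2.1 - ((2 * Sg : ℤ) : ZMod Q2))).card : F) * WW s S := by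
    rw [sum_congr rfl (fun c hc => hW c (mem_filter.1 hc).1), sum_const, nsmul_eq_mul]
  rw [hsum]
  have h2 : ((2 : ℕ) : F) = 0 := CharP.cast_eq_zero F 2
  rcases gg_pairs hQ V hVeven (u.2.1 - ((2 * Sg : ℤ) : ZMod Q2)) with h0 | h0
  · rw [h0]
    simp
  · rw [h0, h2]
    simp

theorem grp_main {N B : ℕ} {D F : Type} [Fintype D] [DecidableEq D] [Field F] [CharP F 2]
    {R : Finset Rec} {lam : Rec → ℕ} {s : Str D F} (hs : Loc s)
    (hinj : ∀ a ∈ R, ∀ b ∈ R, lam a = lam b → a = b) (hB : ∀ a ∈ R, lam a < B)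
    (S : Finset (Fin N × D)) (u : ZMod (2 * B) × ZMod ((2 * B + 1) * N + 1) × ZMod 4) :
    (grp (2 * B) ((2 * B + 1) * N + 1) R lam s S u).card ≤ 3 ∧
      ∑ p ∈ grp (2 * B) ((2 * B + 1) * N + 1) R lam s S u, WW s (S.erase p) = 0 := by
  by_cases h : ∃ p ∈ grp (2 * B) ((2 * B + 1) * N + 1) R lam s S u,
      (s.dat ((cont S p.1).erase p.2)).2 ≠ (s.dat (cont S p.1)).2
  · obtain ⟨⟨c0, d0⟩, hp0, h0⟩ := h
    exact cells_case1 hs hinj hB S u hp0 h0
  · push Not at h
    exact cells_case2 (by nlinarith) hs S u h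

end Pool.Agent.H62.ZN
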