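import Mathlib
import Pool.Agent.H62.ZN.Cells
import Pool.Agent.H56.ZK.Rule

/-!
# JOB ZN-4a (MP_07f90a_co): the family of edges

`Edge E`: `E` is `OK`, has the colour `u`, and `θ (g * WW s E) = 1`.

* `edge_adm`: the number of the `p ∈ S` with `Edge (S.erase p)` is `0` or `2`.  It is the number of the
  `p` in the group `grp .. S u` with `θ (g * WW s (S.erase p)) = 1`.  The group has at most three
  elements, and the sum over it of `θ (g * WW ..)` is `θ (g * 0) = 0` in `ZMod 2`, so the number
  is even and at most three (`grp_main`).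
* `comap`: the pull back of a rule under a map `l : V → W`.
-/

set_option autoImplicit false

namespace Pool.Agent.H62.ZN

open Finset Pool.Agent.H63ZT Pool.Agent.H56.ZK

variable {N : ℕ} {D F : Type} [Fintype D] [DecidableEq D] [Field F]

/-- The edges. -/
def Edge (Q1 Q2 : ℕ) (R : Finset Rec) (lam : Rec → ℕ) (s : Str D F) (θ : F →+ ZMod 2)
    (u : ZMod Q1 × ZMod Q2 × ZMod 4) (g : F) (E : Finset (Fin N × D)) : Prop :=
  OK R s E ∧ col Q1 Q2 lam s E = u ∧ θ (g * WW s E) = 1

instance (Q1 Q2 : ℕ) (R : Finset Rec) (lam : Rec → ℕ) (s : Str D F) (θ : F →+ ZMod 2)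
    (u : ZMod Q1 × ZMod Q2 × ZMod 4) (g : F) (E : Finset (Fin N × D)) :
    Decidable (Edge Q1 Q2 R lam s θ u g E) := by
  unfold Edge; infer_instance

theorem edge_adm [CharP F 2] {B : ℕ} {R : Finset Rec} {lam : Rec → ℕ} {s : Str D F} (hs : Loc s)
    (hinj : ∀ a ∈ R, ∀ b ∈ R, lam a = lam b → a = b) (hB : ∀ a ∈ R, lam a < B)
    (θ : F →+ ZMod 2) (u : ZMod (2 * B) × ZMod ((2 * B + 1) * N + 1) × ZMod 4) (g : F)
    (S : Finset (Fin N × D)) :
    (S.filter (fun p => Edge _ _ R lam s θ u g (S.erase p))).card = 0 ∨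
      (S.filter (fun p => Edge _ _ R lam s θ u g (S.erase p))).card = 2 := by
  obtain ⟨h1, h2⟩ := grp_main hs hinj hB S u
  set T := grp (2 * B) ((2 * B + 1) * N + 1) R lam s S u with hT
  have e : S.filter (fun p => Edge _ _ R lam s θ u g (S.erase p)) =
      T.filter (fun p => θ (g * WW s (S.erase p)) = 1) := by
    rw [hT]
    unfold grp Edge
    rw [filter_filter]
    apply filter_congr
    intro p _
    tauto
  rw [e]
  have h3 : ∑ p ∈ T, θ (g * WW s (S.erase p)) = 0 := by
    rw [← map_sum, ← mul_sum, h2, mul_zero, map_zero]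
  have h4 : ∑ p ∈ T, θ (g * WW s (S.erase p)) =
      ((T.filter (fun p => θ (g * WW s (S.erase p)) = 1)).card : ZMod 2) := by
    rw [card_filter, Nat.cast_sum]
    apply sum_congr rfl
    intro p _
    generalize θ (g * WW s (S.erase p)) = y
    revert y
    decide
  rw [h4] at h3
  have h5 : (T.filter (fun p => θ (g * WW s (S.erase p)) = 1)).card ≤ 3 :=
    (card_le_card (filter_subset _ _)).trans h1
  have h6 := (ZMod.natCast_eq_zero_iff _ _).1 h3
  omega

/-- The pull back of a rule. -/
def comap {V W : Type} {k : ℕ} (l : V → W) (r : Rule W k) : Rule V k where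
  P x := r.P (fun j => l (x j))
  loc x y h := r.loc _ _ (fun j hj => by rw [h j hj])
  adm x := by
    have e : ∀ i, (fun j => l (face i x j)) = face i (fun j => l (x j)) := by
      intro i
      funext j
      unfold face
      split_ifs <;> rfl
    simp only [e]
    exact r.adm _

end Pool.Agent.H62.ZN
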