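import Mathlib

/-!
# JOB ZN-3 (MP_07f90a_co): a finite field of characteristic two and half of its elements

* `exists_field`: for every `n` there is a finite field of characteristic two with at least `n`
  elements: `GaloisField 2 m` with `m ≥ 1`, `2 ^ m ≥ n`.
* `exists_theta`: a nonzero additive map `F → ZMod 2`: `F` is a vector space over `ZMod 2`
  (`ZMod.algebra`), so there is a linear functional with nonzero value at `1`
  (`Module.forall_dual_apply_eq_zero_iff` or a basis).
* `half_theta`: for `w ≠ 0` at least half of the `g : F` satisfy `θ (g * w) = 1`: choose `v` with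
  `θ v = 1`; the injective map `g ↦ g + v / w` sends the `g` with `θ (g * w) = 0` to elements with
  `θ (g * w) = 1`.
-/

set_option autoImplicit false

namespace Pool.Agent.H62.ZN

open Finset

theorem exists_field (n : ℕ) : ∃ (F : Type) (_ : Field F) (_ : Fintype F) (_ : CharP F 2),
    n ≤ Fintype.card F := by
  obtain ⟨m, hm⟩ : ∃ m : ℕ, n ≤ 2 ^ m := ⟨n, Nat.lt_two_pow_self.le⟩
  haveI : Finite (GaloisField 2 (m + 1)) := by
    have h := GaloisField.card 2 (m + 1) (Nat.succ_ne_zero m)
    exact Nat.finite_of_card_ne_zero (by rw [h]; positivity)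
  haveI : Fintype (GaloisField 2 (m + 1)) := Fintype.ofFinite _
  refine ⟨GaloisField 2 (m + 1), inferInstance, inferInstance, inferInstance, ?_⟩
  rw [← Nat.card_eq_fintype_card, GaloisField.card 2 (m + 1) (Nat.succ_ne_zero m)]
  exact hm.trans (Nat.pow_le_pow_right (by norm_num) (Nat.le_succ m))

theorem exists_theta (F : Type) [Field F] [Fintype F] [CharP F 2] :
    ∃ θ : F →+ ZMod 2, ∃ v : F, θ v = 1 := by
  letI : Algebra (ZMod 2) F := ZMod.algebra F 2
  by_contra hc
  push Not at hc
  have h1 : ∀ φ : Module.Dual (ZMod 2) F, φ 1 = 0 := by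
    intro φ
    have h2 := hc φ.toAddMonoidHom 1
    have h3 : φ 1 ≠ 1 := h2
    have h4 : ∀ z : ZMod 2, z ≠ 1 → z = 0 := by decide
    exact h4 _ h3
  have h5 := (Module.forall_dual_apply_eq_zero_iff (ZMod 2) (1 : F)).mp h1
  exact one_ne_zero h5

theorem half_theta {F : Type} [Field F] [Fintype F] [DecidableEq F] {θ : F →+ ZMod 2} {v : F}
    (hv : θ v = 1) {w : F} (hw : w ≠ 0) :
    Fintype.card F ≤ 2 * (univ.filter (fun g : F => θ (g * w) = 1)).card := by
  have h1 : (univ.filter (fun g : F => ¬ θ (g * w) = 1)).card ≤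
      (univ.filter (fun g : F => θ (g * w) = 1)).card := by
    apply Finset.card_le_card_of_injOn (fun g => g + v / w)
    · intro g hg
      have hg1 : ¬ θ (g * w) = 1 := by simpa using hg
      have h4 : ∀ z : ZMod 2, ¬ z = 1 → z + 1 = 1 := by decide
      have h5 : θ ((g + v / w) * w) = 1 := by
        rw [add_mul, div_mul_cancel₀ v hw, map_add, hv]
        exact h4 _ hg1
      simpa using h5
    · intro a _ b _ hab
      exact add_right_cancel hab
  have h2 := Finset.card_filter_add_card_filter_not (s := (univ : Finset F))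
    (fun g : F => θ (g * w) = 1)
  rw [Finset.card_univ] at h2
  omega

end Pool.Agent.H62.ZN
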