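import Mathlib
import Pool.Agent.H62.ZN.Edge
import Pool.Agent.H62.ZN.Field

/-!
# JOB ZN-4b (MP_07f90a_co): the density of the family of edges

* `dense_of_count`: let `a` be the number of the sequences `y : Fin k → Fin N × D` which are
  injective, have all contents `≤ J` elements (all records in `R`) and an odd number of exposed
  cells (`Nice`); if `(N * card D) ^ k ≤ q * a` then `Dense n k 1 (q * (2 * (2 * B * (((2 * B + 1)
  * N + 1) * 4))))`.
  Proof: let `M = N * card D` and `e : ZMod M ≃ Fin N × D`.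
  `Ω = (Fin n → ZMod M) × (ZMod Q1 × ZMod Q2 × ZMod 4) × F`, rule of `(l, u, g)`: the pull back of
  `ofFam (Edge u g)` (file `Pool/Agent/H56/ZK/Rule.lean`) under `e ∘ l`.  For an increasing sequence `x`
  and `l` such that `y = (i ↦ e (l (x i)))` is nice, the sequence is an edge for the colour
  `u = col (image of y)` and for at least half of the `g` (`half_theta`).  So the number of the `ω`
  for which `x` is an edge is at least `card F / 2` times the number of the `l` for which `y` is nice,
  and by `Pool.Agent.H63ZT.card_preimage` (file `Pool/Agent/H63/ZT/Base.lean`, with the surjective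
  restriction homomorphism `(Fin n → ZMod M) → (Fin k → ZMod M)`, `l ↦ l ∘ x`; `x` is injective
  on `Fin k`) this number times `M ^ k` is `a * M ^ n`.
  See `dense_odd` in `Pool/Agent/H56/ZK/Rule.lean` for a similar proof.
-/

set_option autoImplicit false

namespace Pool.Agent.H62.ZN

open Finset Pool.Agent.H63ZT Pool.Agent.H56.ZK

variable {N : ℕ} {D F : Type} [Fintype D] [DecidableEq D] [Field F]

/-- The nice sequences. -/
def Nice (R : Finset Rec) (s : Str D F) {k : ℕ} (y : Fin k → Fin N × D) : Prop :=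
  Function.Injective y ∧ OK R s (univ.image y)

open Classical in
theorem EdgeDense_adm [CharP F 2] {B : ℕ} {R : Finset Rec} {lam : Rec → ℕ}
    {s : Str D F} (hs : Loc s)
    (hinj : ∀ a ∈ R, ∀ b ∈ R, lam a = lam b → a = b) (hB : ∀ a ∈ R, lam a < B)
    (θ : F →+ ZMod 2) (u : ZMod (2 * B) × ZMod ((2 * B + 1) * N + 1) × ZMod 4) (g : F)
    (S : Finset (Fin N × D)) :
    (@Finset.filter _ (fun v => Edge (2 * B) ((2 * B + 1) * N + 1) R lam s θ u g (S.erase v))
      (fun _ => Classical.propDecidable _) S).card = 0 ∨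
    (@Finset.filter _ (fun v => Edge (2 * B) ((2 * B + 1) * N + 1) R lam s θ u g (S.erase v))
      (fun _ => Classical.propDecidable _) S).card = 2 := by
  have h := edge_adm hs hinj hB θ u g S
  have e1 : (S.filter (fun v => Edge (2 * B) ((2 * B + 1) * N + 1) R lam s θ
      u g (S.erase v))) = (@Finset.filter _ (fun v => Edge (2 * B)
        ((2 * B + 1) * N + 1) R lam s θ u g (S.erase v))
        (fun _ => Classical.propDecidable _) S) := by
    ext v
    simp only [mem_filter]
  rw [e1] at h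
  exact h

/-- the rule of the parameters `(l, u, g)` -/
noncomputable def EdgeDense_rule [CharP F 2] {n k B M : ℕ} {R : Finset Rec} {lam : Rec → ℕ}
    {s : Str D F} (hs : Loc s)
    (hinj : ∀ a ∈ R, ∀ b ∈ R, lam a = lam b → a = b) (hB : ∀ a ∈ R, lam a < B)
    (θ : F →+ ZMod 2) (e : ZMod M ≃ Fin N × D)
    (ω : (Fin n → ZMod M) × (ZMod (2 * B) × ZMod ((2 * B + 1) * N + 1) × ZMod 4) × F) :
    Rule (Fin n) k :=
  comap (fun a => e (ω.1 a)) (ofFam (fun E => Edge (2 * B) ((2 * B + 1) * N + 1) R lam s θ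
    ω.2.1 ω.2.2 E) (fun S _ => EdgeDense_adm hs hinj hB θ ω.2.1 ω.2.2 S))

theorem EdgeDense_rule_P [CharP F 2] {n k B M : ℕ} {R : Finset Rec} {lam : Rec → ℕ}
    {s : Str D F} (hs : Loc s)
    (hinj : ∀ a ∈ R, ∀ b ∈ R, lam a = lam b → a = b) (hB : ∀ a ∈ R, lam a < B)
    (θ : F →+ ZMod 2) (e : ZMod M ≃ Fin N × D)
    (ω : (Fin n → ZMod M) × (ZMod (2 * B) × ZMod ((2 * B + 1) * N + 1) × ZMod 4) × F)
    (x : ℕ → Fin n) :
    (EdgeDense_rule (k := k) hs hinj hB θ e ω).P x = true ↔
      ((range k).image (fun j => e (ω.1 (x j)))).card = k ∧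
        Edge (2 * B) ((2 * B + 1) * N + 1) R lam s θ ω.2.1 ω.2.2
          ((range k).image (fun j => e (ω.1 (x j)))) := by
  exact ofFam_P (P := fun E => Edge (2 * B) ((2 * B + 1) * N + 1) R lam s θ
    ω.2.1 ω.2.2 E) (hP := fun S _ => EdgeDense_adm hs hinj hB θ ω.2.1 ω.2.2 S)
    (x := fun j => e (ω.1 (x j)))

theorem EdgeDense_image {k : ℕ} {W : Type} [DecidableEq W] (f : ℕ → W) :
    (range k).image f = (univ : Finset (Fin k)).image (fun i : Fin k => f (i : ℕ)) := by
  ext w
  simp only [mem_image, mem_range, mem_univ, true_and]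
  constructor
  · rintro ⟨j, hj, rfl⟩
    exact ⟨⟨j, hj⟩, rfl⟩
  · rintro ⟨i, rfl⟩
    exact ⟨i, i.2, rfl⟩

open Classical in
theorem dense_of_count [CharP F 2] [Fintype F] {n k B q : ℕ} {R : Finset Rec} {lam : Rec → ℕ}
    {s : Str D F} (hs : Loc s) (hN : 0 < N) (hD : 0 < Fintype.card D) (hB0 : 0 < B)
    (hinj : ∀ a ∈ R, ∀ b ∈ R, lam a = lam b → a = b) (hB : ∀ a ∈ R, lam a < B)
    (hq : (N * Fintype.card D) ^ k ≤
      q * (univ.filter (fun y : Fin k → Fin N × D => Nice R s y)).card) :
    Dense n k 1 (q * (2 * (2 * B * (((2 * B + 1) * N + 1) * 4)))) := by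
  set M : ℕ := N * Fintype.card D with hM
  have hM0 : 0 < M := Nat.mul_pos hN hD
  have : NeZero M := ⟨hM0.ne'⟩
  have : NeZero (2 * B) := ⟨by omega⟩
  have : NeZero ((2 * B + 1) * N + 1) := ⟨by omega⟩
  have hcard : Fintype.card (ZMod M) = Fintype.card (Fin N × D) := by
    rw [ZMod.card, Fintype.card_prod, Fintype.card_fin]
  let e : ZMod M ≃ Fin N × D := Fintype.equivOfCardEq hcard
  obtain ⟨θ, v, hv⟩ := exists_theta F
  let Ω : Type := (Fin n → ZMod M) × (ZMod (2 * B) × ZMod ((2 * B + 1) * N + 1) × ZMod 4) × F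
  have hne : Nonempty Ω := ⟨(fun _ => 0, (0, 0, 0), 0)⟩
  refine ⟨Ω, inferInstance, hne, fun ω => EdgeDense_rule hs hinj hB θ e ω, fun x hx => ?_⟩
  -- the restriction map
  let φ : (Fin n → ZMod M) →+ (Fin k → ZMod M) :=
    { toFun := fun l i => l (x i)
      map_zero' := rfl
      map_add' := fun _ _ => rfl }
  have hxinj : ∀ i j : Fin k, x i = x j → i = j := by
    intro i j h
    rcases lt_trichotomy (i : ℕ) j with h1 | h1 | h1
    · exact absurd h (hx i j h1 j.2).ne
    · exact Fin.ext h1
    · exact absurd h.symm (hx j i h1 i.2).ne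
  have hφ : Function.Surjective φ := by
    intro κ
    refine ⟨fun a => if h : ∃ i : Fin k, x i = a then κ h.choose else 0, ?_⟩
    funext i
    show (if h : ∃ i' : Fin k, x i' = x i then κ h.choose else 0) = κ i
    have h : ∃ i' : Fin k, x i' = x i := ⟨i, rfl⟩
    rw [dif_pos h]
    exact congrArg κ (hxinj _ _ h.choose_spec)
  let T : (Fin k → ZMod M) → Bool := fun κ => decide (Nice R s (fun i => e (κ i)))
  have h1 := card_preimage φ hφ T
  set G := univ.filter (fun g : Fin n → ZMod M => T (φ g) = true) with hG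
  have h2 : (univ.filter (fun κ : Fin k → ZMod M => T κ = true)).card =
      (univ.filter (fun y : Fin k → Fin N × D => Nice R s y)).card := by
    refine Finset.card_equiv (Equiv.arrowCongr (Equiv.refl (Fin k)) e) fun κ => ?_
    simp only [mem_filter, mem_univ, true_and, T, decide_eq_true_iff]
    exact Iff.rfl
  rw [h2] at h1
  set a := (univ.filter (fun y : Fin k → Fin N × D => Nice R s y)).card with ha
  have hk1 : Fintype.card (Fin k → ZMod M) = M ^ k := by
    rw [Fintype.card_fun, ZMod.card, Fintype.card_fin]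
  have hn1 : Fintype.card (Fin n → ZMod M) = M ^ n := by
    rw [Fintype.card_fun, ZMod.card, Fintype.card_fin]
  rw [hk1, hn1] at h1
  have h3 : M ^ n ≤ q * G.card := by
    have hpos : 0 < M ^ k := by positivity
    refine Nat.le_of_mul_le_mul_right ?_ hpos
    calc M ^ n * M ^ k ≤ M ^ n * (q * a) := Nat.mul_le_mul_left _ hq
      _ = q * (a * M ^ n) := by ring
      _ = q * (G.card * M ^ k) := by rw [h1]
      _ = q * G.card * M ^ k := by ring
  -- the sets of the edges
  let EE : (Fin n → ZMod M) → Finset (Fin N × D) := fun l => (range k).image (fun j => e (l (x j)))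
  let C : (Fin n → ZMod M) → Finset F := fun l =>
    univ.filter (fun g : F => θ (g * WW s (EE l)) = 1)
  set P := (univ.filter fun ω : Ω =>
    (EdgeDense_rule (k := k) hs hinj hB θ e ω).P x = true) with hP
  have h4 : ∑ l ∈ G, (C l).card ≤ P.card := by
    rw [← card_sigma]
    apply card_le_card_of_injOn (fun p : (_ : Fin n → ZMod M) × F =>
      ((p.1, col (2 * B) ((2 * B + 1) * N + 1) lam s (EE p.1), p.2) : Ω))
    · rintro ⟨l, g⟩ hp
      rw [mem_coe, mem_sigma] at hp
      obtain ⟨hl, hg⟩ := hp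
      have hl' : Nice R s (fun i : Fin k => e (l (x i))) := by
        have := (mem_filter.1 hl).2
        simp only [T, decide_eq_true_iff] at this
        exact this
      have hg' : θ (g * WW s (EE l)) = 1 := (mem_filter.1 hg).2
      have hE : EE l = (univ : Finset (Fin k)).image (fun i : Fin k => e (l (x i))) :=
        EdgeDense_image (fun j => e (l (x j)))
      refine mem_coe.2 (mem_filter.2 ⟨mem_univ _, ?_⟩)
      refine (EdgeDense_rule_P hs hinj hB θ e _ x).2 ⟨?_, ?_, rfl, hg'⟩
      · show (EE l).card = k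
        rw [hE, card_image_of_injective _ hl'.1, card_univ, Fintype.card_fin]
      · show OK R s (EE l)
        rw [hE]
        exact hl'.2
    · rintro ⟨l, g⟩ _ ⟨l', g'⟩ _ h
      simp only [Prod.mk.injEq] at h
      obtain ⟨h1, -, h2⟩ := h
      rw [h1, h2]
  have h5 : G.card * Fintype.card F ≤ 2 * ∑ l ∈ G, (C l).card := by
    rw [mul_sum, ← smul_eq_mul, ← sum_const]
    apply sum_le_sum
    intro l _
    refine half_theta hv ?_
    unfold WW
    exact prod_ne_zero_iff.2 fun c _ => hs.wne _
  have h6 : Fintype.card Ω = M ^ n * ((2 * B * (((2 * B + 1) * N + 1) * 4)) * Fintype.card F) := by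
    show Fintype.card ((Fin n → ZMod M) × (ZMod (2 * B) × ZMod ((2 * B + 1) * N + 1) × ZMod 4) × F)
      = _
    rw [Fintype.card_prod, Fintype.card_prod, Fintype.card_prod, Fintype.card_prod, hn1,
      ZMod.card, ZMod.card, ZMod.card]
  rw [h6, one_mul]
  calc M ^ n * ((2 * B * (((2 * B + 1) * N + 1) * 4)) * Fintype.card F)
      ≤ q * G.card * ((2 * B * (((2 * B + 1) * N + 1) * 4)) * Fintype.card F) :=
        Nat.mul_le_mul_right _ h3
    _ = q * (2 * B * (((2 * B + 1) * N + 1) * 4)) * (G.card * Fintype.card F) := by ring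
    _ ≤ q * (2 * B * (((2 * B + 1) * N + 1) * 4)) * (2 * P.card) :=
        Nat.mul_le_mul_left _ (h5.trans (Nat.mul_le_mul_left _ h4))
    _ = q * (2 * (2 * B * (((2 * B + 1) * N + 1) * 4))) * P.card := by ring

end Pool.Agent.H62.ZN
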