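import Mathlib

/-!
# JOB ZN-5 (MP_07f90a_co): at least two thirds of the sequences are good

A sequence `y : Fin k → Fin N × D` is good if it is injective and every cell `c : Fin N` contains
at most `J` of its entries.

* `card_same_cell`: for `T` with `j + 1` elements, `N ^ j` times the number of the `y` with all
  `(y i).1`, `i ∈ T`, equal, is at most `(N * card D) ^ k`.  Fix `i0 ∈ T`.  The map
  `(y, a) ↦ y'`, `a : (T.erase i0) → Fin N` (or `a : Fin k → Fin N` restricted suitably), `y' i = (a i, (y i).2)`
  for `i ∈ T.erase i0`, `y' i = y i` otherwise, is injective: `y` is recovered since its cells on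
  `T` are all equal to that of `y' i0 = y i0`.  (See `free2` in `Pool/Agent/H56/ZK/Count.lean` for a
  similar proof.)
* `card_coll`: for `i ≠ i'`, `N * card D` times the number of the `y` with `y i = y i'` is at most
  `(N * card D) ^ k`: the map `(y, p) ↦ Function.update y i p` is injective on these.
* `card_good`: a sequence which is not good satisfies `y i = y i'` for some `i < i'` (at most
  `k (k - 1) / 2 ≤ k ^ 2 / 2` pairs, `N * card D ≥ 4 k ^ 2`: at most `1 / 8` of all) or has all entries of some
  `T ∈ powersetCard (J + 1) univ` in one cell (at most `choose k (J + 1) ≤ k ^ (J + 1) / (J + 1)! ≤ N ^ J / 6`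
  sets `T`: at most `1 / 6` of all; `Nat.descFactorial_eq_factorial_mul_choose`,
  `Nat.descFactorial_le_pow`).  `1 / 8 + 1 / 6 ≤ 1 / 3`.  If `k = 0` everything is trivial.
-/

set_option autoImplicit false

namespace Pool.Agent.H62.ZN

open Finset

/-- The good sequences. -/
def Good (J : ℕ) {N k : ℕ} {D : Type} (y : Fin k → Fin N × D) : Prop :=
  Function.Injective y ∧ ∀ c : Fin N, (univ.filter (fun i => (y i).1 = c)).card ≤ J

open Classical in
theorem card_same_cell {N k j : ℕ} {D : Type} [Fintype D] (T : Finset (Fin k))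
    (hT : T.card = j + 1) :
    N ^ j * (univ.filter (fun y : Fin k → Fin N × D =>
      ∀ i ∈ T, ∀ i' ∈ T, (y i).1 = (y i').1)).card ≤ (N * Fintype.card D) ^ k := by
  obtain ⟨i0, hi0⟩ : T.Nonempty := card_pos.mp (by omega)
  obtain ⟨S, hS⟩ : ∃ S : Finset (Fin k → Fin N × D), S = univ.filter (fun y =>
      ∀ i ∈ T, ∀ i' ∈ T, (y i).1 = (y i').1) := ⟨_, rfl⟩
  rw [← hS]
  have hmem : ∀ y ∈ S, ∀ i ∈ T, ∀ i' ∈ T, (y i).1 = (y i').1 := by
    intro y hy
    rw [hS] at hy
    exact (mem_filter.mp hy).2
  have h1 : Fintype.card (({i // i ∈ T.erase i0} → Fin N) × {y // y ∈ S}) ≤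
      Fintype.card (Fin k → Fin N × D) := by
    refine Fintype.card_le_of_injective (fun q i =>
      if h : i ∈ T.erase i0 then (q.1 ⟨i, h⟩, (q.2.1 i).2) else q.2.1 i) ?_
    rintro ⟨a, y, hy⟩ ⟨b, z, hz⟩ h
    have hf : ∀ i, (if h : i ∈ T.erase i0 then (a ⟨i, h⟩, (y i).2) else y i)
        = (if h : i ∈ T.erase i0 then (b ⟨i, h⟩, (z i).2) else z i) := fun i => congrFun h i
    have h0 : y i0 = z i0 := by
      have h2 := hf i0
      rwa [dif_neg (notMem_erase i0 T), dif_neg (notMem_erase i0 T)] at h2
    have hyz : y = z := by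
      funext i
      by_cases hi : i ∈ T.erase i0
      · have h2 := hf i
        rw [dif_pos hi, dif_pos hi] at h2
        have h3 : (y i).1 = (z i).1 := by
          rw [hmem y hy i (mem_of_mem_erase hi) i0 hi0, hmem z hz i (mem_of_mem_erase hi) i0 hi0,
            h0]
        exact Prod.ext h3 (Prod.ext_iff.mp h2).2
      · have h2 := hf i
        rwa [dif_neg hi, dif_neg hi] at h2
    have hab : a = b := by
      funext ⟨i, hi⟩
      have h2 := hf i
      rw [dif_pos hi, dif_pos hi] at h2
      exact (Prod.ext_iff.mp h2).1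
    subst hyz
    subst hab
    rfl
  have h2 : Fintype.card {i // i ∈ T.erase i0} = j := by
    rw [Fintype.card_coe, card_erase_of_mem hi0, hT]
    rfl
  rw [Fintype.card_prod, Fintype.card_fun, Fintype.card_fun, h2, Fintype.card_coe,
    Fintype.card_prod, Fintype.card_fin, Fintype.card_fin] at h1
  exact h1

open Classical in
theorem card_coll {N k : ℕ} {D : Type} [Fintype D] {i i' : Fin k} (h : i ≠ i') :
    (N * Fintype.card D) * (univ.filter (fun y : Fin k → Fin N × D => y i = y i')).card ≤
      (N * Fintype.card D) ^ k := by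
  have hii : i' ≠ i := Ne.symm h
  obtain ⟨S, hS⟩ : ∃ S : Finset (Fin k → Fin N × D), S = univ.filter (fun y => y i = y i') :=
    ⟨_, rfl⟩
  rw [← hS]
  have hmem : ∀ y ∈ S, y i = y i' := by
    intro y hy
    rw [hS] at hy
    exact (mem_filter.mp hy).2
  have h1 : Fintype.card ((Fin N × D) × {y // y ∈ S}) ≤ Fintype.card (Fin k → Fin N × D) := by
    refine Fintype.card_le_of_injective (fun q => Function.update q.2.1 i q.1) ?_
    rintro ⟨p, y, hy⟩ ⟨q, z, hz⟩ h0
    have h : Function.update y i p = Function.update z i q := h0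
    have hpq : p = q := by
      have h2 := congrFun h i
      rwa [Function.update_self, Function.update_self] at h2
    have hne : ∀ l, l ≠ i → y l = z l := by
      intro l hl
      have h2 := congrFun h l
      rwa [Function.update_of_ne hl, Function.update_of_ne hl] at h2
    have hyz : y = z := by
      funext l
      by_cases hl : l = i
      · rw [hl, hmem y hy, hmem z hz]
        exact hne i' hii
      · exact hne l hl
    subst hyz
    subst hpq
    rfl
  rw [Fintype.card_prod, Fintype.card_fun, Fintype.card_coe, Fintype.card_prod, Fintype.card_fin,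
    Fintype.card_fin] at h1
  exact h1

open Classical in
theorem card_good {N k J : ℕ} {D : Type} [Fintype D] (hJ : 2 ≤ J) (hN : k ^ (J + 1) ≤ N ^ J)
    (hkN : k ≤ N) (hN0 : 0 < N) (hD : 4 * k ≤ Fintype.card D) :
    2 * (N * Fintype.card D) ^ k ≤
      3 * (univ.filter (fun y : Fin k → Fin N × D => Good J y)).card := by
  obtain ⟨M, hM⟩ : ∃ M, M = (N * Fintype.card D) ^ k := ⟨_, rfl⟩
  obtain ⟨A, hA⟩ : ∃ A : Finset (Fin k) → Finset (Fin k → Fin N × D), A = fun T =>
      univ.filter (fun y => ∀ i ∈ T, ∀ i' ∈ T, y i = y i') := ⟨_, rfl⟩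
  obtain ⟨B, hB⟩ : ∃ B : Finset (Fin k) → Finset (Fin k → Fin N × D), B = fun T =>
      univ.filter (fun y => ∀ i ∈ T, ∀ i' ∈ T, (y i).1 = (y i').1) := ⟨_, rfl⟩
  have hsub : univ.filter (fun y : Fin k → Fin N × D => ¬ Good J y) ⊆
      ((powersetCard 2 univ).biUnion A) ∪ ((powersetCard (J + 1) univ).biUnion B) := by
    intro y hy
    have hy2 : ¬ Good J y := (mem_filter.mp hy).2
    rw [Good, not_and_or] at hy2
    rw [mem_union]
    rcases hy2 with h | h
    · left
      rw [Function.Injective] at h
      push Not at h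
      obtain ⟨i, i', h1, h2⟩ := h
      rw [mem_biUnion]
      refine ⟨{i, i'}, mem_powersetCard.mpr ⟨subset_univ _, card_pair h2⟩, ?_⟩
      rw [hA]
      refine mem_filter.mpr ⟨mem_univ _, ?_⟩
      intro l hl l' hl'
      rw [mem_insert, mem_singleton] at hl hl'
      rcases hl with rfl | rfl <;> rcases hl' with rfl | rfl
      · rfl
      · exact h1
      · exact h1.symm
      · rfl
    · right
      push Not at h
      obtain ⟨c, hc⟩ := h
      obtain ⟨T, hT, hTc⟩ := exists_subset_card_eq (Nat.succ_le_of_lt hc)
      rw [mem_biUnion]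
      refine ⟨T, mem_powersetCard.mpr ⟨subset_univ _, hTc⟩, ?_⟩
      rw [hB]
      refine mem_filter.mpr ⟨mem_univ _, ?_⟩
      intro l hl l' hl'
      rw [(mem_filter.mp (hT hl)).2, (mem_filter.mp (hT hl')).2]
  have hAc : ∀ T ∈ powersetCard 2 (univ : Finset (Fin k)),
      (N * Fintype.card D) * (A T).card ≤ M := by
    intro T hT
    obtain ⟨i, i', hne, rfl⟩ := card_eq_two.mp (mem_powersetCard.mp hT).2
    refine le_trans (Nat.mul_le_mul_left _ (card_le_card ?_)) (hM ▸ card_coll (D := D) (N := N) hne)
    rw [hA]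
    intro y hy
    refine mem_filter.mpr ⟨mem_univ _, ?_⟩
    exact (mem_filter.mp hy).2 i (mem_insert_self _ _) i'
      (mem_insert_of_mem (mem_singleton_self _))
  have hBc : ∀ T ∈ powersetCard (J + 1) (univ : Finset (Fin k)), N ^ J * (B T).card ≤ M := by
    intro T hT
    rw [hB, hM]
    exact card_same_cell T (mem_powersetCard.mp hT).2
  have h1 : (univ.filter (fun y : Fin k → Fin N × D => ¬ Good J y)).card ≤
      ((powersetCard 2 univ).biUnion A).card + ((powersetCard (J + 1) univ).biUnion B).card :=
    (card_le_card hsub).trans (card_union_le _ _)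
  have h2 : 8 * ((powersetCard 2 univ).biUnion A).card ≤ M := by
    rcases Nat.eq_zero_or_pos k with hk | hk
    · subst hk
      have : powersetCard 2 (univ : Finset (Fin 0)) = ∅ := by
        apply powersetCard_eq_empty.mpr
        simp
      rw [this, biUnion_empty, card_empty]
      omega
    · have h3 : (N * Fintype.card D) * ((powersetCard 2 univ).biUnion A).card ≤ k.choose 2 * M := by
        calc (N * Fintype.card D) * ((powersetCard 2 univ).biUnion A).card
            ≤ (N * Fintype.card D) * ∑ T ∈ powersetCard 2 univ, (A T).card :=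
              Nat.mul_le_mul_left _ card_biUnion_le
          _ = ∑ T ∈ powersetCard 2 univ, (N * Fintype.card D) * (A T).card := by rw [mul_sum]
          _ ≤ ∑ _T ∈ powersetCard 2 (univ : Finset (Fin k)), M := sum_le_sum hAc
          _ = k.choose 2 * M := by
            rw [sum_const, card_powersetCard, card_univ, Fintype.card_fin, smul_eq_mul]
      have h4 : k * (4 * k) ≤ N * Fintype.card D := Nat.mul_le_mul hkN hD
      have h5 : k.choose 2 * 2 ≤ k * k := by
        rw [Nat.choose_two_right, Nat.div_mul_cancel (Nat.even_mul_pred_self k).two_dvd]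
        exact Nat.mul_le_mul_left k (Nat.sub_le k 1)
      have h6 : k * (4 * k) * ((powersetCard 2 univ).biUnion A).card ≤ k.choose 2 * M :=
        (Nat.mul_le_mul_right _ h4).trans h3
      have h7 : (k * k) * (8 * ((powersetCard 2 univ).biUnion A).card) ≤ (k * k) * M := by
        calc (k * k) * (8 * ((powersetCard 2 univ).biUnion A).card)
            = 2 * (k * (4 * k) * ((powersetCard 2 univ).biUnion A).card) := by ring
          _ ≤ 2 * (k.choose 2 * M) := Nat.mul_le_mul_left _ h6
          _ = (k.choose 2 * 2) * M := by ring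
          _ ≤ (k * k) * M := Nat.mul_le_mul_right _ h5
      exact Nat.le_of_mul_le_mul_left h7 (Nat.mul_pos hk hk)
  have h3 : 6 * ((powersetCard (J + 1) univ).biUnion B).card ≤ M := by
    have h3 : N ^ J * ((powersetCard (J + 1) univ).biUnion B).card ≤ k.choose (J + 1) * M := by
      calc N ^ J * ((powersetCard (J + 1) univ).biUnion B).card
          ≤ N ^ J * ∑ T ∈ powersetCard (J + 1) univ, (B T).card :=
            Nat.mul_le_mul_left _ card_biUnion_le
        _ = ∑ T ∈ powersetCard (J + 1) univ, N ^ J * (B T).card := by rw [mul_sum]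
        _ ≤ ∑ _T ∈ powersetCard (J + 1) (univ : Finset (Fin k)), M := sum_le_sum hBc
        _ = k.choose (J + 1) * M := by
          rw [sum_const, card_powersetCard, card_univ, Fintype.card_fin, smul_eq_mul]
    have h4 : (J + 1).factorial * k.choose (J + 1) ≤ N ^ J := by
      rw [← Nat.descFactorial_eq_factorial_mul_choose]
      exact (Nat.descFactorial_le_pow _ _).trans hN
    have h5 : 6 ≤ (J + 1).factorial := by
      have h6 : (3 : ℕ).factorial ≤ (J + 1).factorial := Nat.factorial_le (by omega)
      have h7 : (3 : ℕ).factorial = 6 := rfl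
      omega
    have h7 : N ^ J * (6 * ((powersetCard (J + 1) univ).biUnion B).card) ≤ N ^ J * M := by
      calc N ^ J * (6 * ((powersetCard (J + 1) univ).biUnion B).card)
          = 6 * (N ^ J * ((powersetCard (J + 1) univ).biUnion B).card) := by ring
        _ ≤ 6 * (k.choose (J + 1) * M) := Nat.mul_le_mul_left _ h3
        _ = (6 * k.choose (J + 1)) * M := by ring
        _ ≤ ((J + 1).factorial * k.choose (J + 1)) * M :=
          Nat.mul_le_mul_right _ (Nat.mul_le_mul_right _ h5)
        _ ≤ N ^ J * M := Nat.mul_le_mul_right _ h4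
    exact Nat.le_of_mul_le_mul_left h7 (pow_pos hN0 J)
  have h4 : (univ.filter (fun y : Fin k → Fin N × D => Good J y)).card +
      (univ.filter (fun y : Fin k → Fin N × D => ¬ Good J y)).card = M := by
    rw [card_filter_add_card_filter_not, card_univ, Fintype.card_fun, Fintype.card_prod,
      Fintype.card_fin, Fintype.card_fin, hM]
  rw [← hM]
  omega

end Pool.Agent.H62.ZN
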