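import Mathlib
import Pool.Agent.H62.ZN.Defs

/-!
# MP_07f90a_co: the structure on the union of two halves, basic facts
-/

set_option autoImplicit false
set_option linter.unusedSectionVars false

namespace Pool.Agent.H62.ZN

open Finset

variable {D0 D1 F : Type} [DecidableEq D0] [DecidableEq D1] [Field F]

lemma erase_inl (S0 : Finset D0) (S1 : Finset D1) (a : D0) :
    (S0.disjSum S1).erase (Sum.inl a) = (S0.erase a).disjSum S1 := by
  ext v
  cases v <;> simp

lemma erase_inr (S0 : Finset D0) (S1 : Finset D1) (b : D1) :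
    (S0.disjSum S1).erase (Sum.inr b) = S0.disjSum (S1.erase b) := by
  ext v
  cases v <;> simp

/-- the data of a pair of sets -/
def dd (l : ℕ) (s0 : Str D0 F) (s1 : Str D1 F) (S0 : Finset D0) (S1 : Finset D1) : Bool × Rec :=
  comb l S0.card S1.card (s0.dat S0) (s1.dat S1)

/-- the weight of a pair of sets -/
def ww (s0 : Str D0 F) (s1 : Str D1 F) (x0 : D0 → F) (x1 : D1 → F)
    (S0 : Finset D0) (S1 : Finset D1) : F :=
  if S0.card = 1 ∧ S1.card = 1 then ∑ a ∈ S0, x0 a + ∑ b ∈ S1, x1 b else s0.w S0 * s1.w S1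

lemma join_dat (l : ℕ) (s0 : Str D0 F) (s1 : Str D1 F) (x : D0 ⊕ D1 → F)
    (S0 : Finset D0) (S1 : Finset D1) :
    (s0.join l s1 x).dat (S0.disjSum S1) = dd l s0 s1 S0 S1 := by
  unfold Str.join dd
  simp only [toLeft_disjSum, toRight_disjSum]

lemma join_w (l : ℕ) (s0 : Str D0 F) (s1 : Str D1 F) (x : D0 ⊕ D1 → F)
    (S0 : Finset D0) (S1 : Finset D1) :
    (s0.join l s1 x).w (S0.disjSum S1) =
      ww s0 s1 (fun d => x (Sum.inl d)) (fun d => x (Sum.inr d)) S0 S1 := by
  unfold Str.join ww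
  simp only [toLeft_disjSum, toRight_disjSum, sum_disjSum]

/-! ### Evaluation of the combination rule -/

lemma comb_zero_left (l n : ℕ) (a b : Bool × Rec) : comb l 0 n a b = b := by
  unfold comb
  rw [if_pos rfl]

lemma comb_zero_right (l m : ℕ) (a b : Bool × Rec) (h : m = 0 → a = b) : comb l m 0 a b = a := by
  unfold comb
  by_cases hm : m = 0
  · rw [if_pos hm, h hm]
  · rw [if_neg hm, if_pos rfl]

lemma comb_one_one (l : ℕ) (a b : Bool × Rec) : comb l 1 1 a b = (false, Rec.psi) := by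
  simp [comb]

lemma comb_one_two (l : ℕ) (a b : Bool × Rec) : comb l 1 2 a b = (false, Rec.l12 l) := by
  simp [comb]

lemma comb_two_one (l : ℕ) (a b : Bool × Rec) : comb l 2 1 a b = (false, Rec.l21 l) := by
  simp [comb]

lemma comb_one (l : ℕ) {n : ℕ} (hn : 3 ≤ n) (a b : Bool × Rec) :
    comb l 1 n a b = h1 (Rec.B l Rec.zero) b := by
  unfold comb
  rw [if_neg (by omega), if_neg (by omega), if_pos rfl, if_neg (by omega), if_neg (by omega)]

lemma comb_one' (l : ℕ) {m : ℕ} (hm : 3 ≤ m) (a b : Bool × Rec) :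
    comb l m 1 a b = h1 (fun r => Rec.B l r Rec.zero) a := by
  unfold comb
  rw [if_neg (by omega), if_neg (by omega), if_neg (by omega), if_pos rfl, if_neg (by omega)]

lemma comb_gen (l : ℕ) {m n : ℕ} (hm : 2 ≤ m) (hn : 2 ≤ n) (a b : Bool × Rec) :
    comb l m n a b = gen l a b := by
  unfold comb
  rw [if_neg (by omega), if_neg (by omega), if_neg (by omega), if_neg (by omega)]

/-! ### Injectivity -/

lemma h1_inj {g : Rec → Rec} (hg : Function.Injective g) : Function.Injective (h1 g) := by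
  rintro ⟨s, r⟩ ⟨t, q⟩ h
  unfold h1 at h
  cases s <;> cases t <;> simp at h ⊢
  · exact h
  · exact hg h

lemma gen_inj_left (l : ℕ) (b : Bool × Rec) : Function.Injective (fun a => gen l a b) := by
  rintro ⟨s, r⟩ ⟨t, q⟩ h
  obtain ⟨u, p⟩ := b
  unfold gen at h
  cases s <;> cases t <;> cases u <;> simp at h ⊢ <;> exact h

lemma gen_inj_right (l : ℕ) (a : Bool × Rec) : Function.Injective (fun b => gen l a b) := by
  rintro ⟨s, r⟩ ⟨t, q⟩ h
  obtain ⟨u, p⟩ := a
  unfold gen at h
  cases s <;> cases t <;> cases u <;> simp at h ⊢ <;> exact h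

lemma injB (l : ℕ) : Function.Injective (Rec.B l Rec.zero) := by
  intro a b h
  simpa using h

lemma injB' (l : ℕ) : Function.Injective (fun r => Rec.B l r Rec.zero) := by
  intro a b h
  simpa using h

end Pool.Agent.H62.ZN
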