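import Mathlib
import Pool.Agent.H62.ZN.Join0

/-!
# MP_07f90a_co: the structure on the union of two halves, numbers of facets
-/

set_option autoImplicit false
set_option linter.unusedSectionVars false
set_option linter.unusedVariables false

namespace Pool.Agent.H62.ZN

open Finset

variable {D0 D1 F : Type} [DecidableEq D0] [DecidableEq D1] [Field F] [CharP F 2]

/-- fibres of a composition with an injective map -/
lemma filt_inj {D : Type} {S : Finset D} (q : D → Bool × Rec) {h : Bool × Rec → Bool × Rec}
    (hi : Function.Injective h) (u : Bool × Rec) :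
    S.filter (fun v => h (q v) = u) = ∅ ∨
      ∃ u', h u' = u ∧ (∃ v ∈ S, q v = u') ∧
        S.filter (fun v => h (q v) = u) = S.filter (fun v => q v = u') := by
  rcases (S.filter (fun v => h (q v) = u)).eq_empty_or_nonempty with h0 | ⟨v, hv⟩
  · exact Or.inl h0
  · right
    rw [mem_filter] at hv
    refine ⟨q v, hv.2, ⟨v, hv.1, rfl⟩, ?_⟩
    apply filter_congr
    intro w _
    rw [← hv.2]
    exact ⟨fun h => hi h, fun h => by rw [h]⟩

variable {l : ℕ} {x0 : D0 → F} {x1 : D1 → F} {s0 : Str D0 F} {s1 : Str D1 F}

/-- the record of a facet equals the record only for types `false` and `true` -/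
lemma facet_type {D : Type} [DecidableEq D] {x : D → F} {s : Str D F} (H : IsLoc l x s)
    {S : Finset D} {v : D} (hv : v ∈ S) (h : (s.dat (S.erase v)).2 = (s.dat S).2) :
    (s.dat S).1 = true ∧ (s.dat (S.erase v)).1 = false := by
  have h1 := H.size S
  have h2 := H.size (S.erase v)
  rw [card_erase_of_mem hv, h] at h2
  have h3 : 0 < S.card := card_pos.2 ⟨v, hv⟩
  cases ht : (s.dat S).1 <;> cases ht' : (s.dat (S.erase v)).1 <;>
    simp [ht, ht'] at h1 h2 ⊢ <;> omega

/-- the number of facets with the record of the set is at most one -/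
lemma cnt_self {D : Type} [DecidableEq D] {x : D → F} {s : Str D F} (H : IsLoc l x s)
    (S : Finset D) (t : Bool) :
    (S.filter (fun v => s.dat (S.erase v) = (t, (s.dat S).2))).card ≤ 1 := by
  cases t
  · exact H.cnt0 S
  · have : S.filter (fun v => s.dat (S.erase v) = (true, (s.dat S).2)) = ∅ := by
      rw [filter_eq_empty_iff]
      intro v hv h
      have h1 := (facet_type H hv (by rw [h])).2
      rw [h] at h1
      simp at h1
    rw [this, card_empty]
    omega

/-- the one sided case: at least four elements in one half and one in the other -/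
lemma one_side {D : Type} [DecidableEq D] {x : D → F} {s : Str D F} (H : IsLoc l x s)
    {g : Rec → Rec} (hg : Function.Injective g) (hlev : ∀ r r', r'.lev ≤ l → g r ≠ r')
    (S : Finset D) (u : Bool × Rec) :
    (if s.dat S = u then 1 else 0) +
        (S.filter (fun v => h1 g (s.dat (S.erase v)) = u)).card ≤ 3 ∧
      (u = (false, (h1 g (s.dat S)).2) → (if s.dat S = u then 1 else 0) +
        (S.filter (fun v => h1 g (s.dat (S.erase v)) = u)).card ≤ 1) := by
  rcases filt_inj (S := S) (fun v => s.dat (S.erase v)) (h1_inj hg) u with h | ⟨u', hu', hv, h⟩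
  · rw [h, card_empty]
    split_ifs <;> simp
  · rw [h]
    obtain ⟨v, hvS, hv⟩ := hv
    have hc := H.cnt S u'
    constructor
    · split_ifs with hS
      · -- then `u' = (false, record of S)`
        have hr : u'.2 = (s.dat S).2 := by
          rw [hS, ← hu']
          unfold h1
          split_ifs with h5
          · exfalso
            have h6 : g u'.2 = (s.dat S).2 := by rw [hS, ← hu']; simp [h1, h5]
            exact hlev _ _ (H.lev S) h6
          · rfl
        have h7 := cnt_self H S u'.1
        rw [← hr] at h7
        have h8 : (S.filter (fun v => s.dat (S.erase v) = u')).card ≤ 1 := h7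
        omega
      · omega
    · intro hu
      cases ht : (s.dat S).1
      · -- type false
        have e1 : h1 g (s.dat S) = (true, (s.dat S).2) := by simp [h1, ht]
        rw [e1] at hu
        exfalso
        rw [← hu'] at hu
        unfold h1 at hu
        split_ifs at hu with h5
        · have h6 : g u'.2 = (s.dat S).2 := by simpa using hu
          exact hlev _ _ (H.lev S) h6
        · simp at hu
      · have e1 : h1 g (s.dat S) = (false, g (s.dat S).2) := by simp [h1, ht]
        rw [e1] at hu
        exfalso
        rw [← hu'] at hu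
        unfold h1 at hu
        split_ifs at hu with h5
        · have h6 : u'.2 = (s.dat S).2 := by
            apply hg
            simpa using hu
          have h7 := (facet_type H hvS (by rw [hv]; exact h6)).2
          rw [hv, h5] at h7
          simp at h7
        · simp at hu

/-- records of larger level -/
lemma lev_ne {l : ℕ} {r r' : Rec} (h : r'.lev ≤ l) (hr : r.lev = l + 1) : r ≠ r' := by
  rintro rfl
  omega

lemma ind_le {P : Prop} [Decidable P] : (if P then 1 else 0 : ℕ) ≤ 1 := by
  split_ifs <;> omega

/-- the facets on one side, both sides with at least two elements: the number of `a` -/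
lemma left_cnt (H0 : IsLoc l x0 s0) (S0 : Finset D0) (S1 : Finset D1) (hm : 2 ≤ S0.card)
    (hn : 2 ≤ S1.card) (u : Bool × Rec) :
    (S0.filter (fun a => dd l s0 s1 (S0.erase a) S1 = u)).card = 0 ∨
      (S0.card = 2 ∧ (S0.filter (fun a => dd l s0 s1 (S0.erase a) S1 = u)).card ≤ 2 ∧
        ((S1.card = 2 ∧ u = (false, Rec.l12 l)) ∨
          (3 ≤ S1.card ∧ u = h1 (Rec.B l Rec.zero) (s1.dat S1)))) ∨
      (3 ≤ S0.card ∧ ∃ u', gen l u' (s1.dat S1) = u ∧ (∃ v ∈ S0, s0.dat (S0.erase v) = u') ∧
        S0.filter (fun a => dd l s0 s1 (S0.erase a) S1 = u) =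
          S0.filter (fun a => s0.dat (S0.erase a) = u')) := by
  have hc : ∀ a ∈ S0, (S0.erase a).card = S0.card - 1 := fun a ha => card_erase_of_mem ha
  rcases Nat.lt_or_ge 2 S0.card with h | h
  · have e : S0.filter (fun a => dd l s0 s1 (S0.erase a) S1 = u) =
        S0.filter (fun a => gen l (s0.dat (S0.erase a)) (s1.dat S1) = u) := by
      apply filter_congr
      intro a ha
      unfold dd
      rw [comb_gen l (by rw [hc a ha]; omega) hn]
    rcases filt_inj (S := S0) (fun v => s0.dat (S0.erase v)) (gen_inj_left l (s1.dat S1)) u with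
      h2 | ⟨u', hu', hv, h2⟩
    · left
      rw [e, h2, card_empty]
    · right; right
      refine ⟨h, u', hu', hv, ?_⟩
      rw [e, h2]
  · have h2 : S0.card = 2 := by omega
    rcases (S0.filter (fun a => dd l s0 s1 (S0.erase a) S1 = u)).eq_empty_or_nonempty with
      h0 | ⟨a, ha⟩
    · left
      rw [h0, card_empty]
    · right; left
      refine ⟨h2, (card_le_card (filter_subset _ _)).trans h2.le, ?_⟩
      rw [mem_filter] at ha
      have hc1 : (S0.erase a).card = 1 := by rw [hc a ha.1]; omega
      have h3 := ha.2
      unfold dd at h3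
      rcases Nat.lt_or_ge 2 S1.card with h' | h'
      · right
        rw [hc1, comb_one l (by omega)] at h3
        exact ⟨h', h3.symm⟩
      · left
        have h2' : S1.card = 2 := by omega
        rw [hc1, h2', comb_one_two] at h3
        exact ⟨h2', h3.symm⟩

lemma right_cnt (H1 : IsLoc l x1 s1) (S0 : Finset D0) (S1 : Finset D1) (hm : 2 ≤ S0.card)
    (hn : 2 ≤ S1.card) (u : Bool × Rec) :
    (S1.filter (fun b => dd l s0 s1 S0 (S1.erase b) = u)).card = 0 ∨
      (S1.card = 2 ∧ (S1.filter (fun b => dd l s0 s1 S0 (S1.erase b) = u)).card ≤ 2 ∧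
        ((S0.card = 2 ∧ u = (false, Rec.l21 l)) ∨
          (3 ≤ S0.card ∧ u = h1 (fun r => Rec.B l r Rec.zero) (s0.dat S0)))) ∨
      (3 ≤ S1.card ∧ ∃ u', gen l (s0.dat S0) u' = u ∧ (∃ v ∈ S1, s1.dat (S1.erase v) = u') ∧
        S1.filter (fun b => dd l s0 s1 S0 (S1.erase b) = u) =
          S1.filter (fun b => s1.dat (S1.erase b) = u')) := by
  have hc : ∀ b ∈ S1, (S1.erase b).card = S1.card - 1 := fun b hb => card_erase_of_mem hb
  rcases Nat.lt_or_ge 2 S1.card with h | h
  · have e : S1.filter (fun b => dd l s0 s1 S0 (S1.erase b) = u) =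
        S1.filter (fun b => gen l (s0.dat S0) (s1.dat (S1.erase b)) = u) := by
      apply filter_congr
      intro b hb
      unfold dd
      rw [comb_gen l hm (by rw [hc b hb]; omega)]
    rcases filt_inj (S := S1) (fun v => s1.dat (S1.erase v)) (gen_inj_right l (s0.dat S0)) u with
      h2 | ⟨u', hu', hv, h2⟩
    · left
      rw [e, h2, card_empty]
    · right; right
      refine ⟨h, u', hu', hv, ?_⟩
      rw [e, h2]
  · have h2 : S1.card = 2 := by omega
    rcases (S1.filter (fun b => dd l s0 s1 S0 (S1.erase b) = u)).eq_empty_or_nonempty with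
      h0 | ⟨b, hb⟩
    · left
      rw [h0, card_empty]
    · right; left
      refine ⟨h2, (card_le_card (filter_subset _ _)).trans h2.le, ?_⟩
      rw [mem_filter] at hb
      have hc1 : (S1.erase b).card = 1 := by rw [hc b hb.1]; omega
      have h3 := hb.2
      unfold dd at h3
      rcases Nat.lt_or_ge 2 S0.card with h' | h'
      · right
        rw [hc1, comb_one' l (by omega)] at h3
        exact ⟨h', h3.symm⟩
      · left
        have h2' : S0.card = 2 := by omega
        rw [hc1, h2', comb_two_one] at h3
        exact ⟨h2', h3.symm⟩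

/-- the records of the generic combination -/
lemma gen_snd (l : ℕ) (a b : Bool × Rec) :
    (gen l a b).2 = (if a.1 = true ∧ b.1 = true then Rec.B l a.2 b.2 else Rec.A l a.2 b.2) := by
  unfold gen
  split_ifs <;> rfl

lemma gen_snd_eq {l : ℕ} {a b a' b' : Bool × Rec} (h : (gen l a b).2 = (gen l a' b').2) :
    a.2 = a'.2 ∧ b.2 = b'.2 := by
  rw [gen_snd, gen_snd] at h
  split_ifs at h <;> simp at h <;> exact h

lemma gen_lev (l : ℕ) (a b : Bool × Rec) : (gen l a b).2.lev = l + 1 := by
  rw [gen_snd]
  split_ifs <;> rfl

/-- the generic case, both sides with at least three elements -/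
lemma gen_cnt (H0 : IsLoc l x0 s0) (H1 : IsLoc l x1 s1) (S0 : Finset D0) (S1 : Finset D1)
    {u u0 u1 : Bool × Rec} (e0 : gen l u0 (s1.dat S1) = u) (e1 : gen l (s0.dat S0) u1 = u)
    (h0 : ∃ v ∈ S0, s0.dat (S0.erase v) = u0) (h1 : ∃ v ∈ S1, s1.dat (S1.erase v) = u1) :
    (S0.filter (fun a => s0.dat (S0.erase a) = u0)).card +
        (S1.filter (fun b => s1.dat (S1.erase b) = u1)).card ≤ 2 ∧
      (s0.dat S0).1 = true ∧ (s1.dat S1).1 = true ∧ u = (true, Rec.A l (s0.dat S0).2 (s1.dat S1).2) := by
  have h2 : (gen l u0 (s1.dat S1)).2 = (gen l (s0.dat S0) u1).2 := by rw [e0, e1]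
  obtain ⟨r0, r1⟩ := gen_snd_eq h2
  obtain ⟨v0, hv0, hu0⟩ := h0
  obtain ⟨v1, hv1, hu1⟩ := h1
  obtain ⟨t0, t0'⟩ := facet_type H0 hv0 (by rw [hu0]; exact r0)
  obtain ⟨t1, t1'⟩ := facet_type H1 hv1 (by rw [hu1]; exact r1.symm)
  rw [hu0] at t0'
  rw [hu1] at t1'
  have a0 := cnt_self H0 S0 u0.1
  have a1 := cnt_self H1 S1 u1.1
  rw [← r0] at a0
  rw [r1] at a1
  have a0' : (S0.filter (fun a => s0.dat (S0.erase a) = u0)).card ≤ 1 := a0
  have a1' : (S1.filter (fun b => s1.dat (S1.erase b) = u1)).card ≤ 1 := a1
  refine ⟨by omega, t0, t1, ?_⟩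
  rw [← e0]
  unfold gen
  rw [t0', t1]
  simp [r0]

theorem join_cnt (H0 : IsLoc l x0 s0) (H1 : IsLoc l x1 s1) (S0 : Finset D0) (S1 : Finset D1)
    (u : Bool × Rec) :
    (S0.filter (fun a => dd l s0 s1 (S0.erase a) S1 = u)).card +
        (S1.filter (fun b => dd l s0 s1 S0 (S1.erase b) = u)).card ≤ 3 ∧
      (u = (false, (dd l s0 s1 S0 S1).2) →
        (S0.filter (fun a => dd l s0 s1 (S0.erase a) S1 = u)).card +
        (S1.filter (fun b => dd l s0 s1 S0 (S1.erase b) = u)).card ≤ 1) := by
  have hc0 : ∀ a ∈ S0, (S0.erase a).card = S0.card - 1 := fun a ha => card_erase_of_mem ha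
  have hc1 : ∀ b ∈ S1, (S1.erase b).card = S1.card - 1 := fun b hb => card_erase_of_mem hb
  -- empty sides
  rcases Nat.eq_zero_or_pos S0.card with m0 | m0
  · have e0 : S0 = ∅ := card_eq_zero.1 m0
    have hd : ∀ T : Finset D1, dd l s0 s1 S0 T = s1.dat T := by
      intro T
      unfold dd
      rw [m0, comb_zero_left]
    simp only [hd]
    rw [e0, filter_empty, card_empty, zero_add]
    refine ⟨H1.cnt S1 u, ?_⟩
    rintro rfl
    exact H1.cnt0 S1
  rcases Nat.eq_zero_or_pos S1.card with n0 | n0
  · have e0 : S1 = ∅ := card_eq_zero.1 n0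
    have hd : ∀ T : Finset D0, dd l s0 s1 T S1 = s0.dat T := by
      intro T
      unfold dd
      rw [n0, comb_zero_right]
      intro hT
      rw [(H0.f0 T hT).1, (H1.f0 S1 n0).1]
    simp only [hd]
    rw [e0, filter_empty, card_empty, add_zero]
    refine ⟨H0.cnt S0 u, ?_⟩
    rintro rfl
    exact H0.cnt0 S0
  -- one element on the left
  rcases Nat.lt_or_ge 1 S0.card with m1 | m1
  swap
  · have m1 : S0.card = 1 := by omega
    obtain ⟨a, rfl⟩ := card_eq_one.1 m1
    have ee : ({a} : Finset D0).erase a = ∅ := by simp
    have d1 : dd l s0 s1 ∅ S1 = s1.dat S1 := by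
      unfold dd
      rw [card_empty, comb_zero_left]
    have f1 : (({a} : Finset D0).filter (fun c => dd l s0 s1 (({a} : Finset D0).erase c) S1 = u)).card =
        if s1.dat S1 = u then 1 else 0 := by
      rw [filter_singleton, ee, d1]
      split_ifs <;> simp
    rw [f1]
    rcases Nat.lt_or_ge 1 S1.card with n1 | n1
    swap
    · have n1 : S1.card = 1 := by omega
      obtain ⟨b, rfl⟩ := card_eq_one.1 n1
      have ee' : ({b} : Finset D1).erase b = ∅ := by simp
      have d2 : dd l s0 s1 {a} ∅ = s0.dat {a} := by
        unfold dd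
        rw [card_empty, comb_zero_right]
        intro h
        simp at h
      have f2 : (({b} : Finset D1).filter (fun c => dd l s0 s1 {a} (({b} : Finset D1).erase c) = u)).card =
          if s0.dat {a} = u then 1 else 0 := by
        rw [filter_singleton, ee', d2]
        split_ifs <;> simp
      have d3 : dd l s0 s1 {a} {b} = (false, Rec.psi) := by
        unfold dd
        rw [card_singleton, card_singleton, comb_one_one]
      rw [f2, d3, (H0.f1 {a} (card_singleton a)).1, (H1.f1 {b} (card_singleton b)).1]
      constructor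
      · split_ifs <;> omega
      · rintro rfl
        simp
    rcases Nat.lt_or_ge 2 S1.card with n2 | n2
    swap
    · have n2 : S1.card = 2 := by omega
      have d3 : dd l s0 s1 {a} S1 = (false, Rec.l12 l) := by
        unfold dd
        rw [card_singleton, n2, comb_one_two]
      constructor
      · have h2 := card_le_card (filter_subset (fun b => dd l s0 s1 {a} (S1.erase b) = u) S1)
        split_ifs <;> omega
      · rw [d3, (H1.f2 S1 n2).1]
        rintro rfl
        have : S1.filter (fun b => dd l s0 s1 {a} (S1.erase b) = (false, (false, Rec.l12 l).2)) = ∅ := by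
          rw [filter_eq_empty_iff]
          intro b hb h
          have h1 : (S1.erase b).card = 1 := by rw [hc1 b hb, n2]
          unfold dd at h
          rw [card_singleton, h1, comb_one_one] at h
          simp at h
        rw [this]
        simp
    have d3 : dd l s0 s1 {a} S1 = h1 (Rec.B l Rec.zero) (s1.dat S1) := by
      unfold dd
      rw [card_singleton, comb_one l n2]
    rcases Nat.lt_or_ge 3 S1.card with n3 | n3
    swap
    · have n3 : S1.card = 3 := by omega
      have ht : (s1.dat S1).1 = false := H1.f3 S1 n3
      have e : S1.filter (fun b => dd l s0 s1 {a} (S1.erase b) = u) =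
          S1.filter (fun _ => (false, Rec.l12 l) = u) := by
        apply filter_congr
        intro b hb
        have h1 : (S1.erase b).card = 2 := by rw [hc1 b hb, n3]
        unfold dd
        rw [card_singleton, h1, comb_one_two]
      rw [e, filter_const, d3]
      have hne : (s1.dat S1).2 ≠ Rec.l12 l := (lev_ne (H1.lev S1) rfl).symm
      constructor
      · by_cases hu : (false, Rec.l12 l) = u
        · rw [if_pos hu, if_neg, n3]
          intro h
          rw [← hu] at h
          exact hne (by rw [h])
        · rw [if_neg hu, card_empty]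
          split_ifs <;> omega
      · intro hu
        have h3 : (h1 (Rec.B l Rec.zero) (s1.dat S1)).2 = (s1.dat S1).2 := by simp [h1, ht]
        rw [h3] at hu
        have hne' : (false, Rec.l12 l) ≠ u := by
          rw [hu]
          intro h
          exact hne (congrArg Prod.snd h).symm
        rw [if_neg (show ¬ (false, Rec.l12 l) = u from hne'), card_empty]
        exact ind_le
    have e : S1.filter (fun b => dd l s0 s1 {a} (S1.erase b) = u) =
        S1.filter (fun b => h1 (Rec.B l Rec.zero) (s1.dat (S1.erase b)) = u) := by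
      apply filter_congr
      intro b hb
      unfold dd
      rw [card_singleton, comb_one l (by rw [hc1 b hb]; omega)]
    rw [e, d3]
    exact one_side H1 (injB l) (fun r r' h => lev_ne h rfl) S1 u
  -- one element on the right
  rcases Nat.lt_or_ge 1 S1.card with n1 | n1
  swap
  · have n1 : S1.card = 1 := by omega
    obtain ⟨b, rfl⟩ := card_eq_one.1 n1
    have ee : ({b} : Finset D1).erase b = ∅ := by simp
    have d1 : dd l s0 s1 S0 ∅ = s0.dat S0 := by
      unfold dd
      rw [card_empty, comb_zero_right]
      intro h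
      omega
    have f1 : (({b} : Finset D1).filter (fun c => dd l s0 s1 S0 (({b} : Finset D1).erase c) = u)).card =
        if s0.dat S0 = u then 1 else 0 := by
      rw [filter_singleton, ee, d1]
      split_ifs <;> simp
    rw [f1]
    rcases Nat.lt_or_ge 2 S0.card with n2 | n2
    swap
    · have n2 : S0.card = 2 := by omega
      have d3 : dd l s0 s1 S0 {b} = (false, Rec.l21 l) := by
        unfold dd
        rw [card_singleton, n2, comb_two_one]
      constructor
      · have h2 := card_le_card (filter_subset (fun a => dd l s0 s1 (S0.erase a) {b} = u) S0)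
        split_ifs <;> omega
      · rw [d3, (H0.f2 S0 n2).1]
        rintro rfl
        have : S0.filter (fun a => dd l s0 s1 (S0.erase a) {b} = (false, (false, Rec.l21 l).2)) = ∅ := by
          rw [filter_eq_empty_iff]
          intro a ha h
          have h1 : (S0.erase a).card = 1 := by rw [hc0 a ha, n2]
          unfold dd at h
          rw [card_singleton, h1, comb_one_one] at h
          simp at h
        rw [this]
        simp
    have d3 : dd l s0 s1 S0 {b} = h1 (fun r => Rec.B l r Rec.zero) (s0.dat S0) := by
      unfold dd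
      rw [card_singleton, comb_one' l n2]
    rcases Nat.lt_or_ge 3 S0.card with n3 | n3
    swap
    · have n3 : S0.card = 3 := by omega
      have ht : (s0.dat S0).1 = false := H0.f3 S0 n3
      have e : S0.filter (fun a => dd l s0 s1 (S0.erase a) {b} = u) =
          S0.filter (fun _ => (false, Rec.l21 l) = u) := by
        apply filter_congr
        intro a ha
        have h1 : (S0.erase a).card = 2 := by rw [hc0 a ha, n3]
        unfold dd
        rw [card_singleton, h1, comb_two_one]
      rw [e, filter_const, d3]
      have hne : (s0.dat S0).2 ≠ Rec.l21 l := (lev_ne (H0.lev S0) rfl).symm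
      constructor
      · by_cases hu : (false, Rec.l21 l) = u
        · rw [if_pos hu, if_neg, n3]
          intro h
          rw [← hu] at h
          exact hne (by rw [h])
        · rw [if_neg hu, card_empty]
          split_ifs <;> omega
      · intro hu
        have h3 : (h1 (fun r => Rec.B l r Rec.zero) (s0.dat S0)).2 = (s0.dat S0).2 := by
          simp [h1, ht]
        rw [h3] at hu
        have hne' : (false, Rec.l21 l) ≠ u := by
          rw [hu]
          intro h
          exact hne (congrArg Prod.snd h).symm
        rw [if_neg (show ¬ (false, Rec.l21 l) = u from hne'), card_empty, Nat.zero_add]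
        exact ind_le
    have e : S0.filter (fun a => dd l s0 s1 (S0.erase a) {b} = u) =
        S0.filter (fun a => h1 (fun r => Rec.B l r Rec.zero) (s0.dat (S0.erase a)) = u) := by
      apply filter_congr
      intro a ha
      unfold dd
      rw [card_singleton, comb_one' l (by rw [hc0 a ha]; omega)]
    rw [e, d3, add_comm]
    exact one_side H0 (injB' l) (fun r r' h => lev_ne h rfl) S0 u
  -- the generic case
  have d3 : dd l s0 s1 S0 S1 = gen l (s0.dat S0) (s1.dat S1) := by
    unfold dd
    rw [comb_gen l (by omega) (by omega)]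
  rw [d3]
  have hb0 : (S0.filter (fun a => dd l s0 s1 (S0.erase a) S1 = u)).card ≤ 3 := by
    rcases left_cnt (s1 := s1) H0 S0 S1 (by omega) (by omega) u with h | ⟨-, h, -⟩ | ⟨-, u', -, -, h⟩
    · omega
    · omega
    · rw [h]
      exact H0.cnt S0 u'
  have hb1 : (S1.filter (fun b => dd l s0 s1 S0 (S1.erase b) = u)).card ≤ 3 := by
    rcases right_cnt (s0 := s0) H1 S0 S1 (by omega) (by omega) u with h | ⟨-, h, -⟩ | ⟨-, u', -, -, h⟩
    · omega
    · omega
    · rw [h]
      exact H1.cnt S1 u'
  have hA : ∀ r r', (gen l (s0.dat S0) (s1.dat S1)).2 = Rec.A l r r' →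
      ((s0.dat S0).1 = false ∨ (s1.dat S1).1 = false) := by
    intro r r' h
    rw [gen_snd] at h
    split_ifs at h with h5
    by_contra hcon
    push Not at hcon
    apply h5
    exact ⟨by simpa using hcon.1, by simpa using hcon.2⟩
  -- left part for the special value
  have sp0 : u = (false, (gen l (s0.dat S0) (s1.dat S1)).2) →
      (S0.filter (fun a => dd l s0 s1 (S0.erase a) S1 = u)).card = 0 ∨
      ((S0.filter (fun a => dd l s0 s1 (S0.erase a) S1 = u)).card ≤ 1 ∧
        (s0.dat S0).1 = true ∧ (s1.dat S1).1 = false) := by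
    intro hu
    rcases left_cnt (s1 := s1) H0 S0 S1 (by omega) (by omega) u with
      h | ⟨h2, h, h3 | h3⟩ | ⟨h3, u', hu', ⟨v, hv, hv'⟩, h⟩
    · exact Or.inl h
    · exfalso
      rw [h3.2, gen_snd] at hu
      split_ifs at hu <;> simp at hu
    · exfalso
      have h4 := h3.2
      rw [hu] at h4
      have hl := gen_lev l (s0.dat S0) (s1.dat S1)
      cases ht : (s1.dat S1).1
      · have e5 : h1 (Rec.B l Rec.zero) (s1.dat S1) = (true, (s1.dat S1).2) := by simp [h1, ht]
        rw [e5] at h4
        simp at h4
      · have e5 : h1 (Rec.B l Rec.zero) (s1.dat S1) = (false, Rec.B l Rec.zero (s1.dat S1).2) := by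
          simp [h1, ht]
        rw [e5, gen_snd, (H0.f2 S0 h2).1] at h4
        simp at h4
    · right
      have h4 : (gen l u' (s1.dat S1)).2 = (gen l (s0.dat S0) (s1.dat S1)).2 := by
        rw [hu', hu]
      have r0 := (gen_snd_eq h4).1
      obtain ⟨t0, t0'⟩ := facet_type H0 hv (by rw [hv']; exact r0)
      rw [hv'] at t0'
      have a0 := cnt_self H0 S0 u'.1
      rw [← r0] at a0
      rw [h]
      refine ⟨a0, t0, ?_⟩
      have h5 : (gen l u' (s1.dat S1)).1 = false := by rw [hu', hu]
      unfold gen at h5
      rw [t0'] at h5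
      simpa using h5
  have sp1 : u = (false, (gen l (s0.dat S0) (s1.dat S1)).2) →
      (S1.filter (fun b => dd l s0 s1 S0 (S1.erase b) = u)).card = 0 ∨
      ((S1.filter (fun b => dd l s0 s1 S0 (S1.erase b) = u)).card ≤ 1 ∧
        (s1.dat S1).1 = true ∧ (s0.dat S0).1 = false) := by
    intro hu
    rcases right_cnt (s0 := s0) H1 S0 S1 (by omega) (by omega) u with
      h | ⟨h2, h, h3 | h3⟩ | ⟨h3, u', hu', ⟨v, hv, hv'⟩, h⟩
    · exact Or.inl h
    · exfalso
      rw [h3.2, gen_snd] at hu
      split_ifs at hu <;> simp at hu
    · exfalso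
      have h4 := h3.2
      rw [hu] at h4
      cases ht : (s0.dat S0).1
      · have e5 : h1 (fun r => Rec.B l r Rec.zero) (s0.dat S0) = (true, (s0.dat S0).2) := by
          simp [h1, ht]
        rw [e5] at h4
        simp at h4
      · have e5 : h1 (fun r => Rec.B l r Rec.zero) (s0.dat S0) =
            (false, Rec.B l (s0.dat S0).2 Rec.zero) := by
          simp [h1, ht]
        rw [e5, gen_snd, (H1.f2 S1 h2).1] at h4
        simp at h4
    · right
      have h4 : (gen l (s0.dat S0) u').2 = (gen l (s0.dat S0) (s1.dat S1)).2 := by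
        rw [hu', hu]
      have r0 := (gen_snd_eq h4).2
      obtain ⟨t0, t0'⟩ := facet_type H1 hv (by rw [hv']; exact r0)
      rw [hv'] at t0'
      have a0 := cnt_self H1 S1 u'.1
      rw [← r0] at a0
      rw [h]
      refine ⟨a0, t0, ?_⟩
      have h5 : (gen l (s0.dat S0) u').1 = false := by rw [hu', hu]
      unfold gen at h5
      rw [t0'] at h5
      simpa using h5
  refine ⟨?_, ?_⟩
  · rcases left_cnt (s1 := s1) H0 S0 S1 (by omega) (by omega) u with
      h | ⟨h2, h, h3⟩ | ⟨h3, u', hu', hv, h⟩
    · omega
    · rcases right_cnt (s0 := s0) H1 S0 S1 (by omega) (by omega) u with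
        k | ⟨k2, k, k3⟩ | ⟨k3, w', kw', kv, k⟩
      · omega
      · -- both sides have two elements
        exfalso
        rcases h3 with h3 | h3
        · rcases k3 with k3 | k3
          · rw [h3.2] at k3
            simp at k3
          · omega
        · omega
      · -- left two, right at least three
        exfalso
        have h4 : u = h1 (Rec.B l Rec.zero) (s1.dat S1) := by
          rcases h3 with h3 | h3
          · omega
          · exact h3.2
        rw [← kw'] at h4
        have hl := gen_lev l (s0.dat S0) w'
        cases ht : (s1.dat S1).1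
        · have e5 : h1 (Rec.B l Rec.zero) (s1.dat S1) = (true, (s1.dat S1).2) := by simp [h1, ht]
          rw [e5] at h4
          rw [h4] at hl
          have := H1.lev S1
          simp at hl
          omega
        · have e5 : h1 (Rec.B l Rec.zero) (s1.dat S1) =
              (false, Rec.B l Rec.zero (s1.dat S1).2) := by
            simp [h1, ht]
          rw [e5] at h4
          have h6 : (gen l (s0.dat S0) w').2 = Rec.B l Rec.zero (s1.dat S1).2 := by rw [h4]
          rw [gen_snd, (H0.f2 S0 h2).1] at h6
          simp at h6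
    · rcases right_cnt (s0 := s0) H1 S0 S1 (by omega) (by omega) u with
        k | ⟨k2, k, k3⟩ | ⟨k3, w', kw', kv, k⟩
      · omega
      · exfalso
        have h4 : u = h1 (fun r => Rec.B l r Rec.zero) (s0.dat S0) := by
          rcases k3 with k3 | k3
          · omega
          · exact k3.2
        rw [← hu'] at h4
        have hl := gen_lev l u' (s1.dat S1)
        cases ht : (s0.dat S0).1
        · have e5 : h1 (fun r => Rec.B l r Rec.zero) (s0.dat S0) = (true, (s0.dat S0).2) := by
            simp [h1, ht]
          rw [e5] at h4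
          rw [h4] at hl
          have := H0.lev S0
          simp at hl
          omega
        · have e5 : h1 (fun r => Rec.B l r Rec.zero) (s0.dat S0) =
              (false, Rec.B l (s0.dat S0).2 Rec.zero) := by
            simp [h1, ht]
          rw [e5] at h4
          have h6 : (gen l u' (s1.dat S1)).2 = Rec.B l (s0.dat S0).2 Rec.zero := by rw [h4]
          rw [gen_snd, (H1.f2 S1 k2).1] at h6
          simp at h6
      · rw [h, k]
        have := (gen_cnt H0 H1 S0 S1 hu' kw' hv kv).1
        omega
  · intro hu
    rcases sp0 hu with h | ⟨h, t0, t1⟩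
    · rcases sp1 hu with k | ⟨k, -, -⟩
      · omega
      · omega
    · rcases sp1 hu with k | ⟨k, t1', -⟩
      · omega
      · rw [t1] at t1'
        simp at t1'

end Pool.Agent.H62.ZN
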