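import Mathlib
import Pool.Agent.H62.ZN.Join0

/-!
# MP_07f90a_co: the structure on the union of two halves, sums over the facets
-/

set_option autoImplicit false
set_option linter.unusedSectionVars false

namespace Pool.Agent.H62.ZN

open Finset

variable {D0 D1 F : Type} [DecidableEq D0] [DecidableEq D1] [Field F] [CharP F 2]

lemma dup (x : F) : x + x = 0 := CharTwo.add_self_eq_zero x

/-- a constant function on a set with two elements sums to zero -/
lemma sum_two_const {D : Type} {S : Finset D} (hS : S.card = 2) {φ : D → F} {c : F}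
    (h : ∀ a ∈ S, φ a = c) : ∑ a ∈ S, φ a = 0 := by
  rw [sum_congr rfl h, sum_const, hS, two_nsmul, dup]

lemma sum_erase_two {D : Type} [DecidableEq D] {S : Finset D} (hS : S.card = 2) (x : D → F) :
    ∑ b ∈ S, ∑ c ∈ S.erase b, x c = ∑ c ∈ S, x c := by
  obtain ⟨b, c, hbc, rfl⟩ := card_eq_two.1 hS
  have e1 : ({b, c} : Finset D).erase b = {c} := by
    ext v
    simp only [mem_erase, mem_insert, mem_singleton]
    constructor
    · rintro ⟨h1, h2 | h2⟩
      · exact absurd h2 h1
      · exact h2
    · rintro rfl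
      exact ⟨hbc.symm, Or.inr rfl⟩
  have e2 : ({b, c} : Finset D).erase c = {b} := by
    ext v
    simp only [mem_erase, mem_insert, mem_singleton]
    constructor
    · rintro ⟨h1, h2 | h2⟩
      · exact h2
      · exact absurd h2 h1
    · rintro rfl
      exact ⟨hbc, Or.inl rfl⟩
  rw [sum_pair hbc, sum_pair hbc, e1, e2, sum_singleton, sum_singleton, add_comm]

variable {l : ℕ} {x0 : D0 → F} {x1 : D1 → F} {s0 : Str D0 F} {s1 : Str D1 F}

/-- the left sum, both sides with at least two elements -/
lemma left_sum (H0 : IsLoc l x0 s0) (S0 : Finset D0) (S1 : Finset D1) (hm : 2 ≤ S0.card)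
    (hn : 2 ≤ S1.card) (f : Bool × Rec → F) :
    ∑ a ∈ S0, f (dd l s0 s1 (S0.erase a) S1) * ww s0 s1 x0 x1 (S0.erase a) S1 =
      if (s0.dat S0).1 = true then
        f (gen l (false, (s0.dat S0).2) (s1.dat S1)) * (s0.w S0 * s1.w S1) else 0 := by
  have hw : ∀ a ∈ S0, ww s0 s1 x0 x1 (S0.erase a) S1 = s0.w (S0.erase a) * s1.w S1 := by
    intro a _
    unfold ww
    rw [if_neg (by omega)]
  have hc : ∀ a ∈ S0, (S0.erase a).card = S0.card - 1 := fun a ha => card_erase_of_mem ha
  rcases Nat.lt_or_ge 2 S0.card with h | h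
  · have e : ∀ a ∈ S0, f (dd l s0 s1 (S0.erase a) S1) * ww s0 s1 x0 x1 (S0.erase a) S1 =
        (f (gen l (s0.dat (S0.erase a)) (s1.dat S1)) * s1.w S1) * s0.w (S0.erase a) := by
      intro a ha
      rw [hw a ha]
      unfold dd
      rw [comb_gen l (by rw [hc a ha]; omega) hn]
      ring
    rw [sum_congr rfl e, H0.sum S0 (fun u => f (gen l u (s1.dat S1)) * s1.w S1)]
    split_ifs
    · ring
    · rfl
  · have h2 : S0.card = 2 := by omega
    have ht : (s0.dat S0).1 = false := by rw [(H0.f2 S0 h2).1]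
    rw [if_neg (by rw [ht]; simp)]
    rcases Nat.lt_or_ge 2 S1.card with h' | h'
    · apply sum_two_const h2 (c := f (h1 (Rec.B l Rec.zero) (s1.dat S1)) * (1 * s1.w S1))
      intro a ha
      have hc1 : (S0.erase a).card = 1 := by rw [hc a ha]; omega
      rw [hw a ha, (H0.f1 _ hc1).2]
      unfold dd
      rw [hc1, comb_one l (by omega)]
    · have h2' : S1.card = 2 := by omega
      apply sum_two_const h2 (c := f (false, Rec.l12 l) * (1 * s1.w S1))
      intro a ha
      have hc1 : (S0.erase a).card = 1 := by rw [hc a ha]; omega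
      rw [hw a ha, (H0.f1 _ hc1).2]
      unfold dd
      rw [hc1, h2', comb_one_two]

/-- the right sum, both sides with at least two elements -/
lemma right_sum (H1 : IsLoc l x1 s1) (S0 : Finset D0) (S1 : Finset D1) (hm : 2 ≤ S0.card)
    (hn : 2 ≤ S1.card) (f : Bool × Rec → F) :
    ∑ b ∈ S1, f (dd l s0 s1 S0 (S1.erase b)) * ww s0 s1 x0 x1 S0 (S1.erase b) =
      if (s1.dat S1).1 = true then
        f (gen l (s0.dat S0) (false, (s1.dat S1).2)) * (s0.w S0 * s1.w S1) else 0 := by
  have hw : ∀ b ∈ S1, ww s0 s1 x0 x1 S0 (S1.erase b) = s0.w S0 * s1.w (S1.erase b) := by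
    intro a _
    unfold ww
    rw [if_neg (by omega)]
  have hc : ∀ b ∈ S1, (S1.erase b).card = S1.card - 1 := fun b hb => card_erase_of_mem hb
  rcases Nat.lt_or_ge 2 S1.card with h | h
  · have e : ∀ b ∈ S1, f (dd l s0 s1 S0 (S1.erase b)) * ww s0 s1 x0 x1 S0 (S1.erase b) =
        (f (gen l (s0.dat S0) (s1.dat (S1.erase b))) * s0.w S0) * s1.w (S1.erase b) := by
      intro b hb
      rw [hw b hb]
      unfold dd
      rw [comb_gen l hm (by rw [hc b hb]; omega)]
      ring
    rw [sum_congr rfl e, H1.sum S1 (fun u => f (gen l (s0.dat S0) u) * s0.w S0)]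
    split_ifs
    · ring
    · rfl
  · have h2 : S1.card = 2 := by omega
    have ht : (s1.dat S1).1 = false := by rw [(H1.f2 S1 h2).1]
    rw [if_neg (by rw [ht]; simp)]
    rcases Nat.lt_or_ge 2 S0.card with h' | h'
    · apply sum_two_const h2
        (c := f (h1 (fun r => Rec.B l r Rec.zero) (s0.dat S0)) * (s0.w S0 * 1))
      intro b hb
      have hc1 : (S1.erase b).card = 1 := by rw [hc b hb]; omega
      rw [hw b hb, (H1.f1 _ hc1).2]
      unfold dd
      rw [hc1, comb_one' l (by omega)]
    · have h2' : S0.card = 2 := by omega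
      apply sum_two_const h2 (c := f (false, Rec.l21 l) * (s0.w S0 * 1))
      intro b hb
      have hc1 : (S1.erase b).card = 1 := by rw [hc b hb]; omega
      rw [hw b hb, (H1.f1 _ hc1).2]
      unfold dd
      rw [hc1, h2', comb_two_one]

lemma gen_fst {l : ℕ} {a b : Bool × Rec} :
    (gen l a b).1 = (xor a.1 b.1) := by
  unfold gen
  obtain ⟨s, r⟩ := a
  obtain ⟨t, q⟩ := b
  cases s <;> cases t <;> simp

theorem join_sum (H0 : IsLoc l x0 s0) (H1 : IsLoc l x1 s1) (S0 : Finset D0) (S1 : Finset D1)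
    (f : Bool × Rec → F) :
    ∑ a ∈ S0, f (dd l s0 s1 (S0.erase a) S1) * ww s0 s1 x0 x1 (S0.erase a) S1 +
      ∑ b ∈ S1, f (dd l s0 s1 S0 (S1.erase b)) * ww s0 s1 x0 x1 S0 (S1.erase b) =
      if (dd l s0 s1 S0 S1).1 = true then f (false, (dd l s0 s1 S0 S1).2) *
        ww s0 s1 x0 x1 S0 S1 else 0 := by
  have hc0 : ∀ a ∈ S0, (S0.erase a).card = S0.card - 1 := fun a ha => card_erase_of_mem ha
  have hc1 : ∀ b ∈ S1, (S1.erase b).card = S1.card - 1 := fun b hb => card_erase_of_mem hb
  -- empty sides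
  rcases Nat.eq_zero_or_pos S0.card with m0 | m0
  · have e0 : S0 = ∅ := card_eq_zero.1 m0
    have hd : ∀ T : Finset D1, dd l s0 s1 S0 T = s1.dat T := by
      intro T
      unfold dd
      rw [m0, comb_zero_left]
    have hw : ∀ T : Finset D1, ww s0 s1 x0 x1 S0 T = s1.w T := by
      intro T
      unfold ww
      rw [if_neg (by omega), (H0.f0 S0 m0).2, one_mul]
    simp only [hd, hw]
    rw [e0, sum_empty, zero_add]
    exact H1.sum S1 f
  rcases Nat.eq_zero_or_pos S1.card with n0 | n0
  · have e0 : S1 = ∅ := card_eq_zero.1 n0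
    have hd : ∀ T : Finset D0, dd l s0 s1 T S1 = s0.dat T := by
      intro T
      unfold dd
      rw [n0, comb_zero_right]
      intro hT
      rw [(H0.f0 T hT).1, (H1.f0 S1 n0).1]
    have hw : ∀ T : Finset D0, ww s0 s1 x0 x1 T S1 = s0.w T := by
      intro T
      unfold ww
      rw [if_neg (by omega), (H1.f0 S1 n0).2, mul_one]
    simp only [hd, hw]
    rw [e0, sum_empty, add_zero]
    exact H0.sum S0 f
  -- one element on the left
  rcases Nat.lt_or_ge 1 S0.card with m1 | m1
  swap
  · have m1 : S0.card = 1 := by omega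
    obtain ⟨a, rfl⟩ := card_eq_one.1 m1
    rw [sum_singleton]
    have ee : ({a} : Finset D0).erase a = ∅ := by simp
    rw [ee]
    have d1 : dd l s0 s1 ∅ S1 = s1.dat S1 := by
      unfold dd
      rw [card_empty, comb_zero_left]
    have w1 : ww s0 s1 x0 x1 ∅ S1 = s1.w S1 := by
      unfold ww
      rw [if_neg (by simp), (H0.f0 ∅ rfl).2, one_mul]
    rw [d1, w1]
    rcases Nat.lt_or_ge 1 S1.card with n1 | n1
    swap
    · have n1 : S1.card = 1 := by omega
      obtain ⟨b, rfl⟩ := card_eq_one.1 n1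
      rw [sum_singleton]
      have ee' : ({b} : Finset D1).erase b = ∅ := by simp
      rw [ee']
      have d2 : dd l s0 s1 {a} ∅ = s0.dat {a} := by
        unfold dd
        rw [card_empty, comb_zero_right]
        intro h
        simp at h
      have w2 : ww s0 s1 x0 x1 {a} ∅ = s0.w {a} := by
        unfold ww
        rw [if_neg (by simp), (H1.f0 ∅ rfl).2, mul_one]
      have d3 : dd l s0 s1 {a} {b} = (false, Rec.psi) := by
        unfold dd
        rw [card_singleton, card_singleton, comb_one_one]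
      rw [d2, w2, d3, (H0.f1 {a} (card_singleton a)).1, (H0.f1 {a} (card_singleton a)).2,
        (H1.f1 {b} (card_singleton b)).1, (H1.f1 {b} (card_singleton b)).2, dup]
      simp
    rcases Nat.lt_or_ge 2 S1.card with n2 | n2
    swap
    · have n2 : S1.card = 2 := by omega
      have d3 : dd l s0 s1 {a} S1 = (false, Rec.l12 l) := by
        unfold dd
        rw [card_singleton, n2, comb_one_two]
      have e : ∀ b ∈ S1, f (dd l s0 s1 {a} (S1.erase b)) * ww s0 s1 x0 x1 {a} (S1.erase b) =
          f (false, Rec.psi) * (x0 a + ∑ c ∈ S1.erase b, x1 c) := by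
        intro b hb
        have h1 : (S1.erase b).card = 1 := by rw [hc1 b hb, n2]
        unfold dd ww
        rw [card_singleton, h1, comb_one_one, if_pos ⟨rfl, rfl⟩, sum_singleton]
      rw [sum_congr rfl e, d3, ← mul_sum, sum_add_distrib, sum_erase_two n2, sum_const, n2,
        two_nsmul, dup, zero_add, (H1.f2 S1 n2).1, (H1.f2 S1 n2).2, dup]
      simp
    have w3 : ww s0 s1 x0 x1 {a} S1 = s1.w S1 := by
      unfold ww
      rw [if_neg (by omega), (H0.f1 {a} (card_singleton a)).2, one_mul]
    have d3 : dd l s0 s1 {a} S1 = h1 (Rec.B l Rec.zero) (s1.dat S1) := by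
      unfold dd
      rw [card_singleton, comb_one l n2]
    have hw : ∀ b ∈ S1, ww s0 s1 x0 x1 {a} (S1.erase b) = s1.w (S1.erase b) := by
      intro b hb
      unfold ww
      rw [if_neg (by rw [hc1 b hb]; omega), (H0.f1 {a} (card_singleton a)).2, one_mul]
    rcases Nat.lt_or_ge 3 S1.card with n3 | n3
    swap
    · have n3 : S1.card = 3 := by omega
      have ht : (s1.dat S1).1 = false := H1.f3 S1 n3
      have e : ∀ b ∈ S1, f (dd l s0 s1 {a} (S1.erase b)) * ww s0 s1 x0 x1 {a} (S1.erase b) =
          f (false, Rec.l12 l) * (1 * s1.w (S1.erase b)) := by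
        intro b hb
        have h1 : (S1.erase b).card = 2 := by rw [hc1 b hb, n3]
        rw [hw b hb, one_mul]
        unfold dd
        rw [card_singleton, h1, comb_one_two]
      have h5 := H1.sum S1 (fun _ => 1)
      rw [sum_congr rfl e, ← mul_sum, h5, d3, w3]
      unfold h1
      rw [ht]
      simp only [Bool.false_eq_true, if_false, mul_zero, add_zero, if_true]
      have e6 : s1.dat S1 = (false, (s1.dat S1).2) := by
        rw [← ht]
      rw [e6]
    have e : ∀ b ∈ S1, f (dd l s0 s1 {a} (S1.erase b)) * ww s0 s1 x0 x1 {a} (S1.erase b) =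
        f (h1 (Rec.B l Rec.zero) (s1.dat (S1.erase b))) * s1.w (S1.erase b) := by
      intro b hb
      rw [hw b hb]
      unfold dd
      rw [card_singleton, comb_one l (by rw [hc1 b hb]; omega)]
    rw [sum_congr rfl e, H1.sum S1 (fun u => f (h1 (Rec.B l Rec.zero) u)), d3, w3]
    obtain ⟨t, r⟩ := s1.dat S1
    cases t
    · simp [h1]
    · simp [h1, dup]
  -- one element on the right
  rcases Nat.lt_or_ge 1 S1.card with n1 | n1
  swap
  · have n1 : S1.card = 1 := by omega
    obtain ⟨b, rfl⟩ := card_eq_one.1 n1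
    rw [sum_singleton]
    have ee : ({b} : Finset D1).erase b = ∅ := by simp
    rw [ee]
    have d1 : dd l s0 s1 S0 ∅ = s0.dat S0 := by
      unfold dd
      rw [card_empty, comb_zero_right]
      intro h
      omega
    have w1 : ww s0 s1 x0 x1 S0 ∅ = s0.w S0 := by
      unfold ww
      rw [if_neg (by simp), (H1.f0 ∅ rfl).2, mul_one]
    rw [d1, w1]
    rcases Nat.lt_or_ge 2 S0.card with n2 | n2
    swap
    · have n2 : S0.card = 2 := by omega
      have d3 : dd l s0 s1 S0 {b} = (false, Rec.l21 l) := by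
        unfold dd
        rw [card_singleton, n2, comb_two_one]
      have e : ∀ a ∈ S0, f (dd l s0 s1 (S0.erase a) {b}) * ww s0 s1 x0 x1 (S0.erase a) {b} =
          f (false, Rec.psi) * ((∑ c ∈ S0.erase a, x0 c) + x1 b) := by
        intro a ha
        have h1 : (S0.erase a).card = 1 := by rw [hc0 a ha, n2]
        unfold dd ww
        rw [card_singleton, h1, comb_one_one, if_pos ⟨rfl, rfl⟩, sum_singleton]
      rw [sum_congr rfl e, d3, ← mul_sum, sum_add_distrib, sum_erase_two n2, sum_const, n2,
        two_nsmul, dup, add_zero, (H0.f2 S0 n2).1, (H0.f2 S0 n2).2, dup]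
      simp
    have w3 : ww s0 s1 x0 x1 S0 {b} = s0.w S0 := by
      unfold ww
      rw [if_neg (by omega), (H1.f1 {b} (card_singleton b)).2, mul_one]
    have d3 : dd l s0 s1 S0 {b} = h1 (fun r => Rec.B l r Rec.zero) (s0.dat S0) := by
      unfold dd
      rw [card_singleton, comb_one' l n2]
    have hw : ∀ a ∈ S0, ww s0 s1 x0 x1 (S0.erase a) {b} = s0.w (S0.erase a) := by
      intro a ha
      unfold ww
      rw [if_neg (by rw [hc0 a ha]; omega), (H1.f1 {b} (card_singleton b)).2, mul_one]
    rcases Nat.lt_or_ge 3 S0.card with n3 | n3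
    swap
    · have n3 : S0.card = 3 := by omega
      have ht : (s0.dat S0).1 = false := H0.f3 S0 n3
      have e : ∀ a ∈ S0, f (dd l s0 s1 (S0.erase a) {b}) * ww s0 s1 x0 x1 (S0.erase a) {b} =
          f (false, Rec.l21 l) * (1 * s0.w (S0.erase a)) := by
        intro a ha
        have h1 : (S0.erase a).card = 2 := by rw [hc0 a ha, n3]
        rw [hw a ha, one_mul]
        unfold dd
        rw [card_singleton, h1, comb_two_one]
      have h5 := H0.sum S0 (fun _ => 1)
      rw [sum_congr rfl e, ← mul_sum, h5, d3, w3]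
      unfold h1
      rw [ht]
      simp only [Bool.false_eq_true, if_false, mul_zero, zero_add, if_true]
      have e6 : s0.dat S0 = (false, (s0.dat S0).2) := by
        rw [← ht]
      rw [e6]
    have e : ∀ a ∈ S0, f (dd l s0 s1 (S0.erase a) {b}) * ww s0 s1 x0 x1 (S0.erase a) {b} =
        f (h1 (fun r => Rec.B l r Rec.zero) (s0.dat (S0.erase a))) * s0.w (S0.erase a) := by
      intro a ha
      rw [hw a ha]
      unfold dd
      rw [card_singleton, comb_one' l (by rw [hc0 a ha]; omega)]
    rw [sum_congr rfl e, H0.sum S0 (fun u => f (h1 (fun r => Rec.B l r Rec.zero) u)), d3, w3]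
    obtain ⟨t, r⟩ := s0.dat S0
    cases t
    · simp [h1]
    · simp [h1, dup]
  -- the generic case
  rw [left_sum H0 S0 S1 (by omega) (by omega) f, right_sum H1 S0 S1 (by omega) (by omega) f]
  have d3 : dd l s0 s1 S0 S1 = gen l (s0.dat S0) (s1.dat S1) := by
    unfold dd
    rw [comb_gen l (by omega) (by omega)]
  have w3 : ww s0 s1 x0 x1 S0 S1 = s0.w S0 * s1.w S1 := by
    unfold ww
    rw [if_neg (by omega)]
  rw [d3, w3]
  obtain ⟨t, r⟩ := s0.dat S0
  obtain ⟨t', r'⟩ := s1.dat S1
  cases t <;> cases t' <;> simp [gen, dup]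

end Pool.Agent.H62.ZN
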