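import Mathlib
import Pool.Agent.H62.ZN.JoinSum
import Pool.Agent.H62.ZN.JoinCnt

/-!
# MP_07f90a_co: the structure on the union of two halves
-/

set_option autoImplicit false

namespace Pool.Agent.H62.ZN

open Finset

theorem join_isLoc {D0 D1 F : Type} [DecidableEq D0] [DecidableEq D1] [Field F] [CharP F 2] {l : ℕ}
    {x : D0 ⊕ D1 → F} (hx : Function.Injective x) {s0 : Str D0 F} {s1 : Str D1 F}
    (H0 : IsLoc l (fun d => x (Sum.inl d)) s0) (H1 : IsLoc l (fun d => x (Sum.inr d)) s1) :
    IsLoc (l + 1) x (s0.join l s1 x) := by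
  -- reduction to pairs of sets
  have hP : ∀ P : Finset (D0 ⊕ D1), ∃ (S0 : Finset D0) (S1 : Finset D1), P = S0.disjSum S1 :=
    fun P => ⟨P.toLeft, P.toRight, toLeft_disjSum_toRight.symm⟩
  have hone : ∀ {S0 : Finset D0} {S1 : Finset D1}, S0.card + S1.card = 1 →
      dd l s0 s1 S0 S1 = (true, Rec.zero) := by
    intro S0 S1 h
    unfold dd
    rcases Nat.eq_zero_or_pos S0.card with e | e
    · rw [e, comb_zero_left]
      exact (H1.f1 S1 (by omega)).1
    · have e' : S1.card = 0 := by omega
      rw [e', comb_zero_right]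
      · exact (H0.f1 S0 (by omega)).1
      · intro; omega
  have hlow : ∀ (S0 : Finset D0) (S1 : Finset D1), S0.card + S1.card = 3 →
      (dd l s0 s1 S0 S1).1 = false := by
    intro S0 S1 h
    unfold dd
    rcases Nat.eq_zero_or_pos S0.card with e | e
    · rw [e, comb_zero_left]
      exact H1.f3 S1 (by omega)
    rcases Nat.eq_zero_or_pos S1.card with e' | e'
    · rw [e', comb_zero_right]
      · exact H0.f3 S0 (by omega)
      · intro; omega
    rcases (by omega : S0.card = 1 ∧ S1.card = 2 ∨ S0.card = 2 ∧ S1.card = 1) with ⟨a, b⟩ | ⟨a, b⟩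
    · rw [a, b, comb_one_two]
    · rw [a, b, comb_two_one]
  refine ⟨?_, ?_, ?_, ?_, ?_, ?_, ?_, ?_, ?_, ?_⟩
  · -- f0
    intro P h
    have hPe : P = ∅ := card_eq_zero.1 h
    obtain ⟨S0, S1, rfl⟩ := hP P
    rw [card_disjSum] at h
    rw [join_dat, join_w]
    unfold dd ww
    rw [if_neg (by omega)]
    have e0 : S0.card = 0 := by omega
    have e1 : S1.card = 0 := by omega
    rw [e0, comb_zero_left, (H1.f0 S1 e1).1, (H1.f0 S1 e1).2, (H0.f0 S0 e0).2]
    simp
  · -- f1
    intro P h
    obtain ⟨S0, S1, rfl⟩ := hP P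
    rw [card_disjSum] at h
    rw [join_dat, join_w, hone h]
    refine ⟨rfl, ?_⟩
    unfold ww
    rw [if_neg (by omega)]
    rcases Nat.eq_zero_or_pos S0.card with e | e
    · rw [(H0.f0 S0 e).2, (H1.f1 S1 (by omega)).2, one_mul]
    · rw [(H0.f1 S0 (by omega)).2, (H1.f0 S1 (by omega)).2, one_mul]
  · -- f2
    intro P h
    obtain ⟨S0, S1, rfl⟩ := hP P
    rw [card_disjSum] at h
    rw [join_dat, join_w, sum_disjSum]
    unfold dd ww
    rcases Nat.eq_zero_or_pos S0.card with e | e
    · rw [e, comb_zero_left, if_neg (by omega), (H0.f0 S0 e).2, (H1.f2 S1 (by omega)).1,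
        (H1.f2 S1 (by omega)).2, card_eq_zero.1 e, sum_empty]
      simp
    rcases Nat.eq_zero_or_pos S1.card with e' | e'
    · rw [e', comb_zero_right _ _ _ _ (by omega), if_neg (by omega), (H1.f0 S1 e').2,
        (H0.f2 S0 (by omega)).1, (H0.f2 S0 (by omega)).2, card_eq_zero.1 e', sum_empty]
      simp
    · have a : S0.card = 1 := by omega
      have b : S1.card = 1 := by omega
      rw [a, b, comb_one_one, if_pos ⟨rfl, rfl⟩]
      exact ⟨rfl, rfl⟩
  · -- f3
    intro P h
    obtain ⟨S0, S1, rfl⟩ := hP P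
    rw [card_disjSum] at h
    rw [join_dat]
    exact hlow S0 S1 h
  · -- lev
    intro P
    obtain ⟨S0, S1, rfl⟩ := hP P
    rw [join_dat]
    have k0 := H0.lev S0
    have k1 := H1.lev S1
    unfold dd comb h1 gen
    split_ifs <;> first | exact Nat.le_succ_of_le k1 | exact Nat.le_succ_of_le k0 | simp [Rec.lev]
  · -- size
    intro P
    obtain ⟨S0, S1, rfl⟩ := hP P
    rw [join_dat, card_disjSum]
    have k0 := H0.size S0
    have k1 := H1.size S1
    rcases Nat.eq_zero_or_pos S0.card with e | e
    · unfold dd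
      rw [e, comb_zero_left, k1, zero_add]
    rcases Nat.eq_zero_or_pos S1.card with e' | e'
    · unfold dd
      rw [e', comb_zero_right _ _ _ _ (by omega), k0, add_zero]
    rcases Nat.lt_or_ge 1 S0.card with m1 | m1
    swap
    · have m1 : S0.card = 1 := by omega
      unfold dd
      rw [m1]
      rcases Nat.lt_or_ge 1 S1.card with n1 | n1
      swap
      · have n1 : S1.card = 1 := by omega
        rw [n1, comb_one_one]
        simp [Rec.size]
      rcases Nat.lt_or_ge 2 S1.card with n2 | n2
      swap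
      · have n2 : S1.card = 2 := by omega
        rw [n2, comb_one_two]
        simp [Rec.size]
      rw [comb_one l n2]
      unfold h1
      cases ht : (s1.dat S1).1 <;> simp [ht, Rec.size] at k1 ⊢ <;> omega
    rcases Nat.lt_or_ge 1 S1.card with n1 | n1
    swap
    · have n1 : S1.card = 1 := by omega
      unfold dd
      rw [n1]
      rcases Nat.lt_or_ge 2 S0.card with n2 | n2
      swap
      · have n2 : S0.card = 2 := by omega
        rw [n2, comb_two_one]
        simp [Rec.size]
      rw [comb_one' l n2]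
      unfold h1
      cases ht : (s0.dat S0).1 <;> simp [ht, Rec.size] at k0 ⊢ <;> omega
    unfold dd
    rw [comb_gen l m1 n1]
    unfold gen
    cases ht : (s0.dat S0).1 <;> cases ht' : (s1.dat S1).1 <;>
      simp [ht, ht', Rec.size] at k0 k1 ⊢ <;> omega
  · -- wne
    intro P
    obtain ⟨S0, S1, rfl⟩ := hP P
    rw [join_w]
    unfold ww
    split_ifs with h
    · obtain ⟨a, rfl⟩ := card_eq_one.1 h.1
      obtain ⟨b, rfl⟩ := card_eq_one.1 h.2
      rw [sum_singleton, sum_singleton]
      intro h5
      have h6 : x (Sum.inl a) = x (Sum.inr b) := by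
        have := eq_neg_of_add_eq_zero_left h5
        rwa [CharTwo.neg_eq] at this
      have := hx h6
      simp at this
    · exact mul_ne_zero (H0.wne S0) (H1.wne S1)
  · -- sum
    intro S f
    obtain ⟨S0, S1, rfl⟩ := hP S
    rw [sum_disjSum, join_dat, join_w, ← join_sum H0 H1 S0 S1 f]
    congr 1
    · apply sum_congr rfl
      intro a _
      rw [erase_inl, join_dat, join_w]
    · apply sum_congr rfl
      intro b _
      rw [erase_inr, join_dat, join_w]
  · -- cnt
    intro S u
    obtain ⟨S0, S1, rfl⟩ := hP S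
    have h := (join_cnt H0 H1 S0 S1 u).1
    rw [card_filter, sum_disjSum]
    rw [card_filter, card_filter] at h
    refine le_trans (le_of_eq ?_) h
    congr 1
    · apply sum_congr rfl
      intro a _
      rw [erase_inl, join_dat]
    · apply sum_congr rfl
      intro b _
      rw [erase_inr, join_dat]
  · -- cnt0
    intro S
    obtain ⟨S0, S1, rfl⟩ := hP S
    have h := (join_cnt H0 H1 S0 S1 (false, (dd l s0 s1 S0 S1).2)).2 rfl
    rw [card_filter, sum_disjSum, join_dat]
    rw [card_filter, card_filter] at h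
    refine le_trans (le_of_eq ?_) h
    congr 1
    · apply sum_congr rfl
      intro a _
      rw [erase_inl, join_dat]
    · apply sum_congr rfl
      intro b _
      rw [erase_inr, join_dat]

end Pool.Agent.H62.ZN
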