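import Mathlib
import Pool.Agent.H62.ZN.Cells0
import Pool.Agent.H62.ZN.Good

/-!
# JOB ZN-6 (MP_07f90a_co): adding an element in an empty cell changes the parity

`parity_step`: the map `(y, p) ↦ Fin.cons p y`, for `y` good with an even number of exposed cells and `p`
with `p.1 ≠ (y i).1` for all `i`, is injective into the good sequences of length `k + 1` with an
odd number of exposed cells: the content of the cell `p.1` in the image of `y` is empty, of type
`false` (`Loc.empty`), and in the image of `Fin.cons p y` it is `{p.2}`, of type `true`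
(`Loc.single`); the other contents are the same; so `expo` changes by `insert p.1`.  For every `y`
there are at least `(N - k) * card D ≥ N * card D / 2` elements `p`.

`card_cont`: the content of `c` in the image of an injective `y` has as many elements as there
are `i` with `(y i).1 = c`.
-/

set_option autoImplicit false

namespace Pool.Agent.H62.ZN

open Finset

variable {N : ℕ} {D F : Type} [Fintype D] [DecidableEq D] [Field F]

theorem card_cont {k : ℕ} {y : Fin k → Fin N × D} (hy : Function.Injective y) (c : Fin N) :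
    (cont (univ.image y) c).card = (univ.filter (fun i => (y i).1 = c)).card := by
  have h : cont (univ.image y) c = (univ.filter (fun i => (y i).1 = c)).image (fun i => (y i).2) := by
    ext d
    rw [mem_cont, mem_image, mem_image]
    constructor
    · rintro ⟨i, -, hi⟩
      exact ⟨i, by simp [hi], by simp [hi]⟩
    · rintro ⟨i, hi, hd⟩
      rw [mem_filter] at hi
      exact ⟨i, mem_univ _, Prod.ext hi.2 hd⟩
  rw [h, card_image_of_injOn]
  intro i hi i' hi' hd
  rw [mem_coe, mem_filter] at hi hi'
  exact hy (Prod.ext (hi.2.trans hi'.2.symm) hd)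

omit [Fintype D] in
lemma parity_image {k : ℕ} (y : Fin k → Fin N × D) (p : Fin N × D) :
    univ.image (Fin.cons p y : Fin (k + 1) → Fin N × D) = insert p (univ.image y) := by
  ext q
  simp only [mem_image, mem_univ, true_and, mem_insert]
  constructor
  · rintro ⟨i, hi⟩
    refine Fin.cases (fun h => ?_) (fun j h => ?_) i hi
    · left
      rw [Fin.cons_zero] at h
      exact h.symm
    · right
      rw [Fin.cons_succ] at h
      exact ⟨j, h⟩
  · rintro (h | ⟨j, h⟩)
    · exact ⟨0, by rw [Fin.cons_zero]; exact h.symm⟩
    · exact ⟨j.succ, by rw [Fin.cons_succ]; exact h⟩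

lemma parity_cont_same {E : Finset (Fin N × D)} {p : Fin N × D} (hp : ∀ q ∈ E, p.1 ≠ q.1) :
    cont E p.1 = ∅ ∧ cont (insert p E) p.1 = {p.2} := by
  constructor
  · ext d
    rw [mem_cont]
    constructor
    · intro h
      exact (hp (p.1, d) h rfl).elim
    · intro h
      exact absurd h (notMem_empty _)
  · ext d
    rw [mem_cont, mem_insert, mem_singleton]
    constructor
    · rintro (h | h)
      · rw [← h]
      · exact (hp (p.1, d) h rfl).elim
    · intro h
      left
      rw [h]

lemma parity_cont_ne {E : Finset (Fin N × D)} {p : Fin N × D} {c : Fin N} (hc : c ≠ p.1) :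
    cont (insert p E) c = cont E c := by
  ext d
  rw [mem_cont, mem_cont, mem_insert]
  constructor
  · rintro (h | h)
    · exact absurd (congrArg Prod.fst h) hc
    · exact h
  · intro h
    exact Or.inr h

lemma parity_expo {s : Str D F} (hs : Loc s) {E : Finset (Fin N × D)} {p : Fin N × D}
    (hp : ∀ q ∈ E, p.1 ≠ q.1) :
    (expo s (insert p E)).card = (expo s E).card + 1 := by
  obtain ⟨h1, h2⟩ := parity_cont_same hp
  have hn : p.1 ∉ expo s E := by
    rw [expo, mem_filter, h1, hs.empty]
    simp
  rw [← card_insert_of_notMem hn]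
  congr 1
  ext c
  rw [mem_insert, expo, expo, mem_filter, mem_filter]
  by_cases hc : c = p.1
  · rw [hc, h2, hs.single]
    simp
  · rw [parity_cont_ne hc]
    simp [hc]

lemma parity_good {J k : ℕ} (hJ : 1 ≤ J) {y : Fin k → Fin N × D} (hy : Good J y)
    {p : Fin N × D} (hp : ∀ q ∈ univ.image y, p.1 ≠ q.1) :
    Good J (Fin.cons p y : Fin (k + 1) → Fin N × D) := by
  have hi : Function.Injective (Fin.cons p y : Fin (k + 1) → Fin N × D) := by
    rw [Fin.cons_injective_iff]
    refine ⟨?_, hy.1⟩
    rintro ⟨i, h⟩
    exact hp p (mem_image.2 ⟨i, mem_univ _, h⟩) rfl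
  refine ⟨hi, ?_⟩
  intro c
  rw [← card_cont hi c, parity_image]
  by_cases hc : c = p.1
  · rw [hc, (parity_cont_same hp).2, card_singleton]
    exact hJ
  · rw [parity_cont_ne hc, card_cont hy.1 c]
    exact hy.2 c

open Classical in
theorem parity_step {s : Str D F} (hs : Loc s) {J k : ℕ} (hJ : 1 ≤ J) (hN : 2 * k ≤ N) :
    (N * Fintype.card D) * (univ.filter (fun y : Fin k → Fin N × D =>
        Good J y ∧ (expo s (univ.image y)).card % 2 = 0)).card ≤
      2 * (univ.filter (fun y : Fin (k + 1) → Fin N × D =>
        Good J y ∧ (expo s (univ.image y)).card % 2 = 1)).card := by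
  set A := univ.filter (fun y : Fin k → Fin N × D =>
        Good J y ∧ (expo s (univ.image y)).card % 2 = 0) with hA
  set B := univ.filter (fun y : Fin (k + 1) → Fin N × D =>
        Good J y ∧ (expo s (univ.image y)).card % 2 = 1) with hB
  let P : (Fin k → Fin N × D) → Finset (Fin N × D) := fun y =>
    (univ \ univ.image (fun i => (y i).1)) ×ˢ (univ : Finset D)
  have hP : ∀ y, N * Fintype.card D ≤ 2 * (P y).card := by
    intro y
    have h1 : (P y).card = (N - (univ.image (fun i => (y i).1)).card) * Fintype.card D := by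
      rw [card_product, card_sdiff_of_subset (subset_univ _), card_univ, Fintype.card_fin, card_univ]
    have h2 : (univ.image (fun i => (y i).1)).card ≤ k := by
      refine card_image_le.trans ?_
      rw [card_univ, Fintype.card_fin]
    rw [h1, ← mul_assoc]
    refine Nat.mul_le_mul_right _ ?_
    omega
  have hPm : ∀ y p, p ∈ P y → ∀ q ∈ univ.image y, p.1 ≠ q.1 := by
    intro y p hp q hq h
    rw [mem_product, mem_sdiff] at hp
    rw [mem_image] at hq
    obtain ⟨i, -, hi⟩ := hq
    exact hp.1.2 (mem_image.2 ⟨i, mem_univ _, by rw [h, ← hi]⟩)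
  have hle : (A.sigma P).card ≤ B.card := by
    refine card_le_card_of_injOn
      (fun z => (Fin.cons z.2 z.1 : Fin (k + 1) → Fin N × D)) ?_ ?_
    · rintro ⟨y, p⟩ hz
      have hz' := mem_sigma.1 (mem_coe.1 hz)
      obtain ⟨hy, hp⟩ := hz'
      simp only at hy hp
      rw [hA, mem_filter] at hy
      rw [mem_coe, hB, mem_filter]
      refine ⟨mem_univ _, parity_good hJ hy.2.1 (hPm y p hp), ?_⟩
      simp only
      rw [parity_image, parity_expo hs (hPm y p hp)]
      have := hy.2.2
      omega
    · rintro ⟨y, p⟩ - ⟨y', p'⟩ - h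
      simp only at h
      obtain ⟨h1, h2⟩ := Fin.cons_inj.1 h
      rw [h1, h2]
  rw [card_sigma] at hle
  calc N * Fintype.card D * A.card = ∑ _y ∈ A, N * Fintype.card D := by
        rw [sum_const, smul_eq_mul, mul_comm]
    _ ≤ ∑ y ∈ A, 2 * (P y).card := sum_le_sum (fun y _ => hP y)
    _ = 2 * ∑ y ∈ A, (P y).card := by rw [mul_sum]
    _ ≤ 2 * B.card := Nat.mul_le_mul_left 2 hle

end Pool.Agent.H62.ZN
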