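import Mathlib
import Pool.Agent.H62.ZN.Defs

/-!
# JOB ZN-7 (MP_07f90a_co): the records of small sets

* `rec_mem`: induction on `l` (for all `j`).  `P` has `m` elements in the left half and `n` in the
  right half (`Finset.card_toLeft_add_card_toRight` or similar), `m + n ≤ j + 3`.  Go through the cases of `comb`: if
  `m = 0` or `n = 0` use induction (monotonicity of `RR L` is not needed: the other half has the
  same number of elements); `(1, 1)`, `(1, 2)`, `(2, 1)`: `psi`, `l12 l`, `l21 l` are in `RR L 0`,
  which is contained in `RR L j`.  In the other cases `m + n ≥ 4`, so `j ≥ 1`, and both halves have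
  at most `(j - 1) + 3` elements, so their records are in `RR L (j - 1)`.
  For `l = 0` the record is `zero`.
* `card_RR`: `card (RR L 0) ≤ 2 L + 2`, `card (RR L (j + 1)) ≤ c + 2 L c ^ 2 ≤ (2 L + 2) c ^ 2` for
  `c = card (RR L j) ≥ 1`; prove `card (RR L j) * (2 L + 2) ≤ (2 L + 2) ^ (2 ^ (j + 1))` by induction.
-/

set_option autoImplicit false

namespace Pool.Agent.H62.ZN

open Finset

lemma records_sub_succ (L j : ℕ) : RR L j ⊆ RR L (j + 1) := by
  rw [RR]
  exact subset_union_left

lemma records_sub_zero (L j : ℕ) : RR L 0 ⊆ RR L j := by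
  induction j with
  | zero => exact subset_rfl
  | succ j ih => exact ih.trans (records_sub_succ L j)

lemma records_zero_mem (L j : ℕ) : Rec.zero ∈ RR L j := by
  apply records_sub_zero
  rw [RR]
  simp

lemma records_psi_mem (L j : ℕ) : Rec.psi ∈ RR L j := by
  apply records_sub_zero
  rw [RR]
  simp

lemma records_l12_mem {L l : ℕ} (j : ℕ) (hl : l < L) : Rec.l12 l ∈ RR L j := by
  apply records_sub_zero
  rw [RR]
  simp [hl]

lemma records_l21_mem {L l : ℕ} (j : ℕ) (hl : l < L) : Rec.l21 l ∈ RR L j := by
  apply records_sub_zero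
  rw [RR]
  simp [hl]

lemma records_A_mem {L l j : ℕ} (hl : l < L) {a b : Rec} (ha : a ∈ RR L j) (hb : b ∈ RR L j) :
    Rec.A l a b ∈ RR L (j + 1) := by
  rw [RR, mem_union, mem_union]
  right; left
  rw [mem_image]
  refine ⟨(l, a, b), ?_, rfl⟩
  rw [mem_product, mem_product, mem_range]
  exact ⟨hl, ha, hb⟩

lemma records_B_mem {L l j : ℕ} (hl : l < L) {a b : Rec} (ha : a ∈ RR L j) (hb : b ∈ RR L j) :
    Rec.B l a b ∈ RR L (j + 1) := by
  rw [RR, mem_union, mem_union]
  right; right
  rw [mem_image]
  refine ⟨(l, a, b), ?_, rfl⟩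
  rw [mem_product, mem_product, mem_range]
  exact ⟨hl, ha, hb⟩

lemma records_comb_mem {L l m n j : ℕ} {a b : Bool × Rec} (hl : l < L) (hmn : m + n ≤ j + 3)
    (ha : ∀ i, m ≤ i + 3 → a.2 ∈ RR L i) (hb : ∀ i, n ≤ i + 3 → b.2 ∈ RR L i) :
    (comb l m n a b).2 ∈ RR L j := by
  unfold comb
  by_cases hm0 : m = 0
  · rw [if_pos hm0]
    exact hb j (by omega)
  rw [if_neg hm0]
  by_cases hn0 : n = 0
  · rw [if_pos hn0]
    exact ha j (by omega)
  rw [if_neg hn0]
  by_cases hm1 : m = 1
  · rw [if_pos hm1]
    by_cases hn1 : n = 1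
    · rw [if_pos hn1]
      exact records_psi_mem L j
    rw [if_neg hn1]
    by_cases hn2 : n = 2
    · rw [if_pos hn2]
      exact records_l12_mem j hl
    rw [if_neg hn2]
    unfold h1
    split_ifs
    · obtain ⟨i, rfl⟩ : ∃ i, j = i + 1 := ⟨j - 1, by omega⟩
      exact records_B_mem hl (records_zero_mem L i) (hb i (by omega))
    · exact hb j (by omega)
  rw [if_neg hm1]
  by_cases hn1 : n = 1
  · rw [if_pos hn1]
    by_cases hm2 : m = 2
    · rw [if_pos hm2]
      exact records_l21_mem j hl
    rw [if_neg hm2]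
    unfold h1
    split_ifs
    · obtain ⟨i, rfl⟩ : ∃ i, j = i + 1 := ⟨j - 1, by omega⟩
      exact records_B_mem hl (ha i (by omega)) (records_zero_mem L i)
    · exact ha j (by omega)
  rw [if_neg hn1]
  obtain ⟨i, rfl⟩ : ∃ i, j = i + 1 := ⟨j - 1, by omega⟩
  unfold gen
  split_ifs
  · exact records_B_mem hl (ha i (by omega)) (hb i (by omega))
  · exact records_A_mem hl (ha i (by omega)) (hb i (by omega))

theorem rec_mem {F : Type} [Field F] {L : ℕ} (j l : ℕ) (hl : l ≤ L) (x : Tree l → F)
    (P : Finset (Tree l)) (hP : P.card ≤ j + 3) : ((str l x).dat P).2 ∈ RR L j := by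
  induction l generalizing j with
  | zero => exact records_zero_mem L j
  | succ l ih =>
    have hcard : (Finset.toLeft (α := Tree l) (β := Tree l) P).card +
        (Finset.toRight (α := Tree l) (β := Tree l) P).card = P.card :=
      Finset.card_toLeft_add_card_toRight (α := Tree l) (β := Tree l) (u := P)
    exact records_comb_mem (Nat.lt_of_succ_le hl) (by omega)
      (fun i hi => ih i (Nat.le_of_succ_le hl) _ _ hi)
      (fun i hi => ih i (Nat.le_of_succ_le hl) _ _ hi)

theorem card_RR (L j : ℕ) : (RR L j).card ≤ (2 * L + 2) ^ (2 ^ (j + 1)) := by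
  have key : (RR L j).card * (2 * L + 2) ≤ (2 * L + 2) ^ (2 ^ (j + 1)) := by
    induction j with
    | zero =>
      have h1 : (RR L 0).card ≤ 2 * L + 2 := by
        rw [RR]
        refine (card_insert_le _ _).trans ?_
        have h2 := card_insert_le Rec.psi ((range L).image Rec.l12 ∪ (range L).image Rec.l21)
        have h3 := card_union_le ((range L).image Rec.l12) ((range L).image Rec.l21)
        have h4 := card_image_le (s := range L) (f := Rec.l12)
        have h5 := card_image_le (s := range L) (f := Rec.l21)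
        rw [card_range] at h4 h5
        omega
      have e : (2 * L + 2) ^ (2 ^ (0 + 1)) = (2 * L + 2) * (2 * L + 2) := by ring
      rw [e]
      exact Nat.mul_le_mul_right _ h1
    | succ j ih =>
      obtain ⟨c, hc⟩ : ∃ c, c = (RR L j).card := ⟨_, rfl⟩
      have hc1 : 1 ≤ c := by
        rw [hc]
        exact card_pos.mpr ⟨_, records_zero_mem L j⟩
      have h1 : (RR L (j + 1)).card ≤ c + (L * (c * c) + L * (c * c)) := by
        rw [RR]
        refine (card_union_le _ _).trans ?_
        rw [← hc]
        refine Nat.add_le_add_left ((card_union_le _ _).trans ?_) _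
        refine Nat.add_le_add ?_ ?_
        · refine card_image_le.trans ?_
          rw [card_product, card_product, card_range, hc]
        · refine card_image_le.trans ?_
          rw [card_product, card_product, card_range, hc]
      have h2 : c ≤ c * c := Nat.le_mul_of_pos_left c hc1
      have h3 : c + (L * (c * c) + L * (c * c)) ≤ (2 * L + 2) * (c * c) := by
        have : (2 * L + 2) * (c * c) = 2 * (c * c) + (L * (c * c) + L * (c * c)) := by ring
        omega
      calc (RR L (j + 1)).card * (2 * L + 2) ≤ ((2 * L + 2) * (c * c)) * (2 * L + 2) :=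
            Nat.mul_le_mul_right _ (h1.trans h3)
        _ = (c * (2 * L + 2)) ^ 2 := by ring
        _ ≤ ((2 * L + 2) ^ (2 ^ (j + 1))) ^ 2 := by
            rw [hc]
            exact Nat.pow_le_pow_left ih 2
        _ = (2 * L + 2) ^ (2 ^ (j + 1 + 1)) := by
            rw [← pow_mul]
            congr 1
  exact (Nat.le_mul_of_pos_right _ (by omega)).trans key

/-- An injective labelling of a finite set of records. -/
theorem exists_lam (R : Finset Rec) : ∃ lam : Rec → ℕ,
    (∀ a ∈ R, ∀ b ∈ R, lam a = lam b → a = b) ∧ ∀ a ∈ R, lam a < R.card := by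
  classical
  refine ⟨fun a => if h : a ∈ R then (R.equivFin ⟨a, h⟩ : ℕ) else 0, ?_, ?_⟩
  · intro a ha b hb hab
    dsimp only at hab
    rw [dif_pos ha, dif_pos hb] at hab
    have h1 := R.equivFin.injective (Fin.ext hab)
    exact congrArg Subtype.val h1
  · intro a ha
    dsimp only
    rw [dif_pos ha]
    exact (R.equivFin ⟨a, ha⟩).isLt

end Pool.Agent.H62.ZN
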