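import Mathlib
import Pool.Agent.H62.ZN.Join

/-!
# JOB ZN-8 (MP_07f90a_co): the structure on the tree

* `IsLoc.toLoc`: `wne`, `empty`, `single` are clear.  Let `t = (s.dat S).1`, `r = (s.dat S).2`.
  If `v ∈ S` and the record of `S.erase v` is `r`, then `IsLoc.size` for `S` and `S.erase v` (which has
  `S.card - 1` elements) gives `t = true` and type `false` for `S.erase v`.  This is `non`.
  `ex`: `IsLoc.sum` with `f = indicator of (false, r)` gives that the sum of the weights over the
  `v` with `s.dat (S.erase v) = (false, r)` is `s.w S ≠ 0`, so there is such a `v`, it is unique by `cnt0`,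
  and its weight is `s.w S`; any `v` with record `r` has type `false` by the above.
  `grp`: `IsLoc.sum` with `f = indicator of u`, and `cnt`.
* `str_isLoc`: induction with `join_isLoc`; for `l = 0` a set `P` of leaves has at most one element.
-/

set_option autoImplicit false

namespace Pool.Agent.H62.ZN

open Finset

lemma TreeLoc_key {D F : Type} [DecidableEq D] [Field F] {l : ℕ} {x : D → F} {s : Str D F}
    (h : IsLoc l x s) (S : Finset D) (v : D) (hv : v ∈ S)
    (he : (s.dat (S.erase v)).2 = (s.dat S).2) :
    (s.dat S).1 = true ∧ (s.dat (S.erase v)).1 = false := by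
  have h1 := h.size S
  have h2 := h.size (S.erase v)
  rw [he, Finset.card_erase_of_mem hv] at h2
  have h3 : 0 < S.card := Finset.card_pos.2 ⟨v, hv⟩
  cases ht : (s.dat S).1 <;> cases ht' : (s.dat (S.erase v)).1 <;>
    simp only [ht, ht', Bool.false_eq_true, if_true, if_false] at h1 h2 <;> simp <;> omega

lemma TreeLoc_sum {D F : Type} [DecidableEq D] [Field F] {l : ℕ} {x : D → F} {s : Str D F}
    (h : IsLoc l x s) (S : Finset D) (u : Bool × Rec) :
    ∑ v ∈ S.filter (fun v => s.dat (S.erase v) = u), s.w (S.erase v) =
      if (s.dat S).1 = true then (if (false, (s.dat S).2) = u then 1 else 0) * s.w S else 0 := by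
  have h1 := h.sum S (fun u' => if u' = u then 1 else 0)
  rw [← h1, Finset.sum_filter]
  refine Finset.sum_congr rfl fun v _ => ?_
  split_ifs <;> simp

theorem IsLoc.toLoc {D F : Type} [DecidableEq D] [Field F] {l : ℕ} {x : D → F} {s : Str D F}
    (h : IsLoc l x s) : Loc s where
  wne := h.wne
  empty := (h.f0 ∅ rfl).1
  single := fun d => (h.f1 {d} (Finset.card_singleton d)).1
  ex := by
    intro S ht
    have h1 := TreeLoc_sum h S (false, (s.dat S).2)
    rw [if_pos ht, if_pos rfl, one_mul] at h1
    have h2 := h.cnt0 S
    have h3 : (S.filter (fun v => s.dat (S.erase v) = (false, (s.dat S).2))).Nonempty := by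
      rw [Finset.nonempty_iff_ne_empty]
      intro h4
      rw [h4, Finset.sum_empty] at h1
      exact h.wne S h1.symm
    obtain ⟨m, hm⟩ := Finset.card_eq_one.1 (le_antisymm h2 (Finset.card_pos.2 h3))
    have hmm : m ∈ S.filter (fun v => s.dat (S.erase v) = (false, (s.dat S).2)) := by
      rw [hm]
      exact Finset.mem_singleton_self m
    rw [hm, Finset.sum_singleton] at h1
    obtain ⟨hmS, hmd⟩ := Finset.mem_filter.1 hmm
    refine ⟨m, hmS, hmd, h1, fun v hv he => ?_⟩
    have h5 := TreeLoc_key h S v hv he
    have h6 : v ∈ S.filter (fun v => s.dat (S.erase v) = (false, (s.dat S).2)) :=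
      Finset.mem_filter.2 ⟨hv, Prod.ext h5.2 he⟩
    rw [hm] at h6
    exact Finset.mem_singleton.1 h6
  non := by
    intro S ht v hv he
    have h5 := (TreeLoc_key h S v hv he).1
    rw [ht] at h5
    exact Bool.false_ne_true h5
  grp := by
    intro S u hu
    refine ⟨h.cnt S u, ?_⟩
    rw [TreeLoc_sum h S u]
    split_ifs with h1 h2
    · exact absurd (by rw [← h2]) hu
    · rw [zero_mul]
    · rfl

lemma TreeLoc_card (P : Finset (Tree 0)) : P.card ≤ 1 := by
  have h : Fintype.card (Tree 0) = 1 := rfl
  rw [← h]
  exact Finset.card_le_univ P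

theorem str_isLoc {F : Type} [Field F] [CharP F 2] (l : ℕ) (x : Tree l → F)
    (hx : Function.Injective x) : IsLoc l x (str l x) := by
  induction l with
  | zero =>
    have hd : ∀ P : Finset (Tree 0), (str 0 x).dat P = (decide (P.card = 1), Rec.zero) :=
      fun P => rfl
    have hw : ∀ P : Finset (Tree 0), (str 0 x).w P = 1 := fun P => rfl
    refine ⟨?_, ?_, ?_, ?_, ?_, ?_, ?_, ?_, ?_, ?_⟩
    · intro P hP
      rw [hd, hw, hP]
      exact ⟨rfl, rfl⟩
    · intro P hP
      rw [hd, hw, hP]
      exact ⟨rfl, rfl⟩
    · intro P hP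
      have := TreeLoc_card P
      omega
    · intro P hP
      have := TreeLoc_card P
      omega
    · intro P
      rw [hd]
      exact le_refl 0
    · intro P
      have := TreeLoc_card P
      rw [hd]
      show 0 + _ = _
      simp only [decide_eq_true_eq]
      split_ifs <;> omega
    · intro P
      rw [hw]
      exact one_ne_zero
    · intro S f
      rcases Nat.lt_or_ge S.card 1 with h | h
      · have h0 : S.card = 0 := by omega
        rw [hd, h0]
        rw [Finset.card_eq_zero.1 h0, Finset.sum_empty]
        rfl
      · have h1 : S.card = 1 := le_antisymm (TreeLoc_card S) h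
        obtain ⟨a, ha⟩ := Finset.card_eq_one.1 h1
        have he : S.erase a = ∅ := by
          rw [ha, Finset.erase_singleton]
        have hs : ∑ v ∈ S, f ((str 0 x).dat (S.erase v)) * (str 0 x).w (S.erase v) =
            f ((str 0 x).dat (S.erase a)) * (str 0 x).w (S.erase a) := by
          conv_lhs => rw [ha]
          rw [Finset.sum_singleton, ← ha]
        rw [hs, hd, hd, hw, hw, h1, he]
        rfl
    · intro S u
      exact (Finset.card_le_card (Finset.filter_subset _ _)).trans
        ((TreeLoc_card S).trans (by norm_num))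
    · intro S
      exact (Finset.card_le_card (Finset.filter_subset _ _)).trans (TreeLoc_card S)
  | succ l ih =>
    exact join_isLoc (D0 := Tree l) (D1 := Tree l) hx
      (ih (fun d => x (Sum.inl d)) (fun a b hab => Sum.inl_injective (hx hab)))
      (ih (fun d => x (Sum.inr d)) (fun a b hab => Sum.inr_injective (hx hab)))

end Pool.Agent.H62.ZN
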