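import Mathlib
import Pool.Agent.H62.ZN.EdgeDense
import Pool.Agent.H62.ZN.Parity
import Pool.Agent.H62.ZN.Records
import Pool.Agent.H62.ZN.TreeLoc

/-!
# JOB ZN-10 (MP_07f90a_co): assembly of the density theorem

`D = Tree L`, `card D = 2 ^ L` (`card_tree`); `exists_field (2 ^ L)` and
`Function.Embedding.nonempty_of_card_le` give a field `F` and an injective `x : Tree L → F`;
`s = str L x` satisfies `Loc` (`str_isLoc`, `IsLoc.toLoc`); `R = RR L J`, `lam` from `exists_lam`,
`B = R.card > 0` (a record is in it by `rec_mem`).  A good sequence (`Good J`) has contents with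
at most `J` elements (`card_cont`), so all records are in `R` (`rec_mem`): if the number of the
exposed cells is odd, it is `Nice`.

Let `M = N * 2 ^ L`, and let `a j`, `b j` be the numbers of the good sequences of length `j` with an
odd resp. even number of exposed cells.  `card_good` for `k - 1`: `2 M ^ (k - 1) ≤
3 (a (k - 1) + b (k - 1))`.  If `M ^ (k - 1) ≤ 3 a (k - 1)`: `dense_of_count` with `q = 3`, for
`k - 1`, and `Dense.cup` with `dense2` (files in `Pool/Agent/H63/ZT`).  Otherwise `M ^ (k - 1) ≤ 3 b (k - 1)` and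
`parity_step` gives `M ^ k ≤ 6 a k`: `dense_of_count` with `q = 6`.
-/

set_option autoImplicit false

namespace Pool.Agent.H62.ZN

open Finset Pool.Agent.H63ZT

open Classical in
theorem main_nice {J k N L : ℕ} {F : Type} [Field F] (x : Tree L → F) :
    (univ.filter (fun y : Fin k → Fin N × Tree L =>
        Good J y ∧ (expo (str L x) (univ.image y)).card % 2 = 1)).card ≤
      (univ.filter (fun y : Fin k → Fin N × Tree L => Nice (RR L J) (str L x) y)).card := by
  apply Finset.card_le_card
  intro y hy
  simp only [mem_filter, mem_univ, true_and] at hy ⊢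
  refine ⟨hy.1.1, fun c => ?_, hy.2⟩
  apply rec_mem J L le_rfl x
  rw [card_cont hy.1.1 c]
  have := hy.1.2 c
  omega

open Classical in
theorem main_split {J k N L : ℕ} {F : Type} [Field F] (s : Str (Tree L) F) :
    (univ.filter (fun y : Fin k → Fin N × Tree L => Good J y)).card ≤
      (univ.filter (fun y : Fin k → Fin N × Tree L =>
        Good J y ∧ (expo s (univ.image y)).card % 2 = 1)).card +
      (univ.filter (fun y : Fin k → Fin N × Tree L =>
        Good J y ∧ (expo s (univ.image y)).card % 2 = 0)).card := by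
  refine le_trans (Finset.card_le_card ?_) (Finset.card_union_le _ _)
  intro y hy
  simp only [mem_filter, mem_univ, true_and, mem_union] at hy ⊢
  rcases Nat.mod_two_eq_zero_or_one (expo s (univ.image y)).card with h | h
  · exact Or.inr ⟨hy, h⟩
  · exact Or.inl ⟨hy, h⟩

theorem dense_main {n k J N L : ℕ} (hk : 2 ≤ k) (hJ : 2 ≤ J) (hN : k ^ (J + 1) ≤ N ^ J)
    (h2 : 2 * k ≤ N) (hL : 4 * k ≤ 2 ^ L) :
    Dense n k 1 (12 * (2 * (RR L J).card * (((2 * (RR L J).card + 1) * N + 1) * 4))) := by
  classical
  obtain ⟨k, rfl⟩ : ∃ k', k = k' + 1 := ⟨k - 1, by omega⟩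
  obtain ⟨F, i1, i2, i3, hF⟩ := exists_field (2 ^ L)
  obtain ⟨x⟩ : Nonempty (Tree L ↪ F) := by
    apply Function.Embedding.nonempty_of_card_le
    rw [card_tree]
    exact hF
  have hs : Loc (str L x) := (str_isLoc L x x.injective).toLoc
  obtain ⟨lam, hinj, hB⟩ := exists_lam (RR L J)
  have hN0 : 0 < N := by omega
  have hD : 0 < Fintype.card (Tree L) := by
    rw [card_tree]
    positivity
  have hB0 : 0 < (RR L J).card :=
    Finset.card_pos.mpr ⟨_, rec_mem J L le_rfl x ∅ (by simp)⟩
  have hg : 2 * (N * Fintype.card (Tree L)) ^ k ≤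
      3 * (univ.filter (fun y : Fin k → Fin N × Tree L => Good J y)).card := by
    apply card_good hJ ?_ (by omega) hN0 ?_
    · exact (Nat.pow_le_pow_left (Nat.le_succ k) _).trans hN
    · rw [card_tree]
      omega
  have hsp := main_split (J := J) (k := k) (N := N) (str L x)
  by_cases hc : (N * Fintype.card (Tree L)) ^ k ≤
      3 * (univ.filter (fun y : Fin k → Fin N × Tree L =>
        Good J y ∧ (expo (str L x) (univ.image y)).card % 2 = 1)).card
  · have h3 := dense_of_count (n := n) (k := k) (B := (RR L J).card) (q := 3) hs hN0 hD hB0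
      hinj hB (hc.trans (Nat.mul_le_mul_left 3 (main_nice x)))
    obtain ⟨k, rfl⟩ : ∃ k', k = k' + 1 := ⟨k - 1, by omega⟩
    have h4 := h3.cup (dense2 n)
    have e : 3 * (2 * (2 * (RR L J).card * (((2 * (RR L J).card + 1) * N + 1) * 4))) * 2 =
        12 * (2 * (RR L J).card * (((2 * (RR L J).card + 1) * N + 1) * 4)) := by ring
    rw [e, mul_one] at h4
    exact h4
  · have h5 : (N * Fintype.card (Tree L)) ^ k ≤
        3 * (univ.filter (fun y : Fin k → Fin N × Tree L =>
          Good J y ∧ (expo (str L x) (univ.image y)).card % 2 = 0)).card := by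
      omega
    have h6 := parity_step (N := N) hs (J := J) (k := k) (by omega) (by omega)
    have h7 : (N * Fintype.card (Tree L)) ^ (k + 1) ≤
        6 * (univ.filter (fun y : Fin (k + 1) → Fin N × Tree L =>
          Good J y ∧ (expo (str L x) (univ.image y)).card % 2 = 1)).card := by
      rw [pow_succ]
      have h8 := Nat.mul_le_mul_left (N * Fintype.card (Tree L)) h5
      nlinarith [h8, h6]
    have h3 := dense_of_count (n := n) (k := k + 1) (B := (RR L J).card) (q := 6) hs hN0 hD hB0
      hinj hB (h7.trans (Nat.mul_le_mul_left 6 (main_nice x)))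
    have e : 6 * (2 * (2 * (RR L J).card * (((2 * (RR L J).card + 1) * N + 1) * 4))) =
        12 * (2 * (RR L J).card * (((2 * (RR L J).card + 1) * N + 1) * 4)) := by ring
    rw [e] at h3
    exact h3

end Pool.Agent.H62.ZN
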