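import Mathlib
import Pool.Agent.H62.ZN.Records

/-!
# JOB ZN-9 (MP_07f90a_co): choice of the parameters

`J = max 2 ⌈2 / ε⌉₊`, `N = 2 * ⌈(k : ℝ) ^ (1 + 1 / J)⌉₊`, `L = Nat.log 2 k + 3`, `b = card (RR L J)`.
* `N ^ J ≥ (k ^ (1 + 1 / J)) ^ J = k ^ (J + 1)`, `N ≥ 2 k`, `2 ^ L ≥ 4 k`
  (`Nat.lt_pow_succ_log_self`).
* `N ≤ 2 (k ^ (1 + 1 / J) + 1) ≤ 4 k ^ (1 + 1 / J) ≤ 4 k ^ (1 + ε / 2)`.
* `b ≤ (2 L + 2) ^ (2 ^ (J + 1))` (`card_RR`), and `2 L + 2 = 2 log2 k + 8 ≤ c k ^ δ` with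
  `δ = ε / (2 * 2 ^ (J + 2))` and a constant `c` (`Real.log_le_rpow_div`, or `Real.log_natCast_le_rpow_div`; `Nat.log 2 k ≤ log k / log 2`,
  `Real.log_two_gt_d9`), so `b ^ 2 ≤ c ^ (2 ^ (J + 2)) * k ^ (ε / 2)`.
* the number is at most `12 * (2 b * ((3 b + 1) N' * 4 ..))`, e.g. for `b ≥ 1`, `N ≥ 1`: at most
  `384 b ^ 2 N`; it is `0` for `b = 0`.
-/

set_option autoImplicit false

namespace Pool.Agent.H62.ZN

open Finset

theorem Numeric_log {δ : ℝ} (hδ : 0 < δ) {k : ℕ} (hk : 2 ≤ k) :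
    ((2 * (Nat.log 2 k + 3) + 2 : ℕ) : ℝ) ≤ (4 / δ + 8) * (k : ℝ) ^ δ := by
  have hk1 : (1 : ℝ) ≤ k := by
    have : (2 : ℝ) ≤ k := by exact_mod_cast hk
    linarith
  have h1 : (Nat.log 2 k : ℝ) ≤ Real.logb 2 k := by
    have := Real.natLog_le_logb k 2
    exact_mod_cast this
  have h2 : Real.logb 2 k ≤ 2 * Real.log k := by
    rw [Real.logb, div_le_iff₀ (Real.log_pos (by norm_num))]
    have h3 := Real.log_two_gt_d9
    have h4 := Real.log_nonneg hk1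
    nlinarith
  have h5 : Real.log k ≤ (k : ℝ) ^ δ / δ := Real.log_natCast_le_rpow_div k hδ
  have h6 : (1 : ℝ) ≤ (k : ℝ) ^ δ := Real.one_le_rpow hk1 hδ.le
  have h7 : (4 / δ + 8) * (k : ℝ) ^ δ = 4 * ((k : ℝ) ^ δ / δ) + 8 * (k : ℝ) ^ δ := by
    field_simp
  rw [h7]
  push_cast
  linarith

theorem Numeric_bound (b N : ℕ) (hN : 1 ≤ N) :
    12 * (2 * b * (((2 * b + 1) * N + 1) * 4)) ≤ 384 * b ^ 2 * N := by
  rcases Nat.eq_zero_or_pos b with h | h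
  · subst h
    simp
  · have h1 : (2 * b + 1) * N + 1 ≤ 4 * b * N := by
      have h2 : 1 ≤ b * N := Nat.mul_pos h hN
      nlinarith
    calc 12 * (2 * b * (((2 * b + 1) * N + 1) * 4)) ≤ 12 * (2 * b * ((4 * b * N) * 4)) :=
          Nat.mul_le_mul_left _ (Nat.mul_le_mul_left _ (Nat.mul_le_mul_right _ h1))
      _ = 384 * b ^ 2 * N := by ring

theorem numeric (ε : ℝ) (hε : 0 < ε) : ∃ C : ℝ, 0 < C ∧ ∀ k : ℕ, 2 ≤ k → ∃ J N L : ℕ,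
    2 ≤ J ∧ k ^ (J + 1) ≤ N ^ J ∧ 2 * k ≤ N ∧ 4 * k ≤ 2 ^ L ∧
    ((12 * (2 * (RR L J).card * (((2 * (RR L J).card + 1) * N + 1) * 4)) : ℕ) : ℝ) ≤
      C * (k : ℝ) ^ (1 + ε) := by
  obtain ⟨J, hJ2, hJε⟩ : ∃ J : ℕ, 2 ≤ J ∧ 2 / ε ≤ J := by
    refine ⟨max 2 ⌈2 / ε⌉₊, le_max_left _ _, (Nat.le_ceil _).trans ?_⟩
    exact_mod_cast le_max_right _ _
  have hJ0 : (0 : ℝ) < J := by
    have : (2 : ℝ) ≤ J := by exact_mod_cast hJ2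
    linarith
  have hJi : 1 / (J : ℝ) ≤ ε / 2 := by
    rw [div_le_iff₀ hJ0]
    rw [div_le_iff₀ hε] at hJε
    linarith
  set p : ℕ := 2 ^ (J + 1) with hp
  have hp0 : (0 : ℝ) < p := by
    rw [hp]
    positivity
  set δ : ℝ := ε / (4 * p) with hδd
  have hδ : 0 < δ := by positivity
  have hc : (0 : ℝ) < 4 / δ + 8 := by positivity
  refine ⟨1536 * (4 / δ + 8) ^ (2 * p), by positivity, fun k hk => ?_⟩
  have hk0 : (0 : ℝ) < k := by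
    have : 0 < k := by omega
    exact_mod_cast this
  have hk1 : (1 : ℝ) ≤ k := by
    have : 1 ≤ k := by omega
    exact_mod_cast this
  set x : ℝ := (k : ℝ) ^ (1 + 1 / (J : ℝ)) with hx
  have hkx : (k : ℝ) ≤ x := by
    calc (k : ℝ) = (k : ℝ) ^ (1 : ℝ) := (Real.rpow_one _).symm
      _ ≤ x := Real.rpow_le_rpow_of_exponent_le hk1 (by
          have : 0 < 1 / (J : ℝ) := by positivity
          linarith)
  have hx1 : 1 ≤ x := hk1.trans hkx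
  have hm1 : x ≤ (⌈x⌉₊ : ℝ) := Nat.le_ceil _
  have hm2 : (⌈x⌉₊ : ℝ) < x + 1 := Nat.ceil_lt_add_one (by linarith)
  refine ⟨J, 2 * ⌈x⌉₊, Nat.log 2 k + 3, hJ2, ?_, ?_, ?_, ?_⟩
  · have h1 : ((k : ℝ)) ^ (J + 1) = x ^ J := by
      rw [hx, ← Real.rpow_natCast, ← Real.rpow_natCast, ← Real.rpow_mul hk0.le]
      congr 1
      push_cast
      field_simp
    have h2 : ((k ^ (J + 1) : ℕ) : ℝ) ≤ (((2 * ⌈x⌉₊) ^ J : ℕ) : ℝ) := by
      push_cast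
      rw [h1]
      exact pow_le_pow_left₀ (by linarith) (by linarith) _
    exact_mod_cast h2
  · have h1 : (k : ℝ) ≤ (⌈x⌉₊ : ℝ) := hkx.trans hm1
    have h2 : k ≤ ⌈x⌉₊ := by exact_mod_cast h1
    omega
  · have h1 : k < 2 ^ (Nat.log 2 k + 1) := Nat.lt_pow_succ_log_self (by norm_num) k
    have h2 : 2 ^ (Nat.log 2 k + 3) = 4 * 2 ^ (Nat.log 2 k + 1) := by ring
    omega
  · have hmpos : 1 ≤ 2 * ⌈x⌉₊ := by
      have : (1 : ℝ) ≤ (⌈x⌉₊ : ℝ) := hx1.trans hm1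
      have : 1 ≤ ⌈x⌉₊ := by exact_mod_cast this
      omega
    set b : ℕ := (RR (Nat.log 2 k + 3) J).card with hb
    have hbc : b ≤ (2 * (Nat.log 2 k + 3) + 2) ^ p := card_RR _ _
    have h1 : ((12 * (2 * b * (((2 * b + 1) * (2 * ⌈x⌉₊) + 1) * 4)) : ℕ) : ℝ) ≤
        ((384 * b ^ 2 * (2 * ⌈x⌉₊) : ℕ) : ℝ) := by
      exact_mod_cast Numeric_bound b (2 * ⌈x⌉₊) hmpos
    have h2 : (b : ℝ) ≤ ((4 / δ + 8) * (k : ℝ) ^ δ) ^ p := by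
      calc (b : ℝ) ≤ (((2 * (Nat.log 2 k + 3) + 2 : ℕ) : ℝ)) ^ p := by exact_mod_cast hbc
        _ ≤ _ := pow_le_pow_left₀ (Nat.cast_nonneg _) (Numeric_log hδ hk) _
    have h3 : (b : ℝ) ^ 2 ≤ (4 / δ + 8) ^ (2 * p) * (k : ℝ) ^ (ε / 2) := by
      calc (b : ℝ) ^ 2 ≤ (((4 / δ + 8) * (k : ℝ) ^ δ) ^ p) ^ 2 :=
            pow_le_pow_left₀ (Nat.cast_nonneg _) h2 _
        _ = (4 / δ + 8) ^ (2 * p) * ((k : ℝ) ^ δ) ^ (2 * p) := by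
            rw [← pow_mul, mul_comm p 2, mul_pow]
        _ = (4 / δ + 8) ^ (2 * p) * (k : ℝ) ^ (ε / 2) := by
            congr 1
            rw [← Real.rpow_natCast, ← Real.rpow_mul hk0.le]
            congr 1
            rw [hδd]
            push_cast
            field_simp
            norm_num
    have h4 : ((2 * ⌈x⌉₊ : ℕ) : ℝ) ≤ 4 * (k : ℝ) ^ (1 + ε / 2) := by
      have h5 : x ≤ (k : ℝ) ^ (1 + ε / 2) :=
        Real.rpow_le_rpow_of_exponent_le hk1 (by linarith)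
      push_cast
      linarith
    have h6 : (k : ℝ) ^ (1 + ε) = (k : ℝ) ^ (ε / 2) * (k : ℝ) ^ (1 + ε / 2) := by
      rw [← Real.rpow_add hk0]
      congr 1
      ring
    calc ((12 * (2 * b * (((2 * b + 1) * (2 * ⌈x⌉₊) + 1) * 4)) : ℕ) : ℝ)
        ≤ ((384 * b ^ 2 * (2 * ⌈x⌉₊) : ℕ) : ℝ) := h1
      _ = 384 * ((b : ℝ) ^ 2 * ((2 * ⌈x⌉₊ : ℕ) : ℝ)) := by
          push_cast
          ring
      _ ≤ 384 * (((4 / δ + 8) ^ (2 * p) * (k : ℝ) ^ (ε / 2)) * (4 * (k : ℝ) ^ (1 + ε / 2))) := by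
          refine mul_le_mul_of_nonneg_left ?_ (by norm_num)
          exact mul_le_mul h3 h4 (Nat.cast_nonneg _) (by positivity)
      _ = 1536 * (4 / δ + 8) ^ (2 * p) * (k : ℝ) ^ (1 + ε) := by
          rw [h6]
          ring

end Pool.Agent.H62.ZN
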